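import Pool.Agent.T2H24.SU.Orders

set_option autoImplicit false
set_option linter.unusedSectionVars false
set_option linter.unusedVariables false

/-!
# From the characters to continuous functions
-/

namespace Pool.Agent.T2H24.SU

open Filter Topology ComplexConjugate NumberField IsDedekindDomain
  Pool.Agent.TH553.RS Pool.Agent.TH553.ST Pool.Agent.W540.BE Pool.Agent.H341R2

section

variable {P : Type*} {N : P → ℕ}

/-- limits along all ultrafilters -/
theorem tendsto_of_M (hN : Sys N) {φ : P → ℝ} (hφ : Bd φ) {c : ℝ}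
    (h : ∀ U : Ultrafilter ℝ, (U : Filter ℝ) ≤ 𝓝[>] 0 → M N U φ = c) :
    Tendsto (qt N φ) (𝓝[>] 0) (𝓝 c) := by
  rw [tendsto_iff_ultrafilter]
  intro U hU
  have h1 := M_lim hN hU hφ
  rw [h U hU] at h1
  exact h1

theorem Mc_sub_le (hN : Sys N) {U : Ultrafilter ℝ} (hU : (U : Filter ℝ) ≤ 𝓝[>] 0) {φ ψ : P → ℂ}
    (h : Bc φ) (h' : Bc ψ) {ε : ℝ} (hε : ∀ p, ‖φ p - ψ p‖ ≤ ε) :
    ‖Mc N U φ - Mc N U ψ‖ ≤ 2 * ε := by
  have key : ∀ {a b : P → ℝ}, Bd a → Bd b → (∀ p, |a p - b p| ≤ ε) →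
      |M N U a - M N U b| ≤ ε := by
    intro a b ha hb hab
    rw [← M_sub hN hU ha hb, abs_le]
    constructor
    · have h1 := M_mono hN hU (Bd.const (-ε)) (ha.sub hb) fun p => (abs_le.1 (hab p)).1
      rw [M_const hN hU] at h1
      exact h1
    · have h1 := M_mono hN hU (ha.sub hb) (Bd.const ε) fun p => (abs_le.1 (hab p)).2
      rw [M_const hN hU] at h1
      exact h1
  have h1 : |(Mc N U φ - Mc N U ψ).re| ≤ ε := by
    rw [Complex.sub_re]
    refine key h.re h'.re fun p => ?_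
    have := Complex.abs_re_le_norm (φ p - ψ p)
    rw [Complex.sub_re] at this
    exact this.trans (hε p)
  have h2 : |(Mc N U φ - Mc N U ψ).im| ≤ ε := by
    rw [Complex.sub_im]
    refine key (Bc_im h) (Bc_im h') fun p => ?_
    have := Complex.abs_im_le_norm (φ p - ψ p)
    rw [Complex.sub_im] at this
    exact this.trans (hε p)
  refine (Complex.norm_le_abs_re_add_abs_im _).trans ?_
  linarith

theorem bc_comp {θ : P → ℝ} (hθ : ∀ p, θ p ∈ Set.Icc 0 Real.pi) {f : ℝ → ℂ} (hf : Continuous f) :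
    Bc fun p => f (θ p) := by
  obtain ⟨C, hC⟩ := isCompact_Icc.exists_bound_of_continuousOn
    (hf.continuousOn (s := Set.Icc 0 Real.pi))
  exact ⟨C, fun p => hC _ (hθ p)⟩

/-- the law along an ultrafilter -/
theorem law_U (hN : Sys N) {U : Ultrafilter ℝ} (hU : (U : Filter ℝ) ≤ 𝓝[>] 0) {θ : P → ℝ}
    (hθ : ∀ p, θ p ∈ Set.Icc 0 Real.pi)
    (h : ∀ n : ℕ, n ≠ 0 → (M N U fun p => us n (θ p)) = 0) {f : ℝ → ℂ} (hf : Continuous f) :
    Mc N U (fun p => f (θ p)) = stI f := by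
  refine span_dense (Good := fun f => Mc N U (fun p => f (θ p)) = stI f) ?_ ?_ ?_ ?_ f hf
  · intro f g hf hg h1 h2
    rw [Mc_add hN hU (bc_comp hθ hf) (bc_comp hθ hg), stI_add hf hg, h1, h2]
  · intro c f hf h1
    rw [Mc_mul hN hU (bc_comp hθ hf), stI_mul, h1]
  · intro n
    rw [stI_us]
    have h1 : (M N U fun p => us n (θ p)) = if n = 0 then 1 else 0 := by
      split_ifs with hn
      · subst hn
        simp only [us_zero]
        exact M_one hN hU
      · exact h n hn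
    apply Complex.ext
    · change (M N U fun p => (((us n (θ p) : ℝ)) : ℂ).re) = _
      simp only [Complex.ofReal_re]
      rw [h1]
      split_ifs <;> simp
    · change (M N U fun p => (((us n (θ p) : ℝ)) : ℂ).im) = _
      simp only [Complex.ofReal_im]
      rw [M_const hN hU]
      split_ifs <;> simp
  · intro f hf happ
    by_contra hne
    have h1 : 0 < ‖Mc N U (fun p => f (θ p)) - stI f‖ := norm_pos_iff.2 (sub_ne_zero.2 hne)
    set d := ‖Mc N U (fun p => f (θ p)) - stI f‖ with hd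
    obtain ⟨g, hg, hg1, hg2⟩ := happ (d / 4) (by positivity)
    have h2 := Mc_sub_le hN hU (bc_comp hθ hf) (bc_comp hθ hg) (fun p => hg2 _ (hθ p))
    have h3 := stI_sub_le hf hg (by positivity) hg2
    have h4 : Mc N U (fun p => f (θ p)) - stI f = (Mc N U (fun p => f (θ p)) -
        Mc N U (fun p => g (θ p))) + (stI g - stI f) := by
      rw [hg1]
      ring
    have h6 := norm_add_le (Mc N U (fun p => f (θ p)) - Mc N U (fun p => g (θ p)))
      (stI g - stI f)
    rw [← h4, ← hd, norm_sub_rev (stI g)] at h6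
    linarith

/-- the real form -/
theorem law_U_real (hN : Sys N) {U : Ultrafilter ℝ} (hU : (U : Filter ℝ) ≤ 𝓝[>] 0) {θ : P → ℝ}
    (hθ : ∀ p, θ p ∈ Set.Icc 0 Real.pi)
    (h : ∀ n : ℕ, n ≠ 0 → (M N U fun p => us n (θ p)) = 0) {f : ℝ → ℝ} (hf : Continuous f) :
    (M N U fun p => f (θ p)) = 2 / Real.pi * ∫ t in (0 : ℝ)..Real.pi, f t * Real.sin t ^ 2 := by
  have h1 := law_U hN hU hθ h (f := fun t => ((f t : ℝ) : ℂ)) (Complex.continuous_ofReal.comp hf)
  have h2 := congrArg Complex.re h1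
  change (M N U fun p => (((f (θ p) : ℝ)) : ℂ).re) = _ at h2
  simp only [Complex.ofReal_re] at h2
  rw [h2]
  unfold stI
  have h3 : (fun t : ℝ => ((f t : ℝ) : ℂ) * ((Real.sin t ^ 2 : ℝ) : ℂ)) =
      fun t => ((f t * Real.sin t ^ 2 : ℝ) : ℂ) := by
    funext t
    push_cast
    rfl
  rw [h3, intervalIntegral.integral_ofReal, ← Complex.ofReal_mul, Complex.ofReal_re]

end

/-- the second moment of the characters -/
theorem int_us_sq (n : ℕ) :
    2 / Real.pi * ∫ t in (0 : ℝ)..Real.pi, us n t ^ 2 * Real.sin t ^ 2 = 1 := by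
  have h1 : (fun t : ℝ => us n t ^ 2 * Real.sin t ^ 2) =
      fun t => (1 : ℝ) / 2 - 1 / 2 * Real.cos (((2 * (n + 1) : ℕ) : ℝ) * t) := by
    funext t
    rw [← mul_pow, us_mul_sin, Real.sin_sq_eq_half_sub]
    have e : 2 * (((n : ℝ) + 1) * t) = ((2 * (n + 1) : ℕ) : ℝ) * t := by push_cast; ring
    rw [e]
    ring
  rw [h1, intervalIntegral.integral_sub, intervalIntegral.integral_const_mul,
    int_cos_nat (by omega), intervalIntegral.integral_const]
  · simp
    field_simp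
  · exact (Continuous.intervalIntegrable (by fun_prop) _ _)
  · exact (Continuous.intervalIntegrable (by fun_prop) _ _)

/-- the characters are not unimodular -/
theorem int_us_pos {n : ℕ} (hn : n ≠ 0) :
    0 < 2 / Real.pi * ∫ t in (0 : ℝ)..Real.pi, (us n t ^ 2 - 1) ^ 2 * Real.sin t ^ 2 := by
  refine mul_pos (by positivity) ?_
  refine intervalIntegral.integral_pos Real.pi_pos ?_ ?_ ?_
  · exact (((((cont_us n).pow 2).sub continuous_const).pow 2).mul
      (Real.continuous_sin.pow 2)).continuousOn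
  · intro t _
    positivity
  · have hn' : (0 : ℝ) < n := by exact_mod_cast Nat.pos_of_ne_zero hn
    have hpi := Real.pi_pos
    have h1 : 0 < Real.pi / ((n : ℝ) + 1) := by positivity
    have h2 : Real.pi / ((n : ℝ) + 1) < Real.pi := by
      rw [div_lt_iff₀ (by positivity)]
      nlinarith
    refine ⟨Real.pi / ((n : ℝ) + 1), ⟨h1.le, h2.le⟩, ?_⟩
    have h3 : 0 < Real.sin (Real.pi / ((n : ℝ) + 1)) := Real.sin_pos_of_pos_of_lt_pi h1 h2
    have h4 := us_mul_sin n (Real.pi / ((n : ℝ) + 1))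
    have h5 : ((n : ℝ) + 1) * (Real.pi / ((n : ℝ) + 1)) = Real.pi := by field_simp
    rw [h5, Real.sin_pi] at h4
    have h6 : us n (Real.pi / ((n : ℝ) + 1)) = 0 := by
      rcases mul_eq_zero.1 h4 with h | h
      · exact h
      · exact absurd h h3.ne'
    rw [h6]
    have : (((0 : ℝ)) ^ 2 - 1) ^ 2 = 1 := by norm_num
    rw [this, one_mul]
    positivity

section

variable {F : Type} [Field F] [NumberField F]

/-- **No zeros and poles at the other points of the line.** -/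
theorem order_tau {θ : HeightOneSpectrum (𝓞 F) → ℝ} (hθ : ∀ v, θ v ∈ Set.Icc 0 Real.pi)
    (h : ∀ n : ℕ, n ≠ 0 → Tendsto (qt (nm F) fun v => us n (θ v)) (𝓝[>] 0) (𝓝 0))
    {n : ℕ} (hn : n ≠ 0) {τ : ℝ} {m : ℤ}
    (hm : Tendsto (qt (nm F) (us' θ n τ)) (𝓝[>] 0) (𝓝 (m : ℝ))) : m = 0 := by
  have hne : (𝓝[>] (0 : ℝ)).NeBot := inferInstance
  set U : Ultrafilter ℝ := Ultrafilter.of (𝓝[>] (0 : ℝ)) with hUd
  have hU : (U : Filter ℝ) ≤ 𝓝[>] 0 := Ultrafilter.of_le _
  have hN := sysF F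
  have h0 : ∀ n : ℕ, n ≠ 0 → (M (nm F) U fun v => us n (θ v)) = 0 := fun n hn =>
    M_of_tendsto hU (h n hn)
  have law := fun (f : ℝ → ℝ) (hf : Continuous f) => law_U_real hN hU hθ h0 hf
  set t : HeightOneSpectrum (𝓞 F) → ℂ := fun v => ((us n (θ v) : ℝ) : ℂ) with ht
  set c : HeightOneSpectrum (𝓞 F) → ℂ := fun v => ((nm F v : ℕ) : ℂ) ^ (-(τ * Complex.I)) with hc
  have htb : Bc t := ⟨(n : ℝ) + 1, fun v => by
    rw [ht]
    simp only
    rw [Complex.norm_real]
    exact abs_us_le n _⟩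
  have hc1 : ∀ v, ‖c v‖ = 1 := fun v => norm_cpow_I (nm_pos v) τ
  have hcb : Bc c := ⟨1, fun v => (hc1 v).le⟩
  have ht2 : ∀ v, ‖t v‖ ^ 2 = us n (θ v) ^ 2 := fun v => by
    rw [ht]
    simp only
    rw [Complex.norm_real, Real.norm_eq_abs, sq_abs]
  have hM2 : (M (nm F) U fun v => ‖t v‖ ^ 2) = 1 := by
    simp only [ht2]
    rw [law (fun s => us n s ^ 2) ((cont_us n).pow 2)]
    exact int_us_sq n
  have hMc2 : (M (nm F) U fun v => ‖c v‖ ^ 2) = 1 := by
    simp only [hc1, one_pow]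
    exact M_one hN hU
  have hr : (M (nm F) U fun v => (t v * c v).re) = (m : ℝ) := M_of_tendsto hU hm
  by_contra hm0
  have h1 : (1 : ℝ) ≤ (m : ℝ) ^ 2 := by
    have : (1 : ℤ) ≤ m ^ 2 := by
      have : 0 < m ^ 2 := by positivity
      omega
    exact_mod_cast this
  have h2 := edge_le hN hU htb hcb hM2.le hMc2.le
  rw [hr] at h2
  have h3 : |(m : ℝ)| = 1 := by
    rw [← sq_eq_sq₀ (abs_nonneg _) zero_le_one, sq_abs, one_pow]
    linarith
  have h4 := edge_eq hN hU htb hcb hM2.le hMc2.le hr h1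
  have h5 := edge_mom hN hU htb hcb h3 h4 2
  simp only [ht2, hc1, one_pow] at h5
  rw [M_one hN hU] at h5
  have h6 := int_us_pos hn
  rw [← law (fun s => (us n s ^ 2 - 1) ^ 2) ((((cont_us n).pow 2).sub continuous_const).pow 2)] at h6
  have hb1 : Bd fun v => us n (θ v) ^ 2 := by
    have := htb.norm.sq
    simpa only [ht2] using this
  have hb2 : Bd fun v => (us n (θ v) ^ 2) ^ 2 := hb1.sq
  have e : (fun v => (us n (θ v) ^ 2 - 1) ^ 2) =
      fun v => ((us n (θ v) ^ 2) ^ 2 - 2 * us n (θ v) ^ 2) + 1 := by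
    funext v
    ring
  simp only [ht2] at hM2
  rw [e, M_add hN hU (hb2.sub (hb1.const_mul 2)) (Bd.const 1), M_sub hN hU hb2 (hb1.const_mul 2),
    M_const_mul hN hU hb1, h5, hM2, M_one hN hU] at h6
  norm_num at h6

/-- the natural averages of all continuous functions -/
theorem nat_law {θ : HeightOneSpectrum (𝓞 F) → ℝ} (hθ : ∀ v, θ v ∈ Set.Icc 0 Real.pi)
    (h : ∀ n : ℕ, n ≠ 0 → Tendsto (mn fun v => ((us n (θ v) : ℝ) : ℂ)) atTop (𝓝 0))
    {f : ℝ → ℂ} (hf : Continuous f) : Tendsto (mn fun v => f (θ v)) atTop (𝓝 (stI f)) := by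
  have hmn1 : Tendsto (mn fun v : HeightOneSpectrum (𝓞 F) => (1 : ℂ)) atTop (𝓝 1) := by
    refine tendsto_const_nhds.congr' ?_
    filter_upwards [card_ev (K := F)] with N hN
    unfold mn
    rw [Finset.sum_const, Complex.real_smul, nsmul_eq_mul]
    push_cast
    have hN' : ((upto F N).card : ℂ) ≠ 0 := by exact_mod_cast hN
    field_simp
  refine span_dense (Good := fun f => Tendsto (mn fun v => f (θ v)) atTop (𝓝 (stI f)))
    ?_ ?_ ?_ ?_ f hf
  · intro f g hf hg h1 h2
    rw [stI_add hf hg]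
    refine (h1.add h2).congr fun N => ?_
    unfold mn
    rw [← smul_add, ← Finset.sum_add_distrib]
  · intro c f hf h1
    rw [stI_mul]
    refine (h1.const_mul c).congr fun N => ?_
    exact (mn_mul _ _ _).symm
  · intro n
    rw [stI_us]
    split_ifs with hn
    · subst hn
      simp only [us_zero, Complex.ofReal_one]
      exact hmn1
    · exact h n hn
  · intro f hf happ
    refine mn_unif fun ε hε => ?_
    obtain ⟨g, hg, hg1, hg2⟩ := happ ε hε
    refine ⟨fun v => g (θ v), stI g, fun v => hg2 _ (hθ v), ?_, hg1⟩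
    rw [norm_sub_rev]
    exact stI_sub_le hf hg hε.le hg2

end

end Pool.Agent.T2H24.SU
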