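import Pool.Agent.T2H24.SU.Main

set_option autoImplicit false
set_option linter.unusedSectionVars false
set_option linter.unusedVariables false

/-!
# The base change: the complete description
-/

namespace Pool.Agent.T2H24.SU

open Filter Topology ComplexConjugate NumberField IsDedekindDomain
  Pool.Agent.TH553.RS Pool.Agent.TH553.ST Pool.Agent.W540.BE Pool.Agent.H341R2 Pool.Agent.W353.TP

section

variable {K : Type} [Field K] [NumberField K] {F : Type} [Field F] [NumberField F] [Algebra K F]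

theorem cnt_le (u : HX K) : cnt K F u ≤ Module.finrank K F := by
  classical
  have hfact : Fact (u.1 : ℕ).Prime := ⟨u.1.2⟩
  set p : Ideal (𝓞 K) := RingHom.ker u.2 with hp
  have hpm : p.IsMaximal := RingHom.ker_isMaximal_of_surjective u.2 (ZMod.ringHom_surjective u.2)
  have hp0 : p ≠ ⊥ := (Pool.Agent.H921R2.TatePole.kerPrime u.1 u.2).1.1.ne_bot
  have h1 : ((Finset.univ.filter (fun ψ : 𝓞 F →+* ZMod (u.1 : ℕ) => res K ψ = u.2)).card) ≤
      (IsDedekindDomain.primesOverFinset p (𝓞 F)).card := by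
    refine Finset.card_le_card_of_injOn (fun ψ => RingHom.ker ψ) ?_ ?_
    · intro ψ hψ
      have hψ' : res K ψ = u.2 := (Finset.mem_filter.1 hψ).2
      rw [Finset.mem_coe, IsDedekindDomain.mem_primesOverFinset_iff hp0]
      refine ⟨RingHom.ker_isPrime ψ, ⟨?_⟩⟩
      rw [hp, ← hψ']
      ext x
      rfl
    · intro ψ _ ψ' _ h
      exact Pool.Agent.H921R2.TatePole.hom_ext_of_ker h
  have : NoZeroSMulDivisors (𝓞 K) (𝓞 F) := ⟨fun {c x} h => by
    rw [Algebra.smul_def, mul_eq_zero] at h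
    rcases h with h | h
    · left
      exact (map_eq_zero_iff _ (FaithfulSMul.algebraMap_injective (𝓞 K) (𝓞 F))).1 h
    · right
      exact h⟩
  have h2 := Ideal.card_primesOverFinset_le_finrank (𝓞 F) K F (p := p) hp0
  unfold cnt push
  rw [Finset.sum_const, nsmul_eq_mul, mul_one]
  exact_mod_cast h1.trans h2

/-- the squares of trigonometric polynomials -/
noncomputable def tq (R : ℕ) (w : ℕ → ℝ) (t : ℝ) : ℝ :=
  ∑ i ∈ Finset.range R, ∑ l ∈ Finset.range R, (w i * w l) * Real.cos ((((l : ℤ) - i : ℤ) : ℝ) * t)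

theorem tq_nonneg (R : ℕ) (w : ℕ → ℝ) (t : ℝ) : 0 ≤ tq R w t := by
  have h : tq R w t = (∑ i ∈ Finset.range R, w i * Real.cos ((i : ℝ) * t)) ^ 2 +
      (∑ i ∈ Finset.range R, w i * Real.sin ((i : ℝ) * t)) ^ 2 := by
    unfold tq
    rw [sq, sq, Finset.sum_mul_sum, Finset.sum_mul_sum, ← Finset.sum_add_distrib]
    refine Finset.sum_congr rfl fun i _ => ?_
    rw [← Finset.sum_add_distrib]
    refine Finset.sum_congr rfl fun l _ => ?_
    have e : (((l : ℤ) - i : ℤ) : ℝ) * t = (l : ℝ) * t - (i : ℝ) * t := by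
      push_cast
      ring
    rw [e, Real.cos_sub]
    ring
  rw [h]
  positivity

theorem bd_tq {P : Type*} (θ : P → ℝ) (R : ℕ) (w : ℕ → ℝ) : Bd fun p => tq R w (θ p) := by
  unfold tq
  exact Bd.sum _ fun i _ => Bd.sum _ fun l _ => (bd_cos' θ _).const_mul _

theorem M_tq {P : Type*} {N : P → ℕ} (hN : Sys N) {U : Ultrafilter ℝ}
    (hU : (U : Filter ℝ) ≤ 𝓝[>] 0) (θ : P → ℝ) (g : P → ℝ) (hg : Bd g) (R : ℕ) (w : ℕ → ℝ) :
    (M N U fun p => tq R w (θ p) * g p) = ∑ i ∈ Finset.range R, ∑ l ∈ Finset.range R,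
      (w i * w l) * M N U fun p => Real.cos ((((l : ℤ) - i : ℤ) : ℝ) * θ p) * g p := by
  unfold tq
  have e : (fun p => (∑ i ∈ Finset.range R, ∑ l ∈ Finset.range R,
      (w i * w l) * Real.cos ((((l : ℤ) - i : ℤ) : ℝ) * θ p)) * g p) = fun p =>
      ∑ i ∈ Finset.range R, ∑ l ∈ Finset.range R,
        (w i * w l) * (Real.cos ((((l : ℤ) - i : ℤ) : ℝ) * θ p) * g p) := by
    funext p
    rw [Finset.sum_mul]
    refine Finset.sum_congr rfl fun i _ => ?_
    rw [Finset.sum_mul]
    exact Finset.sum_congr rfl fun l _ => by ring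
  rw [e, M_sum hN hU _ fun i _ => Bd.sum _ fun l _ => ((bd_cos' θ _).mul hg).const_mul _]
  refine Finset.sum_congr rfl fun i _ => ?_
  rw [M_sum hN hU _ fun l _ => ((bd_cos' θ _).mul hg).const_mul _]
  exact Finset.sum_congr rfl fun l _ => M_const_mul hN hU ((bd_cos' θ _).mul hg) _

/-- the test inequality -/
theorem bc_test {θ : HeightOneSpectrum (𝓞 K) → ℝ} {φ : HeightOneSpectrum (𝓞 F) → ℝ}
    (h : BCa θ φ) {U : Ultrafilter ℝ} (hU : (U : Filter ℝ) ≤ 𝓝[>] 0)
    {m₀ m : ℕ → ℤ} (h00 : m₀ 0 = 1) (h0 : m 0 = 1)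
    (hθ : ∀ n : ℕ, 1 ≤ n → (M (nm K) U fun v => us n (θ v)) = m₀ n)
    (hm : ∀ n : ℕ, 1 ≤ n → (M (nm F) U fun w => us n (φ w)) = m n) (R : ℕ) (w : ℕ → ℝ) :
    ∑ i ∈ Finset.range R, ∑ l ∈ Finset.range R, (w i * w l) * (cf m ((l : ℤ) - i) : ℝ) ≤
      Module.finrank K F *
        ∑ i ∈ Finset.range R, ∑ l ∈ Finset.range R, (w i * w l) * (cf m₀ ((l : ℤ) - i) : ℝ) := by
  have hK := sysHS K
  have hcosF : ∀ j : ℤ, (M (nm F) U fun w => Real.cos ((j : ℝ) * φ w)) = (cf m j : ℝ) / 2 := by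
    intro j
    have h4 := M_cos (sysF F) hU (θ := φ) h0 hm j
    rw [M_const_mul (sysF F) hU (bd_cos' φ _)] at h4
    linarith
  have hcosK : ∀ j : ℤ, (M (nm K) U fun w => Real.cos ((j : ℝ) * θ w)) = (cf m₀ j : ℝ) / 2 := by
    intro j
    have h4 := M_cos (sysF K) hU (θ := θ) h00 hθ j
    rw [M_const_mul (sysF K) hU (bd_cos' θ _)] at h4
    linarith
  have h1 : (M (NH K) U fun u => tq R w (θ (kr u)) * cnt K F u) =
      ∑ i ∈ Finset.range R, ∑ l ∈ Finset.range R, (w i * w l) * ((cf m ((l : ℤ) - i) : ℝ) / 2) := by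
    rw [M_tq hK hU (fun u => θ (kr u)) (cnt K F) bd_cnt]
    refine Finset.sum_congr rfl fun i _ => Finset.sum_congr rfl fun l _ => ?_
    rw [← M_bca h hU, hcosF]
  have h2 : (M (NH K) U fun u => tq R w (θ (kr u)) * cnt K F u) ≤
      M (NH K) U fun u => (Module.finrank K F : ℝ) * tq R w (θ (kr u)) := by
    refine M_mono hK hU ((bd_tq (fun u : HX K => θ (kr u)) R w).mul bd_cnt)
      ((bd_tq (fun u : HX K => θ (kr u)) R w).const_mul _) fun u => ?_
    rw [mul_comm]
    exact mul_le_mul_of_nonneg_right (cnt_le u) (tq_nonneg _ _ _)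
  rw [M_const_mul hK hU (bd_tq (fun u : HX K => θ (kr u)) R w)] at h2
  have h3 : (M (NH K) U fun u => tq R w (θ (kr u))) =
      ∑ i ∈ Finset.range R, ∑ l ∈ Finset.range R, (w i * w l) * ((cf m₀ ((l : ℤ) - i) : ℝ) / 2) := by
    have e1 : (M (NH K) U fun u => tq R w (θ (kr u))) = M (nm K) U fun v => tq R w (θ v) :=
      M_kr hU (g := fun v => tq R w (θ v)) (bd_tq θ R w)
    have e2 := M_tq (sysF K) hU θ (fun _ => 1) (Bd.const 1) R w
    simp only [mul_one] at e2
    rw [e1, e2]
    exact Finset.sum_congr rfl fun i _ => Finset.sum_congr rfl fun l _ => by rw [hcosK]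
  rw [h1, h3] at h2
  have e3 : ∀ c : ℤ → ℤ, ∑ i ∈ Finset.range R, ∑ l ∈ Finset.range R,
      (w i * w l) * ((c ((l : ℤ) - i) : ℝ) / 2) = (1 / 2) *
      ∑ i ∈ Finset.range R, ∑ l ∈ Finset.range R, (w i * w l) * (c ((l : ℤ) - i) : ℝ) := by
    intro c
    rw [Finset.mul_sum]
    refine Finset.sum_congr rfl fun i _ => ?_
    rw [Finset.mul_sum]
    exact Finset.sum_congr rfl fun l _ => by ring
  rw [e3, e3] at h2
  linarith

end

/-- the quadratic form of a sequence with one jump -/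
theorem form_jump {m : ℕ → ℤ} {N : ℕ} (hN : 0 < N) {ε : ℤ}
    (h : ∀ n : ℕ, 1 ≤ n → jump m n = if n = N then ε else 0) {R : ℕ} {w : ℕ → ℝ}
    (hw : ∀ i, R ≤ i → w i = 0) :
    ∑ i ∈ Finset.range R, ∑ l ∈ Finset.range R, (w i * w l) * (cf m ((l : ℤ) - i) : ℝ) =
      2 * ∑ i ∈ Finset.range R, w i ^ 2 + 2 * ε * ∑ i ∈ Finset.range R, w i * w (i + N) := by
  have hcf : ∀ j : ℤ, cf m j = (if j = 0 then 2 else 0) + (if j = N then ε else 0) +
      (if j = -N then ε else 0) := by
    intro j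
    unfold cf
    by_cases hj : j = 0
    · rw [if_pos hj, if_pos hj, if_neg (by omega), if_neg (by omega)]
      ring
    · rw [if_neg hj, if_neg hj, h _ (Int.natAbs_pos.2 hj)]
      split_ifs <;> omega
  have hsum : ∀ (a : ℤ) (i : ℕ), ∑ l ∈ Finset.range R, (w i * w l) *
      (((if (l : ℤ) - i = a then ε else 0 : ℤ)) : ℝ) =
      ε * (w i * (if 0 ≤ (i : ℤ) + a then w (((i : ℤ) + a).toNat) else 0)) := by
    intro a i
    by_cases h0 : 0 ≤ (i : ℤ) + a
    · rw [if_pos h0]
      by_cases h1 : ((i : ℤ) + a).toNat < R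
      · rw [Finset.sum_eq_single (((i : ℤ) + a).toNat)]
        · rw [if_pos (by omega)]
          ring
        · intro l _ hl
          rw [if_neg (by omega)]
          simp
        · intro h2
          exact absurd (Finset.mem_range.2 h1) h2
      · rw [hw _ (not_lt.1 h1), mul_zero, mul_zero]
        refine Finset.sum_eq_zero fun l hl => ?_
        rw [Finset.mem_range] at hl
        rw [if_neg (by omega)]
        simp
    · rw [if_neg h0, mul_zero, mul_zero]
      refine Finset.sum_eq_zero fun l hl => ?_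
      rw [if_neg (by omega)]
      simp
  have h0sum : ∀ i ∈ Finset.range R, ∑ l ∈ Finset.range R, (w i * w l) *
      (((if (l : ℤ) - i = 0 then 2 else 0 : ℤ)) : ℝ) = 2 * w i ^ 2 := by
    intro i hi
    rw [Finset.sum_eq_single i]
    · rw [if_pos (by omega)]
      push_cast
      ring
    · intro l _ hl
      rw [if_neg (by omega)]
      simp
    · intro h2
      exact absurd hi h2
  have e1 : ∀ i ∈ Finset.range R, ∑ l ∈ Finset.range R, (w i * w l) * (cf m ((l : ℤ) - i) : ℝ) =
      2 * w i ^ 2 + ε * (w i * w (i + N)) + ε * (w i * (if N ≤ i then w (i - N) else 0)) := by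
    intro i hi
    have e2 : ∀ l ∈ Finset.range R, (w i * w l) * (cf m ((l : ℤ) - i) : ℝ) =
        (w i * w l) * (((if (l : ℤ) - i = 0 then 2 else 0 : ℤ)) : ℝ) +
        (w i * w l) * (((if (l : ℤ) - i = N then ε else 0 : ℤ)) : ℝ) +
        (w i * w l) * (((if (l : ℤ) - i = -N then ε else 0 : ℤ)) : ℝ) := by
      intro l _
      rw [hcf]
      push_cast
      ring
    rw [Finset.sum_congr rfl e2, Finset.sum_add_distrib, Finset.sum_add_distrib, h0sum i hi,
      hsum (N : ℤ) i, hsum (-(N : ℤ)) i]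
    have e3 : (0 : ℤ) ≤ (i : ℤ) + N := by omega
    have e4 : ((i : ℤ) + N).toNat = i + N := by omega
    rw [if_pos e3, e4]
    by_cases h5 : N ≤ i
    · rw [if_pos (by omega), if_pos h5]
      have e5 : ((i : ℤ) + -(N : ℤ)).toNat = i - N := by omega
      rw [e5]
    · rw [if_neg (by omega), if_neg h5]
  rw [Finset.sum_congr rfl e1, Finset.sum_add_distrib, Finset.sum_add_distrib, ← Finset.mul_sum,
    ← Finset.mul_sum, ← Finset.mul_sum]
  have e6 : ∑ i ∈ Finset.range R, w i * (if N ≤ i then w (i - N) else 0) =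
      ∑ i ∈ Finset.range R, w i * w (i + N) := by
    by_cases hRN : N ≤ R
    · have e7 : ∑ i ∈ Finset.range R, w i * (if N ≤ i then w (i - N) else 0) =
          ∑ i ∈ Finset.range (R - N), w (i + N) * w i := by
        have e8 : R = N + (R - N) := by omega
        conv_lhs => rw [e8]
        rw [Finset.sum_range_add]
        rw [Finset.sum_eq_zero (fun i hi => by
          rw [Finset.mem_range] at hi
          rw [if_neg (by omega), mul_zero]), zero_add]
        refine Finset.sum_congr rfl fun i _ => ?_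
        rw [if_pos (by omega)]
        have e9 : N + i - N = i := by omega
        rw [e9, add_comm N i]
      have e10 : ∑ i ∈ Finset.range R, w i * w (i + N) =
          ∑ i ∈ Finset.range (R - N), w i * w (i + N) := by
        refine (Finset.sum_subset ?_ ?_).symm
        · intro i hi
          rw [Finset.mem_range] at hi ⊢
          omega
        · intro i _ hi
          rw [Finset.mem_range] at hi
          rw [hw (i + N) (by omega), mul_zero]
      rw [e7, e10]
      exact Finset.sum_congr rfl fun i _ => mul_comm _ _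
    · rw [Finset.sum_eq_zero, Finset.sum_eq_zero]
      · intro i hi
        rw [hw (i + N) (by omega), mul_zero]
      · intro i hi
        rw [Finset.mem_range] at hi
        rw [if_neg (by omega), mul_zero]
  rw [e6]
  ring

end Pool.Agent.T2H24.SU
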