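import Pool.Agent.T2H24.SU.BC2

set_option autoImplicit false
set_option linter.unusedSectionVars false
set_option linter.unusedVariables false

/-!
# The base change: the possible orders
-/

namespace Pool.Agent.T2H24.SU

open Filter Topology ComplexConjugate NumberField IsDedekindDomain
  Pool.Agent.TH553.RS Pool.Agent.TH553.ST Pool.Agent.W540.BE Pool.Agent.H341R2 Pool.Agent.W353.TP

theorem sq_id {w : ℕ → ℝ} {L N : ℕ} (hw : ∀ i, L ≤ i → w i = 0) :
    2 * (∑ i ∈ Finset.range L, w i ^ 2 - ∑ i ∈ Finset.range L, w i * w (i + N)) =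
      ∑ i ∈ Finset.range L, (w i - w (i + N)) ^ 2 + ∑ i ∈ Finset.range N, w i ^ 2 := by
  have h1 : ∑ i ∈ Finset.range (N + L), w i ^ 2 = ∑ i ∈ Finset.range L, w i ^ 2 := by
    rw [add_comm N L, Finset.sum_range_add]
    rw [Finset.sum_eq_zero (s := Finset.range N) fun i _ => by rw [hw (L + i) (by omega)]; ring,
      add_zero]
  have h2 : ∑ i ∈ Finset.range (N + L), w i ^ 2 = ∑ i ∈ Finset.range N, w i ^ 2 +
      ∑ i ∈ Finset.range L, w (i + N) ^ 2 := by
    rw [Finset.sum_range_add]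
    congr 1
    exact Finset.sum_congr rfl fun i _ => by rw [add_comm N i]
  have h3 : ∑ i ∈ Finset.range L, (w i - w (i + N)) ^ 2 = ∑ i ∈ Finset.range L, w i ^ 2 -
      2 * ∑ i ∈ Finset.range L, w i * w (i + N) + ∑ i ∈ Finset.range L, w (i + N) ^ 2 := by
    rw [Finset.mul_sum, ← Finset.sum_sub_distrib, ← Finset.sum_add_distrib]
    exact Finset.sum_congr rfl fun i _ => by ring
  rw [h3]
  linarith

/-- the triangle -/
noncomputable def tw (R : ℕ) (i : ℕ) : ℝ := ((min i (2 * R - i) : ℕ) : ℝ)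

theorem tw_zero {R i : ℕ} (h : 2 * R ≤ i) : tw R i = 0 := by
  unfold tw
  have : min i (2 * R - i) = 0 := by omega
  rw [this, Nat.cast_zero]

theorem tw_low (R N : ℕ) (hN : N ≤ R) : 2 * (N : ℝ) ^ 2 * (R - N) ≤
    ∑ i ∈ Finset.range (2 * R), (tw R i - tw R (i + N)) ^ 2 := by
  have h1 : ∀ i ∈ Finset.range (R - N), (tw R i - tw R (i + N)) ^ 2 = (N : ℝ) ^ 2 := by
    intro i hi
    rw [Finset.mem_range] at hi
    unfold tw
    have e1 : min i (2 * R - i) = i := by omega
    have e2 : min (i + N) (2 * R - (i + N)) = i + N := by omega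
    rw [e1, e2]
    push_cast
    ring
  have h2 : ∀ i ∈ Finset.range (R - N), (tw R (R + i) - tw R (R + i + N)) ^ 2 = (N : ℝ) ^ 2 := by
    intro i hi
    rw [Finset.mem_range] at hi
    unfold tw
    have e1 : min (R + i) (2 * R - (R + i)) = R - i := by omega
    have e2 : min (R + i + N) (2 * R - (R + i + N)) = R - i - N := by omega
    rw [e1, e2, Nat.cast_sub (by omega : N ≤ R - i), Nat.cast_sub (by omega : i ≤ R)]
    ring
  have h3 : ∑ i ∈ Finset.range (2 * R), (tw R i - tw R (i + N)) ^ 2 =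
      ∑ i ∈ Finset.range R, (tw R i - tw R (i + N)) ^ 2 +
      ∑ i ∈ Finset.range R, (tw R (R + i) - tw R (R + i + N)) ^ 2 := by
    rw [two_mul, Finset.sum_range_add]
  rw [h3]
  have h4 : ∀ g : ℕ → ℝ, (∀ i, 0 ≤ g i) → (∀ i ∈ Finset.range (R - N), g i = (N : ℝ) ^ 2) →
      (N : ℝ) ^ 2 * (R - N) ≤ ∑ i ∈ Finset.range R, g i := by
    intro g hg h
    have h5 : ∑ i ∈ Finset.range (R - N), g i ≤ ∑ i ∈ Finset.range R, g i :=
      Finset.sum_le_sum_of_subset_of_nonneg
        (Finset.range_subset_range.2 (Nat.sub_le R N)) fun i _ _ => hg i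
    rw [Finset.sum_congr rfl h, Finset.sum_const, Finset.card_range, nsmul_eq_mul,
      Nat.cast_sub hN] at h5
    linarith
  have h5 := h4 _ (fun i => sq_nonneg _) h1
  have h6 := h4 (fun i => (tw R (R + i) - tw R (R + i + N)) ^ 2) (fun i => sq_nonneg _) h2
  linarith

theorem tw_up (R : ℕ) :
    ∑ i ∈ Finset.range (2 * R), (tw R i - tw R (i + 2)) ^ 2 + ∑ i ∈ Finset.range 2, tw R i ^ 2 ≤
      8 * R + 1 := by
  have h1 : ∀ i ∈ Finset.range (2 * R), (tw R i - tw R (i + 2)) ^ 2 ≤ 4 := by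
    intro i hi
    rw [Finset.mem_range] at hi
    unfold tw
    have e1 : (min i (2 * R - i) : ℕ) ≤ min (i + 2) (2 * R - (i + 2)) + 2 := by omega
    have e2 : (min (i + 2) (2 * R - (i + 2)) : ℕ) ≤ min i (2 * R - i) + 2 := by omega
    have e1' : ((min i (2 * R - i) : ℕ) : ℝ) ≤ ((min (i + 2) (2 * R - (i + 2)) : ℕ) : ℝ) + 2 := by
      exact_mod_cast e1
    have e2' : ((min (i + 2) (2 * R - (i + 2)) : ℕ) : ℝ) ≤ ((min i (2 * R - i) : ℕ) : ℝ) + 2 := by
      exact_mod_cast e2
    nlinarith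
  have h2 := Finset.sum_le_sum h1
  rw [Finset.sum_const, Finset.card_range, nsmul_eq_mul] at h2
  push_cast at h2
  have h3 : ∑ i ∈ Finset.range 2, tw R i ^ 2 ≤ 1 := by
    rw [Finset.sum_range_succ, Finset.sum_range_one]
    unfold tw
    have e1 : min 0 (2 * R - 0) = 0 := by omega
    have e2 : min 1 (2 * R - 1) ≤ 1 := by omega
    have e2' : ((min 1 (2 * R - 1) : ℕ) : ℝ) ≤ 1 := by exact_mod_cast e2
    have e3 : (0 : ℝ) ≤ ((min 1 (2 * R - 1) : ℕ) : ℝ) := Nat.cast_nonneg _
    rw [e1]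
    push_cast
    push_cast at e2' e3
    nlinarith
  linarith

theorem jump_base {m₀ : ℕ → ℤ} (h00 : m₀ 0 = 1) (h : ∀ n : ℕ, 1 ≤ n → m₀ n = 0) :
    ∀ n : ℕ, 1 ≤ n → jump m₀ n = if n = 2 then -1 else 0 := by
  intro n hn
  unfold jump
  by_cases h1 : n = 1
  · subst h1
    rw [if_pos rfl, if_neg (by norm_num), h 1 le_rfl]
  · rw [if_neg h1]
    by_cases h2 : n = 2
    · subst h2
      rw [if_pos rfl, h 2 hn]
      norm_num
      exact h00
    · rw [if_neg h2, h n hn, h (n - 2) (by omega)]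
      norm_num

/-- the sequence `1` or `0` -/
def stp (k : ℕ) (n : ℕ) : ℤ := if Even n ∧ n ≤ 2 * k then 1 else 0

theorem orders_step {m : ℕ → ℤ} (h0 : m 0 = 1) {k : ℕ}
    (h : ∀ n : ℕ, 1 ≤ n → jump m n = if n = 2 * (k + 1) then -1 else 0) :
    ∀ n : ℕ, m n = stp k n := by
  have key : ∀ n : ℕ, m n = stp k n ∧ m (n + 1) = stp k (n + 1) := by
    intro n
    induction n with
    | zero =>
      refine ⟨by rw [h0]; unfold stp; rw [if_pos ⟨by norm_num, by omega⟩], ?_⟩
      have h1 := h 1 le_rfl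
      unfold jump at h1
      rw [if_pos rfl, if_neg (by omega)] at h1
      rw [zero_add, h1]
      unfold stp
      rw [if_neg]
      rintro ⟨h2, _⟩
      exact absurd h2 (by decide)
    | succ n ih =>
      refine ⟨ih.2, ?_⟩
      have h1 := h (n + 1 + 1) (by omega)
      unfold jump at h1
      rw [if_neg (by omega)] at h1
      have e : n + 1 + 1 - 2 = n := by omega
      rw [e, ih.1] at h1
      have h2 : m (n + 1 + 1) = stp k n + (if n + 1 + 1 = 2 * (k + 1) then -1 else 0) := by omega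
      rw [h2]
      unfold stp
      have e2 : Even (n + 1 + 1) ↔ Even n := by
        rw [Nat.even_add_one, Nat.even_add_one, not_not]
      simp only [e2]
      by_cases hev : Even n
      · obtain ⟨a, ha⟩ := hev
        have hev' : Even n := ⟨a, ha⟩
        simp only [hev', true_and]
        split_ifs <;> omega
      · simp only [hev, false_and, if_false]
        rw [if_neg]
        · norm_num
        · intro h3
          apply hev
          exact ⟨k, by omega⟩
  exact fun n => (key n).1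

section

variable {K : Type} [Field K] [NumberField K] {F : Type} [Field F] [NumberField F] [Algebra K F]

/-- **The base change: the possible orders.** -/
theorem bc_step {θ : HeightOneSpectrum (𝓞 K) → ℝ} {φ : HeightOneSpectrum (𝓞 F) → ℝ}
    (h : BCa θ φ) {U : Ultrafilter ℝ} (hU : (U : Filter ℝ) ≤ 𝓝[>] 0)
    (hθ : ∀ n : ℕ, 1 ≤ n → (M (nm K) U fun v => us n (θ v)) = 0)
    {m : ℕ → ℤ} (h0 : m 0 = 1)
    (hm : ∀ n : ℕ, 1 ≤ n → (M (nm F) U fun w => us n (φ w)) = m n) :
    ∃ k : ℕ, (k + 1) ^ 2 ≤ Module.finrank K F ∧ ∀ n : ℕ, m n = stp k n := by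
  set D := Module.finrank K F with hD
  -- the sequence over `K`
  obtain ⟨m₀, h00, hm0⟩ : ∃ m₀ : ℕ → ℤ, m₀ 0 = 1 ∧ ∀ n : ℕ, 1 ≤ n → m₀ n = 0 :=
    ⟨fun n => if n = 0 then 1 else 0, by simp, fun n hn => by
      have : n ≠ 0 := by omega
      simp [this]⟩
  have hθ' : ∀ n : ℕ, 1 ≤ n → (M (nm K) U fun v => us n (θ v)) = m₀ n := fun n hn => by
    rw [hθ n hn, hm0 n hn, Int.cast_zero]
  have test := bc_test h hU h00 h0 hθ' hm
  have hj0 := jump_base h00 hm0
  -- in the form of jumps
  have test' : ∀ (N : ℕ) (ε : ℤ), 0 < N →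
      (∀ n : ℕ, 1 ≤ n → jump m n = if n = N then ε else 0) → ∀ (L : ℕ) (w : ℕ → ℝ),
      (∀ i, L ≤ i → w i = 0) →
      ∑ i ∈ Finset.range L, w i ^ 2 + ε * ∑ i ∈ Finset.range L, w i * w (i + N) ≤
        D * (∑ i ∈ Finset.range L, w i ^ 2 - ∑ i ∈ Finset.range L, w i * w (i + 2)) := by
    intro N ε hN hj L w hw
    have h1 := test L w
    rw [form_jump hN hj hw, form_jump (by norm_num : 0 < 2) hj0 hw] at h1
    push_cast at h1
    rw [← hD] at h1
    nlinarith
  -- the test with the constant function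
  have hone : ∀ (N : ℕ) (ε : ℤ), 0 < N → 0 ≤ ε →
      (∀ n : ℕ, 1 ≤ n → jump m n = if n = N then ε else 0) → False := by
    intro N ε hN hε hj
    set L := 2 * D + 2 with hL
    set w : ℕ → ℝ := fun i => if i < L then 1 else 0 with hwd
    have hw : ∀ i, L ≤ i → w i = 0 := fun i hi => by
      rw [hwd]
      exact if_neg (by omega)
    have h1 := test' N ε hN hj L w hw
    have hnn : ∀ i, 0 ≤ w i := fun i => by
      rw [hwd]
      dsimp only
      split_ifs <;> norm_num
    have h2 : ∑ i ∈ Finset.range L, w i ^ 2 = L := by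
      have : ∀ i ∈ Finset.range L, w i ^ 2 = 1 := fun i hi => by
        rw [hwd]
        dsimp only
        rw [if_pos (Finset.mem_range.1 hi)]
        norm_num
      rw [Finset.sum_congr rfl this]
      simp
    have h3 : (0 : ℝ) ≤ ε * ∑ i ∈ Finset.range L, w i * w (i + N) :=
      mul_nonneg (by exact_mod_cast hε) (Finset.sum_nonneg fun i _ => mul_nonneg (hnn _) (hnn _))
    have h4 : ((L : ℝ) - 2) ≤ ∑ i ∈ Finset.range L, w i * w (i + 2) := by
      have h5 : ∑ i ∈ Finset.range (L - 2), w i * w (i + 2) ≤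
          ∑ i ∈ Finset.range L, w i * w (i + 2) :=
        Finset.sum_le_sum_of_subset_of_nonneg
          (Finset.range_subset_range.2 (Nat.sub_le _ _)) fun i _ _ => mul_nonneg (hnn _) (hnn _)
      refine le_trans ?_ h5
      have : ∀ i ∈ Finset.range (L - 2), w i * w (i + 2) = 1 := fun i hi => by
        rw [Finset.mem_range] at hi
        rw [hwd]
        dsimp only
        rw [if_pos (by omega), if_pos (by omega)]
        norm_num
      rw [Finset.sum_congr rfl this, Finset.sum_const, Finset.card_range, nsmul_eq_mul,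
        Nat.cast_sub (by omega)]
      norm_num
    have h5 : (0 : ℝ) ≤ D := Nat.cast_nonneg _
    have h6 : (D : ℝ) * (∑ i ∈ Finset.range L, w i ^ 2 - ∑ i ∈ Finset.range L, w i * w (i + 2)) ≤
        D * 2 := mul_le_mul_of_nonneg_left (by rw [h2]; linarith) h5
    rw [h2] at h1 h6
    have h7 : (L : ℝ) = 2 * D + 2 := by
      rw [hL]
      push_cast
      ring
    linarith
  rcases bc_orders h hU hθ h0 hm with hj | ⟨N, hN, ε, hε, hj⟩
  · exact (hone 1 0 one_pos le_rfl fun n hn => by rw [hj n hn]; simp).elim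
  rcases hε with rfl | rfl
  · exact (hone N 1 hN (by norm_num) hj).elim
  rcases Nat.even_or_odd N with hev | hodd
  swap
  · -- the test with alternating signs
    exfalso
    set L := 2 * D + 2 with hL
    set w : ℕ → ℝ := fun i => if i < L then (-1) ^ i else 0 with hwd
    have hw : ∀ i, L ≤ i → w i = 0 := fun i hi => by
      rw [hwd]
      exact if_neg (by omega)
    have h1 := test' N (-1) hN hj L w hw
    have h2 : ∑ i ∈ Finset.range L, w i ^ 2 = L := by
      have : ∀ i ∈ Finset.range L, w i ^ 2 = 1 := fun i hi => by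
        rw [hwd]
        dsimp only
        rw [if_pos (Finset.mem_range.1 hi), ← pow_mul, mul_comm, pow_mul]
        norm_num
      rw [Finset.sum_congr rfl this]
      simp
    have h3 : ∑ i ∈ Finset.range L, w i * w (i + N) ≤ 0 := by
      refine Finset.sum_nonpos fun i _ => ?_
      rw [hwd]
      dsimp only
      split_ifs
      · rw [pow_add, ← mul_assoc, ← pow_add, ← two_mul, pow_mul, hodd.neg_one_pow]
        norm_num
      · norm_num
      · norm_num
      · norm_num
    have h4 : ((L : ℝ) - 2) ≤ ∑ i ∈ Finset.range L, w i * w (i + 2) := by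
      have hnn : ∀ i, 0 ≤ w i * w (i + 2) := fun i => by
        rw [hwd]
        dsimp only
        split_ifs
        · rw [pow_add, ← mul_assoc, ← pow_add, ← two_mul, pow_mul]
          norm_num
        · norm_num
        · norm_num
        · norm_num
      have h5 : ∑ i ∈ Finset.range (L - 2), w i * w (i + 2) ≤
          ∑ i ∈ Finset.range L, w i * w (i + 2) :=
        Finset.sum_le_sum_of_subset_of_nonneg
          (Finset.range_subset_range.2 (Nat.sub_le _ _)) fun i _ _ => hnn i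
      refine le_trans ?_ h5
      have : ∀ i ∈ Finset.range (L - 2), w i * w (i + 2) = 1 := fun i hi => by
        rw [Finset.mem_range] at hi
        rw [hwd]
        dsimp only
        rw [if_pos (by omega), if_pos (by omega), pow_add, ← mul_assoc, ← pow_add, ← two_mul,
          pow_mul]
        norm_num
      rw [Finset.sum_congr rfl this, Finset.sum_const, Finset.card_range, nsmul_eq_mul,
        Nat.cast_sub (by omega)]
      norm_num
    have h5 : (0 : ℝ) ≤ D := Nat.cast_nonneg _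
    have h6 : (D : ℝ) * (∑ i ∈ Finset.range L, w i ^ 2 - ∑ i ∈ Finset.range L, w i * w (i + 2)) ≤
        D * 2 := mul_le_mul_of_nonneg_left (by rw [h2]; linarith) h5
    rw [h2] at h1 h6
    have h7 : (L : ℝ) = 2 * D + 2 := by
      rw [hL]
      push_cast
      ring
    push_cast at h1
    linarith
  -- the test with the triangle
  obtain ⟨a, ha⟩ := hev
  obtain ⟨k, rfl⟩ : ∃ k, a = k + 1 := ⟨a - 1, by omega⟩
  have hN2 : N = 2 * (k + 1) := by omega
  refine ⟨k, ?_, orders_step h0 (by rw [← hN2]; exact hj)⟩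
  by_contra hlt
  rw [not_le] at hlt
  have hlt' : 4 * D + 4 ≤ N ^ 2 := by
    rw [hN2]
    nlinarith
  set R := N ^ 3 + D + N with hR
  have hNR : N ≤ R := by omega
  have hw : ∀ i, 2 * R ≤ i → tw R i = 0 := fun i hi => tw_zero hi
  have h1 := test' N (-1) hN hj (2 * R) (tw R) hw
  have h2 := sq_id (N := N) hw
  have h3 := sq_id (N := 2) hw
  have h4 := tw_low R N hNR
  have h5 := tw_up R
  have h6 : (0 : ℝ) ≤ ∑ i ∈ Finset.range N, tw R i ^ 2 := Finset.sum_nonneg fun i _ => sq_nonneg _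
  have h7 : (0 : ℝ) ≤ D := Nat.cast_nonneg _
  have h8 : 2 * (∑ i ∈ Finset.range (2 * R), tw R i ^ 2 -
      ∑ i ∈ Finset.range (2 * R), tw R i * tw R (i + N)) ≤
      D * (2 * (∑ i ∈ Finset.range (2 * R), tw R i ^ 2 -
        ∑ i ∈ Finset.range (2 * R), tw R i * tw R (i + 2))) := by
    push_cast at h1
    linarith
  rw [h2, h3] at h8
  have h9 : (D : ℝ) * (∑ i ∈ Finset.range (2 * R), (tw R i - tw R (i + 2)) ^ 2 +
      ∑ i ∈ Finset.range 2, tw R i ^ 2) ≤ D * (8 * R + 1) := mul_le_mul_of_nonneg_left h5 h7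
  have h10 : 2 * (N : ℝ) ^ 2 * (R - N) ≤ D * (8 * R + 1) := by linarith
  have hlt'' : (4 * (D : ℝ) + 4) ≤ (N : ℝ) ^ 2 := by exact_mod_cast hlt'
  have hRr : (R : ℝ) = (N : ℝ) ^ 3 + D + N := by
    rw [hR]
    push_cast
    ring
  have hN0 : (0 : ℝ) ≤ N := Nat.cast_nonneg _
  have h11 : (4 * (D : ℝ) + 4) * R ≤ (N : ℝ) ^ 2 * R :=
    mul_le_mul_of_nonneg_right hlt'' (Nat.cast_nonneg _)
  have h12 : (0 : ℝ) ≤ (N : ℝ) ^ 3 := by positivity
  nlinarith

end

end Pool.Agent.T2H24.SU
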