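import Pool.Agent.T2H24.SU.Mass

set_option autoImplicit false
set_option linter.unusedSectionVars false
set_option linter.unusedVariables false

/-!
# Families of independent extensions
-/

namespace Pool.Agent.T2H24.SU

open Filter Topology ComplexConjugate NumberField IsDedekindDomain
  Pool.Agent.TH553.RS Pool.Agent.TH553.ST Pool.Agent.W540.BE Pool.Agent.H341R2 Pool.Agent.W353.TP

theorem us_two (t : ℝ) : us 2 t = 1 + 2 * Real.cos (2 * t) := by
  have h := us_diff 0 t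
  rw [us_zero] at h
  rw [h]
  push_cast
  ring_nf

section

variable {K : Type} [Field K] [NumberField K]

/-- the finite values are impossible -/
theorem no_fin {θ : HeightOneSpectrum (𝓞 K) → ℝ} (hθ : ∀ v, θ v ∈ Set.Icc 0 Real.pi)
    {U : Ultrafilter ℝ} (hU : (U : Filter ℝ) ≤ 𝓝[>] 0)
    (h : ∀ n : ℕ, n ≠ 0 → (M (nm K) U fun v => us n (θ v)) = 0) {S : ℝ} (hS : S ≠ 0)
    {Φ : HX K → ℝ} {V : Finset ℝ} (hV : ∀ u, Φ u ∈ V)
    (hz : (M (NH K) U fun u => (Φ u - S * us 2 (θ (kr u))) ^ 2) ≤ 0) : False := by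
  classical
  obtain ⟨u₀⟩ : Nonempty (HX K) := by
    by_contra hne
    rw [not_nonempty_iff] at hne
    have h1 := M_one (sysHS K) hU
    have h2 : (fun _ : HX K => (1 : ℝ)) = fun _ => 0 := by
      funext u
      exact (hne.false u).elim
    rw [h2] at h1
    have h3 := M_const (sysHS K) hU 0
    rw [h3] at h1
    norm_num at h1
  set f : ℝ → ℝ := fun t => Metric.infDist (S * us 2 t) (V : Set ℝ) ^ 2 with hf
  have hfc : Continuous f :=
    ((Metric.continuous_infDist_pt _).comp (continuous_const.mul (cont_us 2))).pow 2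
  have hlaw := law_U_real (sysF K) hU hθ h hfc
  have hbf : Bd fun v => f (θ v) := bd_comp hθ hfc
  have hΦ : Bd Φ := ⟨∑ d ∈ V, |d|, fun u =>
    Finset.single_le_sum (f := fun d => |d|) (fun d _ => abs_nonneg _) (hV u)⟩
  have hbu : Bd fun u : HX K => Φ u - S * us 2 (θ (kr u)) :=
    hΦ.sub ((bd_us (fun u : HX K => θ (kr u)) 2).const_mul S)
  have h1 : (M (nm K) U fun v => f (θ v)) ≤ 0 := by
    have e := M_kr (K := K) hU (g := fun v => f (θ v)) hbf
    rw [← e]
    refine le_trans (M_mono (sysHS K) hU (bd_comp (fun u : HX K => hθ (kr u)) hfc) hbu.sq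
      fun u => ?_) hz
    rw [hf]
    simp only
    have h2 : Metric.infDist (S * us 2 (θ (kr u))) (V : Set ℝ) ≤
        dist (S * us 2 (θ (kr u))) (Φ u) := Metric.infDist_le_dist_of_mem (hV u)
    rw [Real.dist_eq, abs_sub_comm] at h2
    rw [← sq_abs (Φ u - _)]
    exact pow_le_pow_left₀ Metric.infDist_nonneg h2 2
  rw [hlaw] at h1
  -- a point where the function does not vanish
  obtain ⟨t, ht, htf⟩ : ∃ t ∈ Set.Ioo 0 Real.pi, 0 < f t := by
    by_contra hcon
    push Not at hcon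
    have hsub : (fun t => S * us 2 t) '' Set.Ioo 0 (Real.pi / 2) ⊆ (V : Set ℝ) := by
      rintro _ ⟨t, ht, rfl⟩
      have h3 := hcon t ⟨ht.1, by linarith [ht.2, Real.pi_pos]⟩
      rw [hf] at h3
      simp only at h3
      have h4 : Metric.infDist (S * us 2 t) (V : Set ℝ) = 0 := by
        have := sq_nonneg (Metric.infDist (S * us 2 t) (V : Set ℝ))
        nlinarith
      exact (V.finite_toSet.isClosed.mem_iff_infDist_zero ⟨_, hV u₀⟩).2 h4
    have hinj : Set.InjOn (fun t => S * us 2 t) (Set.Ioo 0 (Real.pi / 2)) := by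
      intro a ha b hb hab
      simp only [us_two] at hab
      have h5 := mul_left_cancel₀ hS hab
      have h6 : Real.cos (2 * a) = Real.cos (2 * b) := by linarith
      have h7 := Real.injOn_cos (x₁ := 2 * a) (x₂ := 2 * b)
        ⟨by linarith [ha.1], by linarith [ha.2]⟩ ⟨by linarith [hb.1], by linarith [hb.2]⟩ h6
      linarith
    have h8 : (Set.Ioo 0 (Real.pi / 2)).Infinite :=
      Set.Ioo_infinite (by positivity)
    exact (h8.image hinj) (V.finite_toSet.subset hsub)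
  have h9 : 0 < ∫ t in (0 : ℝ)..Real.pi, f t * Real.sin t ^ 2 := by
    refine intervalIntegral.integral_pos Real.pi_pos ?_ ?_ ⟨t, ⟨ht.1.le, ht.2.le⟩, ?_⟩
    · exact (hfc.mul (Real.continuous_sin.pow 2)).continuousOn
    · intro s _
      have : 0 ≤ f s := sq_nonneg _
      positivity
    · have h10 := Real.sin_pos_of_pos_of_lt_pi ht.1 ht.2
      positivity
  have h11 : 0 < 2 / Real.pi * ∫ t in (0 : ℝ)..Real.pi, f t * Real.sin t ^ 2 :=
    mul_pos (by positivity) h9
  linarith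

variable {F : Type} [Field F] [NumberField F] [Algebra K F]

theorem M_cnt_one {U : Ultrafilter ℝ} (hU : (U : Filter ℝ) ≤ 𝓝[>] 0) :
    (M (NH K) U fun u => cnt K F u) = 1 := by
  have hb : BCa (K := K) (F := F) (fun _ => 0) (fun _ => 0) := ⟨∅, fun w _ v _ _ => rfl⟩
  have h := M_bca hb hU 0
  simp only [Int.cast_zero, zero_mul, Real.cos_zero, one_mul] at h
  rw [← h, M_one (sysF F) hU]

theorem M_us_cnt {θ : HeightOneSpectrum (𝓞 K) → ℝ} {φ : HeightOneSpectrum (𝓞 F) → ℝ}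
    (h : BCa θ φ) {U : Ultrafilter ℝ} (hU : (U : Filter ℝ) ≤ 𝓝[>] 0) :
    (M (NH K) U fun u => us 2 (θ (kr u)) * cnt K F u) = M (nm F) U fun w => us 2 (φ w) := by
  have h2 := M_bca h hU 2
  simp only [Int.cast_ofNat] at h2
  have e1 : (fun w => us 2 (φ w)) = fun w => 1 + 2 * Real.cos (2 * φ w) :=
    funext fun w => us_two _
  have e2 : (fun u : HX K => us 2 (θ (kr u)) * cnt K F u) = fun u =>
      cnt K F u + 2 * (Real.cos (2 * θ (kr u)) * cnt K F u) := by
    funext u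
    rw [us_two]
    ring
  have hb : Bd fun u : HX K => Real.cos (2 * θ (kr u)) * cnt K F u :=
    (bd_cos' (fun u : HX K => θ (kr u)) 2).mul bd_cnt
  rw [e1, e2, M_add (sysF F) hU (Bd.const 1) ((bd_cos' φ 2).const_mul 2), M_one (sysF F) hU,
    M_const_mul (sysF F) hU (bd_cos' φ 2), h2,
    M_add (sysHS K) hU bd_cnt (hb.const_mul 2), M_cnt_one hU, M_const_mul (sysHS K) hU hb]

end

section

variable {K : Type} [Field K] [NumberField K] {ι : Type} [Fintype ι] {F : ι → Type}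
  [∀ i, Field (F i)] [∀ i, NumberField (F i)] [∀ i, Algebra K (F i)]

/-- the combination -/
noncomputable def Ph (K : Type) [Field K] [NumberField K] {ι : Type} [Fintype ι] (F : ι → Type)
    [∀ i, Field (F i)] [∀ i, NumberField (F i)] [∀ i, Algebra K (F i)] (a : ι → ℝ) (u : HX K) : ℝ :=
  ∑ i, a i * (cnt K (F i) u - 1)

theorem Ph_fin (a : ι → ℝ) : ∃ V : Finset ℝ, ∀ u, Ph K F a u ∈ V := by
  classical
  refine ⟨(Fintype.piFinset fun i => Finset.range (Module.finrank ℚ (F i) + 1)).image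
    fun m => ∑ i, a i * ((m i : ℝ) - 1), fun u => ?_⟩
  choose m h1 h2 using fun i => cnt_nat (K := K) (F := F i) u
  refine Finset.mem_image.2 ⟨m, ?_, ?_⟩
  · rw [Fintype.mem_piFinset]
    intro i
    rw [Finset.mem_range]
    exact h1 i
  · unfold Ph
    exact Finset.sum_congr rfl fun i _ => by rw [h2]

theorem bd_cnt1 (i : ι) : Bd fun u : HX K => cnt K (F i) u - 1 := bd_cnt.sub (Bd.const 1)

theorem M_Ph_sq {U : Ultrafilter ℝ} (hU : (U : Filter ℝ) ≤ 𝓝[>] 0) (a : ι → ℝ) :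
    (M (NH K) U fun u => Ph K F a u ^ 2) =
      ∑ i, ∑ j, a i * a j * ((nof K (F i) (F j) : ℝ) - 1) := by
  have e : (fun u => Ph K F a u ^ 2) = fun u => ∑ i, ∑ j, (a i * a j) *
      ((cnt K (F i) u - 1) * (cnt K (F j) u - 1)) := by
    funext u
    unfold Ph
    rw [sq, Finset.sum_mul_sum]
    exact Finset.sum_congr rfl fun i _ => Finset.sum_congr rfl fun j _ => by ring
  rw [e, M_sum (sysHS K) hU _ fun i _ => Bd.sum _ fun j _ =>
    ((bd_cnt1 (K := K) (F := F) i).mul (bd_cnt1 j)).const_mul _]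
  refine Finset.sum_congr rfl fun i _ => ?_
  rw [M_sum (sysHS K) hU _ fun j _ => ((bd_cnt1 (K := K) (F := F) i).mul (bd_cnt1 j)).const_mul _]
  refine Finset.sum_congr rfl fun j _ => ?_
  rw [M_const_mul (sysHS K) hU ((bd_cnt1 (K := K) (F := F) i).mul (bd_cnt1 j))]
  have e2 : (fun u : HX K => (cnt K (F i) u - 1) * (cnt K (F j) u - 1)) = fun u =>
      ((cnt K (F i) u * cnt K (F j) u - cnt K (F i) u) - cnt K (F j) u) + 1 := by
    funext u
    ring
  rw [e2, M_add (sysHS K) hU (((bd_cnt.mul bd_cnt).sub bd_cnt).sub bd_cnt) (Bd.const 1),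
    M_sub (sysHS K) hU ((bd_cnt.mul bd_cnt).sub bd_cnt) bd_cnt,
    M_sub (sysHS K) hU (bd_cnt.mul bd_cnt) bd_cnt, M_cnt hU, M_cnt_one hU, M_cnt_one hU,
    M_one (sysHS K) hU]
  ring

/-- **The exceptional fields of an independent family.** -/
theorem few_exceptional {θ : HeightOneSpectrum (𝓞 K) → ℝ} (hθ : ∀ v, θ v ∈ Set.Icc 0 Real.pi)
    (hl : ∀ n : ℕ, 1 ≤ n → Tendsto (qt (nm K) fun v => us n (θ v)) (𝓝[>] 0) (𝓝 0))
    {φ : ∀ i, HeightOneSpectrum (𝓞 (F i)) → ℝ} (hb : ∀ i, BCa θ (φ i))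
    (hind : ∀ i j, i ≠ j → nof K (F i) (F j) = 1)
    (h1 : ∀ i, Tendsto (qt (nm (F i)) fun w => us 2 (φ i w)) (𝓝[>] 0) (𝓝 1)) :
    ∑ i, 1 / ((nof K (F i) (F i) : ℝ) - 1) < 1 := by
  classical
  have hne : (𝓝[>] (0 : ℝ)).NeBot := inferInstance
  set U : Ultrafilter ℝ := Ultrafilter.of (𝓝[>] (0 : ℝ)) with hUd
  have hU : (U : Filter ℝ) ≤ 𝓝[>] 0 := Ultrafilter.of_le _
  have hz : ∀ n : ℕ, n ≠ 0 → (M (nm K) U fun v => us n (θ v)) = 0 := fun n hn =>
    M_of_tendsto hU (hl n (Nat.one_le_iff_ne_zero.2 hn))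
  set r : ι → ℝ := fun i => (nof K (F i) (F i) : ℝ) - 1 with hr
  set a : ι → ℝ := fun i => 1 / r i with ha
  set S : ℝ := ∑ i, a i with hS
  have hbus : Bd fun u : HX K => us 2 (θ (kr u)) := bd_us (fun u : HX K => θ (kr u)) 2
  have hbP : Bd (Ph K F a) := Bd.sum _ fun i _ => (bd_cnt1 (K := K) (F := F) i).const_mul _
  -- the mean of the product
  have hmix : (M (NH K) U fun u => us 2 (θ (kr u)) * Ph K F a u) = S := by
    have e : (fun u => us 2 (θ (kr u)) * Ph K F a u) = fun u =>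
        ∑ i, a i * (us 2 (θ (kr u)) * cnt K (F i) u - us 2 (θ (kr u))) := by
      funext u
      unfold Ph
      rw [Finset.mul_sum]
      exact Finset.sum_congr rfl fun i _ => by ring
    rw [e, M_sum (sysHS K) hU _ fun i _ => ((hbus.mul bd_cnt).sub hbus).const_mul _, hS]
    refine Finset.sum_congr rfl fun i _ => ?_
    rw [M_const_mul (sysHS K) hU ((hbus.mul bd_cnt).sub hbus),
      M_sub (sysHS K) hU (hbus.mul bd_cnt) hbus, M_us_cnt (hb i) hU, M_of_tendsto hU (h1 i),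
      M_kr hU (g := fun v => us 2 (θ v)) (bd_us θ 2), hz 2 (by norm_num)]
    ring
  have hsq : (M (NH K) U fun u => Ph K F a u ^ 2) ≤ S := by
    rw [M_Ph_sq hU, hS]
    refine Finset.sum_le_sum fun i _ => ?_
    rw [Finset.sum_eq_single i]
    · change a i * a i * r i ≤ a i
      rw [ha]
      simp only
      by_cases hri : r i = 0
      · rw [hri]
        simp
      · apply le_of_eq
        field_simp
    · intro j _ hj
      rw [hind i j (Ne.symm hj)]
      simp
    · intro h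
      exact absurd (Finset.mem_univ _) h
  have hus : (M (NH K) U fun u => us 2 (θ (kr u)) ^ 2) = 1 := by
    rw [M_kr hU (g := fun v => us 2 (θ v) ^ 2) (bd_us θ 2).sq,
      law_U_real (sysF K) hU hθ hz (f := fun t => us 2 t ^ 2) ((cont_us 2).pow 2)]
    exact int_us_sq 2
  have hcs := M_cs (sysHS K) hU hbus hbP
  rw [hmix, hus, one_mul] at hcs
  have hS0 : 0 ≤ S := by
    have h2 := M_nonneg (sysHS K) hU hbP.sq fun u => sq_nonneg _
    linarith
  by_contra hcon
  rw [not_lt] at hcon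
  have hS1 : 1 ≤ S := hcon
  have hS2 : S = 1 := by nlinarith
  obtain ⟨V, hV⟩ := Ph_fin (K := K) (F := F) a
  refine no_fin hθ hU hz (S := 1) one_ne_zero hV ?_
  have e3 : (fun u => (Ph K F a u - 1 * us 2 (θ (kr u))) ^ 2) = fun u =>
      (Ph K F a u ^ 2 - 2 * (us 2 (θ (kr u)) * Ph K F a u)) + us 2 (θ (kr u)) ^ 2 := by
    funext u
    ring
  rw [e3, M_add (sysHS K) hU (hbP.sq.sub ((hbus.mul hbP).const_mul 2)) hbus.sq,
    M_sub (sysHS K) hU hbP.sq ((hbus.mul hbP).const_mul 2),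
    M_const_mul (sysHS K) hU (hbus.mul hbP), hmix, hus]
  linarith

end

end Pool.Agent.T2H24.SU
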