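import Pool.Agent.T2H24.SU.Split

set_option autoImplicit false
set_option linter.unusedSectionVars false
set_option linter.unusedVariables false

/-!
# Positive definite integer valued functions with finite support and the value `2` at `0`
-/

namespace Pool.Agent.T2H24.SU

open Filter Topology ComplexConjugate
open scoped InnerProductSpace

/-- shifting a sum -/
theorem sum_shift (g : ℤ → ℂ) (K i : ℕ) : ∑ l ∈ Finset.range K, g ((l : ℤ) - i) =
    ∑ j ∈ Finset.Ico (-(i : ℤ)) ((K : ℤ) - i), g j := by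
  refine Finset.sum_bij (fun (l : ℕ) _ => (l : ℤ) - i) ?_ ?_ ?_ ?_
  · intro l hl
    rw [Finset.mem_range] at hl
    rw [Finset.mem_Ico]
    constructor <;> omega
  · intro l _ l' _ h
    have : (l : ℤ) = l' := by linarith
    exact_mod_cast this
  · intro j hj
    rw [Finset.mem_Ico] at hj
    refine ⟨(j + i).toNat, ?_, ?_⟩
    · rw [Finset.mem_range]
      omega
    · omega
  · intro l _
    rfl

/-- the mean of a Toeplitz sum -/
theorem toeplitz {g : ℤ → ℂ} {N : ℕ} (hg : ∀ j : ℤ, j ∉ Finset.Icc (-(N : ℤ)) N → g j = 0) :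
    Tendsto (fun K : ℕ => (∑ i ∈ Finset.range K, ∑ l ∈ Finset.range K, g ((l : ℤ) - i)) / (K : ℂ))
      atTop (𝓝 (∑ j ∈ Finset.Icc (-(N : ℤ)) N, g j)) := by
  classical
  set S := ∑ j ∈ Finset.Icc (-(N : ℤ)) N, g j with hS
  set B := ∑ j ∈ Finset.Icc (-(N : ℤ)) N, ‖g j‖ with hB
  have hB0 : 0 ≤ B := Finset.sum_nonneg fun _ _ => norm_nonneg _
  have hSB : ‖S‖ ≤ B := norm_sum_le _ _
  have hT : ∀ K i : ℕ, ‖∑ l ∈ Finset.range K, g ((l : ℤ) - i)‖ ≤ B := by
    intro K i
    rw [sum_shift]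
    refine (norm_sum_le _ _).trans ?_
    have h1 : ∑ j ∈ Finset.Ico (-(i : ℤ)) ((K : ℤ) - i), ‖g j‖ =
        ∑ j ∈ (Finset.Ico (-(i : ℤ)) ((K : ℤ) - i)).filter (· ∈ Finset.Icc (-(N : ℤ)) N), ‖g j‖ := by
      rw [Finset.sum_filter]
      refine Finset.sum_congr rfl fun j _ => ?_
      split_ifs with h
      · rfl
      · rw [hg j h, norm_zero]
    rw [h1]
    refine Finset.sum_le_sum_of_subset_of_nonneg ?_ fun _ _ _ => norm_nonneg _
    intro j hj
    exact (Finset.mem_filter.1 hj).2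
  have hE : ∀ K i : ℕ, N ≤ i → i + N < K → ∑ l ∈ Finset.range K, g ((l : ℤ) - i) = S := by
    intro K i h1 h2
    rw [sum_shift, hS]
    refine (Finset.sum_subset ?_ ?_).symm
    · intro j hj
      rw [Finset.mem_Icc] at hj
      rw [Finset.mem_Ico]
      constructor <;> omega
    · intro j _ hj
      exact hg j hj
  have hmain : ∀ K : ℕ, ‖∑ i ∈ Finset.range K, ∑ l ∈ Finset.range K, g ((l : ℤ) - i) - K * S‖ ≤
      (2 * N) * (2 * B) := by
    intro K
    have h1 : ∑ i ∈ Finset.range K, ∑ l ∈ Finset.range K, g ((l : ℤ) - i) - K * S =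
        ∑ i ∈ Finset.range K, (∑ l ∈ Finset.range K, g ((l : ℤ) - i) - S) := by
      rw [Finset.sum_sub_distrib, Finset.sum_const, Finset.card_range, nsmul_eq_mul]
    rw [h1]
    refine (norm_sum_le _ _).trans ?_
    have h2 : ∑ i ∈ Finset.range K, ‖∑ l ∈ Finset.range K, g ((l : ℤ) - i) - S‖ ≤
        ∑ i ∈ (Finset.range K).filter (fun i => ¬ (N ≤ i ∧ i + N < K)), 2 * B := by
      rw [Finset.sum_filter]
      refine Finset.sum_le_sum fun i _ => ?_
      by_cases h : N ≤ i ∧ i + N < K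
      · rw [if_neg (not_not.2 h), hE K i h.1 h.2, sub_self, norm_zero]
      · rw [if_pos h]
        have := hT K i
        exact (norm_sub_le _ _).trans (by linarith)
    refine h2.trans ?_
    rw [Finset.sum_const, nsmul_eq_mul]
    refine mul_le_mul_of_nonneg_right ?_ (by positivity)
    have h3 : (Finset.range K).filter (fun i => ¬ (N ≤ i ∧ i + N < K)) ⊆
        Finset.range N ∪ Finset.Ico (K - N) K := by
      intro i hi
      rw [Finset.mem_filter, Finset.mem_range] at hi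
      rw [Finset.mem_union, Finset.mem_range, Finset.mem_Ico]
      omega
    have h4 := (Finset.card_le_card h3).trans (Finset.card_union_le _ _)
    rw [Finset.card_range, Nat.card_Ico] at h4
    have h5 : ((Finset.range K).filter (fun i => ¬ (N ≤ i ∧ i + N < K))).card ≤ 2 * N := by omega
    exact_mod_cast h5
  have h1 : Tendsto (fun K : ℕ => (2 * N) * (2 * B) / (K : ℝ)) atTop (𝓝 0) :=
    tendsto_const_div_atTop_nhds_zero_nat _
  rw [tendsto_iff_norm_sub_tendsto_zero]
  refine squeeze_zero' (Eventually.of_forall fun _ => norm_nonneg _) ?_ h1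
  filter_upwards [eventually_gt_atTop 0] with K hK
  have hK' : (K : ℂ) ≠ 0 := by exact_mod_cast hK.ne'
  have h2 : (∑ i ∈ Finset.range K, ∑ l ∈ Finset.range K, g ((l : ℤ) - i)) / (K : ℂ) - S =
      (∑ i ∈ Finset.range K, ∑ l ∈ Finset.range K, g ((l : ℤ) - i) - K * S) / K := by
    field_simp
  rw [h2, norm_div, Complex.norm_natCast]
  exact div_le_div_of_nonneg_right (hmain K) (Nat.cast_nonneg _)

variable {H : Type*} [NormedAddCommGroup H] [InnerProductSpace ℂ H] [CompleteSpace H]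
variable {U : H ≃ₗᵢ[ℂ] H}

theorem conj_zpow' {z : ℂ} (hz : ‖z‖ = 1) (n : ℤ) : conj (z ^ n) = z ^ (-n) := by
  have h1 : conj z = z⁻¹ := (Complex.inv_eq_conj hz).symm
  rw [map_zpow₀, h1, inv_zpow']

/-- the density is nonnegative -/
theorem density_nonneg {b : H} {N : ℕ}
    (hs : ∀ j : ℤ, j ∉ Finset.Icc (-(N : ℤ)) N → ⟪b, (U ^ j) b⟫_ℂ = 0) {z : ℂ} (hz : ‖z‖ = 1) :
    ∃ r : ℝ, 0 ≤ r ∧ ∑ j ∈ Finset.Icc (-(N : ℤ)) N, z ^ j * ⟪b, (U ^ j) b⟫_ℂ = r := by
  have hz0 : z ≠ 0 := by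
    rintro rfl
    simp at hz
  set g : ℤ → ℂ := fun j => z ^ j * ⟪b, (U ^ j) b⟫_ℂ with hg
  have h1 := toeplitz (g := g) (N := N) fun j hj => by
    rw [hg]
    simp only
    rw [hs j hj, mul_zero]
  have h2 : ∀ K : ℕ, (∑ i ∈ Finset.range K, ∑ l ∈ Finset.range K, g ((l : ℤ) - i)) / (K : ℂ) =
      (((‖∑ i ∈ Finset.range K, (z ^ (i : ℤ)) • (U ^ (i : ℤ)) b‖ ^ 2 / K : ℝ)) : ℂ) := by
    intro K
    rw [Complex.ofReal_div, ← inner_self_real, sum_inner]
    congr 1
    refine Finset.sum_congr rfl fun i _ => ?_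
    rw [inner_sum]
    refine Finset.sum_congr rfl fun l _ => ?_
    rw [inner_smul_left, inner_smul_right, inner_pow_pow, conj_zpow' hz, hg]
    simp only
    rw [← mul_assoc, ← zpow_add₀ hz0]
    congr 2
    ring
  simp only [h2] at h1
  set L := ∑ j ∈ Finset.Icc (-(N : ℤ)) N, g j with hL
  have h3 := (Complex.continuous_re.tendsto L).comp h1
  have h4 := (Complex.continuous_im.tendsto L).comp h1
  have h5 : 0 ≤ L.re := ge_of_tendsto' h3 fun K => by
    simp only [Function.comp, Complex.ofReal_re]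
    positivity
  have h6 : L.im = 0 := by
    refine tendsto_nhds_unique h4 ?_
    simp only [Function.comp_def, Complex.ofReal_im]
    exact tendsto_const_nhds
  refine ⟨L.re, h5, ?_⟩
  exact Complex.ext (by simp) (by simp [h6])

/-- sums of the powers over a coset of the roots of unity -/
theorem coset_sum {N : ℕ} (hN : 0 < N) {u : ℂ} (hu : u ≠ 0) (n : ℤ) :
    ∑ s ∈ Finset.range N, (u * Complex.exp (2 * Real.pi * Complex.I / N) ^ s) ^ n =
      if (N : ℤ) ∣ n then N * u ^ n else 0 := by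
  set w := Complex.exp (2 * Real.pi * Complex.I / N) with hw
  have hprim : IsPrimitiveRoot w N := Complex.isPrimitiveRoot_exp N hN.ne'
  have h1 : ∀ s : ℕ, (u * w ^ s) ^ n = u ^ n * (w ^ n) ^ s := by
    intro s
    rw [mul_zpow, ← zpow_natCast, ← zpow_natCast, ← zpow_mul, ← zpow_mul, mul_comm (s : ℤ)]
  simp only [h1]
  rw [← Finset.mul_sum]
  split_ifs with h
  · have h2 : w ^ n = 1 := (hprim.zpow_eq_one_iff_dvd n).2 h
    rw [h2]
    simp
    ring
  · have h2 : w ^ n ≠ 1 := fun h3 => h ((hprim.zpow_eq_one_iff_dvd n).1 h3)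
    have h3 : (w ^ n) ^ N = 1 := by
      rw [← zpow_natCast, ← zpow_mul, mul_comm, zpow_mul, zpow_natCast, hprim.pow_eq_one, one_zpow]
    have h4 := geom_sum_mul (w ^ n) N
    rw [h3, sub_self] at h4
    have h5 : ∑ s ∈ Finset.range N, (w ^ n) ^ s = 0 := by
      rcases mul_eq_zero.1 h4 with h | h
      · exact h
      · exact absurd (sub_eq_zero.1 h) h2
    rw [h5, mul_zero]

end Pool.Agent.T2H24.SU
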