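import Pool.Agent.T2H24.SU.Fejer

set_option autoImplicit false
set_option linter.unusedSectionVars false
set_option linter.unusedVariables false

/-!
# Positive definite integer valued functions with finite support and the value `2` at `0`
-/

namespace Pool.Agent.T2H24.SU

open Filter Topology ComplexConjugate
open scoped InnerProductSpace

theorem filter_zero {N : ℕ} (hN : 0 < N) (f : ℤ → ℂ) :
    ∑ j ∈ Finset.Icc (-(N : ℤ)) N, (if (N : ℤ) ∣ j then f j else 0) = f (-(N : ℤ)) + f 0 + f N := by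
  classical
  have h1 : (Finset.Icc (-(N : ℤ)) N).filter (fun j => (N : ℤ) ∣ j) = {-(N : ℤ), 0, (N : ℤ)} := by
    ext j
    rw [Finset.mem_filter, Finset.mem_Icc]
    simp only [Finset.mem_insert, Finset.mem_singleton]
    constructor
    · rintro ⟨⟨h1, h2⟩, c, rfl⟩
      have h3 : (N : ℤ) > 0 := by exact_mod_cast hN
      have h4 : -1 ≤ c := by nlinarith
      have h5 : c ≤ 1 := by nlinarith
      have h6 : c = -1 ∨ c = 0 ∨ c = 1 := by omega
      rcases h6 with rfl | rfl | rfl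
      · left; ring
      · right; left; ring
      · right; right; ring
    · rintro (rfl | rfl | rfl)
      · exact ⟨⟨by omega, by omega⟩, ⟨-1, by ring⟩⟩
      · exact ⟨⟨by omega, by omega⟩, ⟨0, by ring⟩⟩
      · exact ⟨⟨by omega, by omega⟩, ⟨1, by ring⟩⟩
  rw [← Finset.sum_filter, h1, Finset.sum_insert, Finset.sum_insert, Finset.sum_singleton]
  · ring
  · rw [Finset.mem_singleton]
    omega
  · rw [Finset.mem_insert, Finset.mem_singleton]
    omega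

theorem filter_m {N m : ℕ} (hm : 0 < m) (hmN : m < N) (f : ℤ → ℂ) :
    ∑ j ∈ Finset.Icc (-(N : ℤ)) N, (if (N : ℤ) ∣ j - m then f j else 0) =
      f m + f ((m : ℤ) - N) := by
  classical
  have h1 : (Finset.Icc (-(N : ℤ)) N).filter (fun j => (N : ℤ) ∣ j - m) =
      {(m : ℤ), (m : ℤ) - N} := by
    ext j
    rw [Finset.mem_filter, Finset.mem_Icc]
    simp only [Finset.mem_insert, Finset.mem_singleton]
    constructor
    · rintro ⟨⟨h1, h2⟩, c, hc⟩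
      have h3 : (N : ℤ) > 0 := by omega
      have h0 : j = N * c + m := by linarith
      have hm' : (0 : ℤ) < m := by exact_mod_cast hm
      have hmN' : (m : ℤ) < N := by exact_mod_cast hmN
      have h4 : -2 < c := by nlinarith
      have h5 : c < 1 := by nlinarith
      have h6 : c = -1 ∨ c = 0 := by omega
      rcases h6 with rfl | rfl
      · right; linarith
      · left; linarith
    · rintro (rfl | rfl)
      · exact ⟨⟨by omega, by omega⟩, ⟨0, by ring⟩⟩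
      · exact ⟨⟨by omega, by omega⟩, ⟨-1, by ring⟩⟩
  rw [← Finset.sum_filter, h1, Finset.sum_insert, Finset.sum_singleton]
  rw [Finset.mem_singleton]
  omega

variable {H : Type*} [NormedAddCommGroup H] [InnerProductSpace ℂ H] [CompleteSpace H]
variable {U : H ≃ₗᵢ[ℂ] H}

theorem IntU.symm {b : H} (hi : IntU U b) (j : ℤ) : ⟪b, (U ^ (-j)) b⟫_ℂ = ⟪b, (U ^ j) b⟫_ℂ := by
  rw [← inner_pow, ← inner_conj_symm, (hi j).conj_eq]

theorem norm_expw (N s : ℕ) : ‖Complex.exp (2 * Real.pi * Complex.I / N) ^ s‖ = 1 := by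
  have h : (2 * Real.pi * Complex.I / N : ℂ) = ((2 * Real.pi / N : ℝ) : ℂ) * Complex.I := by
    push_cast
    ring
  rw [_root_.norm_pow, h, Complex.norm_exp_ofReal_mul_I, one_pow]

/-- the basic inequalities -/
theorem fejer_ineq {b : H} {N : ℕ} (hN : 0 < N) (hi : IntU U b) {κ : ℤ}
    (hκ : ⟪b, (U ^ (N : ℤ)) b⟫_ℂ = κ) (h2 : ⟪b, (U ^ (0 : ℤ)) b⟫_ℂ = 2)
    (hs : ∀ j : ℤ, j ∉ Finset.Icc (-(N : ℤ)) N → ⟪b, (U ^ j) b⟫_ℂ = 0) {t : ℂ} (ht : ‖t‖ = 1) :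
    0 ≤ 2 + 2 * (κ : ℝ) * t.re ∧ ∀ m : ℕ, 0 < m → m < N →
      ‖⟪b, (U ^ (m : ℤ)) b⟫_ℂ + ⟪b, (U ^ ((m : ℤ) - N)) b⟫_ℂ * t⁻¹‖ ≤ 2 + 2 * (κ : ℝ) * t.re := by
  classical
  obtain ⟨u, hu⟩ := IsAlgClosed.exists_pow_nat_eq t hN
  have hu1 : ‖u‖ = 1 := by
    have h1 : ‖u‖ ^ N = 1 := by rw [← _root_.norm_pow, hu, ht]
    exact (pow_eq_one_iff_of_nonneg (norm_nonneg _) hN.ne').1 h1
  have hu0 : u ≠ 0 := by
    rintro rfl
    simp at hu1
  set w := Complex.exp (2 * Real.pi * Complex.I / N) with hw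
  have hz1 : ∀ s : ℕ, ‖u * w ^ s‖ = 1 := fun s => by
    rw [norm_mul, hu1, hw, norm_expw, mul_one]
  choose r hr0 hr using fun s : ℕ => density_nonneg (N := N) hs (hz1 s)
  -- the sums
  have hA : ∀ m : ℤ, ∑ s ∈ Finset.range N, (r s : ℂ) * (u * w ^ s) ^ (-m) =
      ∑ j ∈ Finset.Icc (-(N : ℤ)) N, (if (N : ℤ) ∣ j - m then
        (fun j : ℤ => (N : ℂ) * u ^ (j - m) * ⟪b, (U ^ j) b⟫_ℂ) j else 0) := by
    intro m
    have e1 : ∀ s ∈ Finset.range N, (r s : ℂ) * (u * w ^ s) ^ (-m) =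
        ∑ j ∈ Finset.Icc (-(N : ℤ)) N, (u * w ^ s) ^ (j - m) * ⟪b, (U ^ j) b⟫_ℂ := by
      intro s _
      have hz0 : u * w ^ s ≠ 0 := by
        intro h
        have := hz1 s
        rw [h] at this
        simp at this
      rw [← hr, Finset.sum_mul]
      refine Finset.sum_congr rfl fun j _ => ?_
      rw [sub_eq_add_neg, zpow_add₀ hz0]
      ring
    rw [Finset.sum_congr rfl e1, Finset.sum_comm]
    refine Finset.sum_congr rfl fun j _ => ?_
    rw [← Finset.sum_mul, coset_sum hN hu0]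
    split_ifs with h
    · rfl
    · rw [zero_mul]
  have hNu : u ^ (N : ℤ) = t := by rw [zpow_natCast, hu]
  have hNu' : u ^ (-(N : ℤ)) = t⁻¹ := by rw [zpow_neg, hNu]
  have htt : t + t⁻¹ = ((2 * t.re : ℝ) : ℂ) := by
    rw [Complex.inv_eq_conj ht, Complex.add_conj]
  have hN0 : (0 : ℝ) < N := by exact_mod_cast hN
  -- the total
  have h0 : ∑ s ∈ Finset.range N, r s = N * (2 + 2 * (κ : ℝ) * t.re) := by
    have h3 := hA 0
    have e2 : ∀ j : ℤ, j - (0 : ℤ) = j := fun j => sub_zero j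
    simp only [neg_zero, zpow_zero, mul_one, e2] at h3
    rw [filter_zero hN (fun j : ℤ => (N : ℂ) * u ^ j * ⟪b, (U ^ j) b⟫_ℂ)] at h3
    rw [hi.symm, hκ, h2, hNu, hNu', zpow_zero] at h3
    have h4 : ((∑ s ∈ Finset.range N, r s : ℝ) : ℂ) =
        ((N * (2 + 2 * (κ : ℝ) * t.re) : ℝ) : ℂ) := by
      rw [Complex.ofReal_sum, h3]
      have h5 : (N : ℂ) * t⁻¹ * κ + N * 1 * 2 + N * t * κ = N * (2 + κ * (t + t⁻¹)) := by ring
      rw [h5, htt]
      push_cast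
      ring
    exact_mod_cast h4
  have hpos : 0 ≤ 2 + 2 * (κ : ℝ) * t.re := by
    have h3 : 0 ≤ ∑ s ∈ Finset.range N, r s := Finset.sum_nonneg fun s _ => hr0 s
    rw [h0] at h3
    exact nonneg_of_mul_nonneg_right h3 hN0
  refine ⟨hpos, fun m hm hmN => ?_⟩
  have h3 := hA m
  rw [filter_m hm hmN (fun j : ℤ => (N : ℂ) * u ^ (j - m) * ⟪b, (U ^ j) b⟫_ℂ)] at h3
  have e3 : (m : ℤ) - m = 0 := sub_self _
  have e4 : (m : ℤ) - N - m = -(N : ℤ) := by ring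
  rw [e3, e4, zpow_zero, hNu'] at h3
  have h4 : (N : ℂ) * (⟪b, (U ^ (m : ℤ)) b⟫_ℂ + ⟪b, (U ^ ((m : ℤ) - N)) b⟫_ℂ * t⁻¹) =
      ∑ s ∈ Finset.range N, (r s : ℂ) * (u * w ^ s) ^ (-(m : ℤ)) := by
    rw [h3]
    ring
  have h5 : ‖∑ s ∈ Finset.range N, (r s : ℂ) * (u * w ^ s) ^ (-(m : ℤ))‖ ≤
      ∑ s ∈ Finset.range N, r s := by
    refine (norm_sum_le _ _).trans (Finset.sum_le_sum fun s _ => ?_)
    rw [norm_mul, norm_zpow, hz1, one_zpow, mul_one, Complex.norm_real,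
      Real.norm_of_nonneg (hr0 s)]
  rw [← h4, norm_mul, Complex.norm_natCast, h0] at h5
  exact le_of_mul_le_mul_left h5 hN0

/-- **The classification.** -/
theorem fejer {b : H} (h2 : ‖b‖ ^ 2 = 2) (hi : IntU U b)
    (hfin : {j : ℤ | ⟪b, (U ^ j) b⟫_ℂ ≠ 0}.Finite) :
    (∀ j : ℤ, j ≠ 0 → ⟪b, (U ^ j) b⟫_ℂ = 0) ∨ ∃ N : ℕ, 0 < N ∧ ∃ ε : ℤ, (ε = 1 ∨ ε = -1) ∧
      ∀ j : ℤ, j ≠ 0 → ⟪b, (U ^ j) b⟫_ℂ = if j.natAbs = N then (ε : ℂ) else 0 := by
  classical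
  by_cases hall : ∀ j : ℤ, j ≠ 0 → ⟪b, (U ^ j) b⟫_ℂ = 0
  · exact Or.inl hall
  right
  push Not at hall
  obtain ⟨j₁, hj₁, hj₁'⟩ := hall
  have h20 : ⟪b, (U ^ (0 : ℤ)) b⟫_ℂ = 2 := by
    rw [zpow_zero]
    change ⟪b, b⟫_ℂ = 2
    rw [inner_self_real, h2]
    norm_num
  set T := hfin.toFinset with hT
  have hmemT : ∀ j : ℤ, j ∈ T ↔ ⟪b, (U ^ j) b⟫_ℂ ≠ 0 := fun j => by
    rw [hT, Set.Finite.mem_toFinset]
    rfl
  have hne : T.Nonempty := ⟨j₁, (hmemT _).2 hj₁'⟩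
  obtain ⟨j₀, hj₀, hmax⟩ := T.exists_max_image Int.natAbs hne
  set N := j₀.natAbs with hN
  have hNpos : 0 < N := by
    have h3 := hmax j₁ ((hmemT _).2 hj₁')
    have h4 : 0 < j₁.natAbs := Int.natAbs_pos.2 hj₁
    omega
  have hs : ∀ j : ℤ, j ∉ Finset.Icc (-(N : ℤ)) N → ⟪b, (U ^ j) b⟫_ℂ = 0 := by
    intro j hj
    by_contra h3
    have h4 := hmax j ((hmemT _).2 h3)
    apply hj
    rw [Finset.mem_Icc]
    omega
  have habs : ∀ j : ℤ, ⟪b, (U ^ j) b⟫_ℂ = ⟪b, (U ^ ((j.natAbs : ℕ) : ℤ)) b⟫_ℂ := by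
    intro j
    rcases Int.natAbs_eq j with h | h
    · rw [← h]
    · conv_lhs => rw [h]
      exact hi.symm _
  obtain ⟨κ, hκ⟩ := hi (N : ℤ)
  have hκ0 : κ ≠ 0 := by
    intro h
    have h3 := (hmemT _).1 hj₀
    apply h3
    rw [habs, ← hN, hκ, h]
    simp
  have key := fun t ht => fejer_ineq (U := U) hNpos hi hκ h20 hs (t := t) ht
  -- `|κ| = 1`
  have hκ1 : κ = 1 ∨ κ = -1 := by
    have h3 := (key 1 (by simp)).1
    have h4 := (key (-1) (by simp)).1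
    simp only [Complex.one_re, Complex.neg_re, mul_one, mul_neg] at h3 h4
    have h5 : (-1 : ℝ) ≤ κ := by linarith
    have h6 : (κ : ℝ) ≤ 1 := by linarith
    have h5' : -1 ≤ κ := by exact_mod_cast h5
    have h6' : κ ≤ 1 := by exact_mod_cast h6
    omega
  have hκsq : (κ : ℝ) * κ = 1 := by
    rcases hκ1 with h | h <;> rw [h] <;> norm_num
  have hκsqc : (κ : ℂ) * κ = 1 := by exact_mod_cast hκsq
  refine ⟨N, hNpos, κ, hκ1, ?_⟩
  have hzero : ∀ m : ℕ, 0 < m → m < N → ⟪b, (U ^ (m : ℤ)) b⟫_ℂ = 0 := by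
    intro m hm hmN
    have hκn : ‖(-(κ : ℂ))‖ = 1 := by
      rcases hκ1 with h | h <;> rw [h] <;> simp
    have h3 := (key (-(κ : ℂ)) hκn).2 m hm hmN
    have e1 : 2 + 2 * (κ : ℝ) * (-(κ : ℂ)).re = 0 := by
      have : (-(κ : ℂ)).re = -(κ : ℝ) := by simp
      rw [this]
      linarith
    rw [e1] at h3
    have h4 : ⟪b, (U ^ (m : ℤ)) b⟫_ℂ + ⟪b, (U ^ ((m : ℤ) - N)) b⟫_ℂ * (-(κ : ℂ))⁻¹ = 0 :=
      norm_le_zero_iff.1 h3
    have e2 : (-(κ : ℂ))⁻¹ = -(κ : ℂ) := by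
      rcases hκ1 with h | h <;> rw [h] <;> norm_num
    rw [e2] at h4
    set B := ⟪b, (U ^ ((m : ℤ) - N)) b⟫_ℂ with hB
    have h5 : ⟪b, (U ^ (m : ℤ)) b⟫_ℂ = κ * B := by linear_combination h4
    set q : ℂ := (3 + 4 * Complex.I) / 5 with hq
    have hq1 : ‖q‖ = 1 := by
      have h6 : ‖q‖ ^ 2 = 1 := by
        rw [← Complex.normSq_eq_norm_sq, hq, Complex.normSq_apply]
        norm_num
      have := norm_nonneg q
      nlinarith
    have hqi : q⁻¹ = (3 - 4 * Complex.I) / 5 := by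
      rw [Complex.inv_eq_conj hq1, hq, map_div₀, map_add, map_mul, Complex.conj_I,
        map_ofNat (starRingEnd ℂ) 3, map_ofNat (starRingEnd ℂ) 4, map_ofNat (starRingEnd ℂ) 5]
      ring
    have h6 := (key (-(κ : ℂ) * q) (by rw [norm_mul, hκn, hq1, mul_one])).2 m hm hmN
    have e3 : (-(κ : ℂ) * q).re = -(κ : ℝ) * (3 / 5) := by
      rw [hq]
      simp
    have e4 : 2 + 2 * (κ : ℝ) * (-(κ : ℂ) * q).re = 4 / 5 := by
      rw [e3]
      linear_combination (-(6 : ℝ) / 5) * hκsq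
    have e5 : κ * B + B * (-(κ : ℂ) * q)⁻¹ = κ * B * ((2 + 4 * Complex.I) / 5) := by
      rw [mul_inv, e2, hqi]
      ring
    rw [h5, e4, e5, norm_mul, norm_mul] at h6
    have e6 : ‖(2 + 4 * Complex.I) / 5‖ ^ 2 = 4 / 5 := by
      rw [← Complex.normSq_eq_norm_sq, Complex.normSq_apply]
      norm_num
    obtain ⟨β, hβ⟩ := hi ((m : ℤ) - N)
    rw [← hB] at hβ
    have e7 : ‖(κ : ℂ)‖ = 1 := by rw [← norm_neg, hκn]
    rw [e7, one_mul, hβ, Complex.norm_intCast] at h6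
    have h7 : β = 0 := by
      by_contra hne
      have h8 : (1 : ℝ) ≤ |(β : ℝ)| := by exact_mod_cast Int.one_le_abs hne
      have h9 : ‖(2 + 4 * Complex.I) / 5‖ ≤ 4 / 5 := by
        have := norm_nonneg ((2 + 4 * Complex.I) / 5)
        nlinarith
      have := norm_nonneg ((2 + 4 * Complex.I) / 5)
      nlinarith
    rw [h5, hβ, h7]
    simp
  intro j hj
  split_ifs with h
  · rw [habs, h, hκ]
  · by_cases h3 : j.natAbs < N
    · rw [habs]
      exact hzero _ (Int.natAbs_pos.2 hj) h3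
    · refine hs j ?_
      rw [Finset.mem_Icc]
      omega

end Pool.Agent.T2H24.SU
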