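import Pool.Agent.T2H24.SU.Root

set_option autoImplicit false
set_option linter.unusedSectionVars false
set_option linter.unusedVariables false

/-!
# The final combination
-/

namespace Pool.Agent.T2H24.SU

open Filter Topology ComplexConjugate NumberField IsDedekindDomain
  Pool.Agent.TH553.RS Pool.Agent.TH553.ST Pool.Agent.W540.BE Pool.Agent.H341R2 Pool.Agent.W353.TP

theorem sin_dense : Dense {t : ℝ | Real.sin t ≠ 0} := by
  have h : {t : ℝ | Real.sin t = 0}.Countable := by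
    have : {t : ℝ | Real.sin t = 0} = Set.range fun n : ℤ => (n : ℝ) * Real.pi := by
      ext t
      rw [Set.mem_ofPred_eq, Real.sin_eq_zero_iff, Set.mem_range]
    rw [this]
    exact Set.countable_range _
  exact h.dense_compl ℝ

theorem us_sq_diff (n : ℕ) (t : ℝ) : us (n + 1) t ^ 2 = us n t ^ 2 + us (2 * n + 2) t := by
  have h : (fun t => us (n + 1) t ^ 2) = fun t => us n t ^ 2 + us (2 * n + 2) t := by
    refine Continuous.ext_on sin_dense ((cont_us _).pow 2) (((cont_us _).pow 2).add (cont_us _)) ?_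
    intro t ht
    have hs : Real.sin t ≠ 0 := ht
    have h1 := us_mul_sin (n + 1) t
    have h2 := us_mul_sin n t
    have h3 := us_mul_sin (2 * n + 2) t
    have e1 : (((n + 1 : ℕ) : ℝ) + 1) * t = ((n : ℝ) + 1) * t + t := by push_cast; ring
    have e2 : (((2 * n + 2 : ℕ) : ℝ) + 1) * t =
        (((n : ℝ) + 1) * t + t) + ((n : ℝ) + 1) * t := by push_cast; ring
    rw [e1] at h1
    rw [e2] at h3
    have h4 : Real.sin t ^ 2 * us (n + 1) t ^ 2 =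
        Real.sin t ^ 2 * (us n t ^ 2 + us (2 * n + 2) t) := by
      have e3 : Real.sin t ^ 2 * us (n + 1) t ^ 2 = (us (n + 1) t * Real.sin t) ^ 2 := by ring
      have e4 : Real.sin t ^ 2 * (us n t ^ 2 + us (2 * n + 2) t) = (us n t * Real.sin t) ^ 2 +
          (us (2 * n + 2) t * Real.sin t) * Real.sin t := by ring
      rw [e3, e4, h1, h2, h3]
      rw [Real.sin_add (((n : ℝ) + 1) * t + t), Real.sin_add (((n : ℝ) + 1) * t), Real.cos_add]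
      have e5 := Real.sin_sq_add_cos_sq t
      have e6 : Real.cos t ^ 2 = 1 - Real.sin t ^ 2 := by linarith
      have e7 := Real.sin_sq_add_cos_sq (((n : ℝ) + 1) * t)
      have e8 : Real.cos (((n : ℝ) + 1) * t) ^ 2 = 1 - Real.sin (((n : ℝ) + 1) * t) ^ 2 := by
        linarith
      ring_nf
      ring_nf at e6 e8
      rw [e6, e8]
      ring
    exact mul_left_cancel₀ (pow_ne_zero 2 hs) h4
  exact congrFun h t

section

variable {P : Type*} {N : P → ℕ}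

/-- the positivity -/
theorem sum_even_nonneg (hN : Sys N) {U : Ultrafilter ℝ} (hU : (U : Filter ℝ) ≤ 𝓝[>] 0) {θ : P → ℝ}
    {m : ℕ → ℤ} (h0 : m 0 = 1)
    (h : ∀ n : ℕ, 1 ≤ n → (M N U fun p => us n (θ p)) = m n) (n : ℕ) :
    0 ≤ ∑ j ∈ Finset.range (n + 1), m (2 * j) := by
  have h1 : ∀ n : ℕ, (M N U fun p => us n (θ p) ^ 2) =
      ((∑ j ∈ Finset.range (n + 1), m (2 * j) : ℤ) : ℝ) := by
    intro n
    induction n with
    | zero =>
      simp only [us_zero, one_pow]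
      rw [M_one hN hU]
      simp [h0]
    | succ n ih =>
      simp only [us_sq_diff]
      rw [M_add hN hU (bd_us θ n).sq (bd_us θ _), ih, h _ (by omega), Finset.sum_range_succ _ (n + 1)]
      push_cast
      rfl
  have h2 : (0 : ℝ) ≤ M N U fun p => us n (θ p) ^ 2 := by
    have := M_mono hN hU (Bd.const 0) (bd_us θ n).sq fun p => sq_nonneg _
    rwa [M_const hN hU] at this
  rw [h1] at h2
  exact_mod_cast h2

/-- no root case if there are no poles -/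
theorem no_root (hN : Sys N) {U : Ultrafilter ℝ} (hU : (U : Filter ℝ) ≤ 𝓝[>] 0) {θ : P → ℝ}
    {m : ℕ → ℤ} (h0 : m 0 = 1)
    (h : ∀ n : ℕ, 1 ≤ n → (M N U fun p => us n (θ p)) = m n) (hle : ∀ n : ℕ, 1 ≤ n → m n ≤ 0)
    {k : ℕ} (hk : 0 < k) (hj : ∀ q : ℕ, 0 < q → jump m (k * q) = 2) : False := by
  have h1 := hj 2 (by norm_num)
  unfold jump at h1
  rw [if_neg (by omega)] at h1
  have h2 := hle (k * 2) (by omega)
  rcases Nat.eq_or_lt_of_le (show 1 ≤ k from hk) with hk1 | hk1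
  · subst hk1
    norm_num at h1 h2
    omega
  have h3 := sum_even_nonneg hN hU h0 h (k - 1)
  rw [Finset.sum_range_succ, show k - 1 = (k - 2) + 1 by omega, Finset.sum_range_succ'] at h3
  have h4 : ∑ j ∈ Finset.range (k - 2), m (2 * (j + 1)) ≤ 0 :=
    Finset.sum_nonpos fun j _ => hle _ (by omega)
  have h5 : k * 2 - 2 = 2 * (k - 2 + 1) := by omega
  rw [h5] at h1
  rw [mul_zero, h0] at h3
  omega

end

section

variable {F : Type} [Field F] [NumberField F]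

/-- `Λ` is a continuation. -/
def Con (θ : HeightOneSpectrum (𝓞 F) → ℝ) (n : ℕ) (τ : ℝ) (Λ : ℂ → ℂ) : Prop :=
  MeromorphicAt Λ (1 + τ * Complex.I) ∧
    ∀ᶠ s in 𝓝 ((1 : ℂ) + τ * Complex.I), (1 : ℝ) < s.re → Λ s = LS θ n s

/-- the orders -/
theorem ex_orders {θ : HeightOneSpectrum (𝓞 F) → ℝ} (hc : ∀ n : ℕ, 1 ≤ n → ∃ Λ, Con θ n 0 Λ) :
    ∃ m : ℕ → ℤ, m 0 = 1 ∧ (∀ n : ℕ, 1 ≤ n → Tendsto (qt (nm F) fun v => us n (θ v)) (𝓝[>] 0)
      (𝓝 (m n : ℝ))) ∧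
      ∀ (n : ℕ) (Λ : ℂ → ℂ), 1 ≤ n → Con θ n 0 Λ →
        meromorphicOrderAt Λ (1 + (0 : ℝ) * Complex.I) = ((-(m n) : ℤ) : WithTop ℤ) := by
  have h1 : ∀ n : ℕ, ∃ m : ℤ, (n = 0 → m = 1) ∧ (1 ≤ n →
      Tendsto (qt (nm F) fun v => us n (θ v)) (𝓝[>] 0) (𝓝 (m : ℝ))) := by
    intro n
    rcases Nat.eq_zero_or_pos n with h | h
    · exact ⟨1, fun _ => rfl, fun h' => by omega⟩
    · obtain ⟨Λ, h2, h3⟩ := hc n h
      obtain ⟨m, h4, h5⟩ := order_sym h2 h3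
      simp only [us'_zero, funext (us'_zero θ n)] at h5
      exact ⟨m, fun h' => by omega, fun _ => h5⟩
  choose m hm1 hm2 using h1
  refine ⟨m, hm1 0 rfl, hm2, fun n Λ hn hΛ => ?_⟩
  obtain ⟨m', h4, h5⟩ := order_sym hΛ.1 hΛ.2
  simp only [funext (us'_zero θ n)] at h5
  have h6 : (m' : ℝ) = m n := tendsto_nhds_unique h5 (hm2 n hn)
  have h7 : m' = m n := by exact_mod_cast h6
  rw [h4, h7]

/-- natural densities -/
theorem nat_of_con {θ : HeightOneSpectrum (𝓞 F) → ℝ} (hθ : ∀ v, θ v ∈ Set.Icc 0 Real.pi)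
    (h : ∀ n : ℕ, 1 ≤ n → Tendsto (qt (nm F) fun v => us n (θ v)) (𝓝[>] 0) (𝓝 0))
    (hc : ∀ n : ℕ, 1 ≤ n → ∀ τ : ℝ, ∃ Λ, Con θ n τ Λ) {f : ℝ → ℂ} (hf : Continuous f) :
    Tendsto (mn fun v => f (θ v)) atTop (𝓝 (stI f)) := by
  refine nat_law hθ (fun n hn => avg_sym fun τ => ?_) hf
  obtain ⟨Λ, h1, h2⟩ := hc n (Nat.one_le_iff_ne_zero.2 hn) τ
  obtain ⟨m, h3, h4⟩ := order_sym h1 h2
  have h5 := order_tau hθ (fun n hn => h n (Nat.one_le_iff_ne_zero.2 hn)) hn h4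
  refine ⟨Λ, h1, h2, ?_⟩
  rw [h3, h5]
  simp

end

section

variable {F : Type} [Field F] [NumberField F]

/-- the law along all ultrafilters -/
def UL (θ : HeightOneSpectrum (𝓞 F) → ℝ) (L : (ℝ → ℝ) → ℝ) : Prop :=
  ∀ f : ℝ → ℝ, Continuous f → Tendsto (qt (nm F) fun v => f (θ v)) (𝓝[>] 0) (𝓝 (L f))

theorem ul_of {θ : HeightOneSpectrum (𝓞 F) → ℝ} (hθ : ∀ v, θ v ∈ Set.Icc 0 Real.pi)
    {L : (ℝ → ℝ) → ℝ} (h : ∀ U : Ultrafilter ℝ, (U : Filter ℝ) ≤ 𝓝[>] 0 → ∀ f : ℝ → ℝ,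
      Continuous f → (M (nm F) U fun p => f (θ p)) = L f) : UL θ L := fun f hf =>
  tendsto_of_M (sysF F) (bd_comp hθ hf) fun U hU => h U hU f hf

theorem cosI_two (f : ℝ → ℝ) (j : ℕ) :
    cosI (2 * (j + 1)) (-1) f = 2 / Real.pi * ∫ t in (0 : ℝ)..Real.pi,
      f t * Real.sin (((j : ℝ) + 1) * t) ^ 2 := by
  unfold cosI
  have h : (fun t : ℝ => f t * (1 + (-1) * Real.cos (((2 * (j + 1) : ℕ) : ℝ) * t))) =
      fun t => 2 * (f t * Real.sin (((j : ℝ) + 1) * t) ^ 2) := by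
    funext t
    rw [Real.sin_sq_eq_half_sub]
    have e : 2 * (((j : ℝ) + 1) * t) = ((2 * (j + 1) : ℕ) : ℝ) * t := by push_cast; ring
    rw [e]
    ring
  rw [h, intervalIntegral.integral_const_mul]
  ring

/-- the case of zero orders -/
theorem ul_zero {θ : HeightOneSpectrum (𝓞 F) → ℝ} (hθ : ∀ v, θ v ∈ Set.Icc 0 Real.pi)
    (h : ∀ n : ℕ, 1 ≤ n → Tendsto (qt (nm F) fun v => us n (θ v)) (𝓝[>] 0) (𝓝 0)) :
    UL θ fun f => 2 / Real.pi * ∫ t in (0 : ℝ)..Real.pi, f t * Real.sin t ^ 2 :=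
  ul_of hθ fun U hU f hf => law_U_real (sysF F) hU hθ
    (fun n hn => M_of_tendsto hU (h n (Nat.one_le_iff_ne_zero.2 hn))) hf

/-- **The trichotomy.** -/
theorem main_tri {θ : HeightOneSpectrum (𝓞 F) → ℝ} (hθ : ∀ v, θ v ∈ Set.Icc 0 Real.pi)
    (hc : ∀ n : ℕ, 1 ≤ n → ∃ Λ, Con θ n 0 Λ) :
    (∃ (k : ℕ) (c : ℕ → ℝ), 0 < k ∧ UL θ (rootI k c)) ∨
      (∃ (p : ℕ) (α : ℝ), 0 < p ∧ (α = 0 ∨ α = Real.pi) ∧ UL θ (halfI p α)) ∨
      ∃ (N : ℕ) (ε : ℤ), 0 < N ∧ (ε = 0 ∨ ε = 1 ∨ ε = -1) ∧ UL θ (cosI N ε) := by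
  obtain ⟨m, h0, hm, -⟩ := ex_orders hc
  obtain ⟨L, hL, h⟩ := tri_law h0 (sysF F) hθ fun U hU n hn => M_of_tendsto hU (hm n hn)
  have hUL := ul_of hθ hL
  rcases h with ⟨k, c, hk, rfl, -⟩ | ⟨p, ε, hp, hε, rfl, -⟩ | ⟨N, ε, hN, hε, rfl, -⟩
  · exact Or.inl ⟨k, c, hk, hUL⟩
  · refine Or.inr (Or.inl ⟨p, _, hp, ?_, hUL⟩)
    split_ifs
    · exact Or.inl rfl
    · exact Or.inr rfl
  · exact Or.inr (Or.inr ⟨N, ε, hN, hε, hUL⟩)

/-- no pole -/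
theorem le_of_nopole {θ : HeightOneSpectrum (𝓞 F) → ℝ} {m : ℤ} {n : ℕ}
    (h : ∃ Λ, Con θ n 0 Λ ∧ 0 ≤ meromorphicOrderAt Λ (1 + (0 : ℝ) * Complex.I))
    (hm : ∀ Λ : ℂ → ℂ, Con θ n 0 Λ →
        meromorphicOrderAt Λ (1 + (0 : ℝ) * Complex.I) = ((-m : ℤ) : WithTop ℤ)) : m ≤ 0 := by
  obtain ⟨Λ, h1, h2⟩ := h
  rw [hm Λ h1] at h2
  have h3 : (0 : ℤ) ≤ -m := by exact_mod_cast h2
  omega

/-- **The criterion with the squares and the fourth powers.** -/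
theorem main_two {θ : HeightOneSpectrum (𝓞 F) → ℝ} (hθ : ∀ v, θ v ∈ Set.Icc 0 Real.pi)
    (hc : ∀ n : ℕ, 1 ≤ n → ∃ Λ, Con θ n 0 Λ)
    (h2 : ∃ Λ, Con θ 2 0 Λ ∧ 0 ≤ meromorphicOrderAt Λ (1 + (0 : ℝ) * Complex.I))
    (h4 : ∃ Λ, Con θ 4 0 Λ ∧ 0 ≤ meromorphicOrderAt Λ (1 + (0 : ℝ) * Complex.I))
    (hr : ∀ (k : ℕ) (c : ℕ → ℝ), 0 < k → ¬ UL θ (rootI k c)) :
    ∀ n : ℕ, 1 ≤ n → Tendsto (qt (nm F) fun v => us n (θ v)) (𝓝[>] 0) (𝓝 0) := by
  obtain ⟨m, h0, hm, hord⟩ := ex_orders hc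
  obtain ⟨L, hL, h⟩ := tri_law h0 (sysF F) hθ fun U hU n hn => M_of_tendsto hU (hm n hn)
  have hm2 : m 2 ≤ 0 := le_of_nopole h2 fun Λ hΛ => hord 2 Λ (by norm_num) hΛ
  have hm4 : m 4 ≤ 0 := le_of_nopole h4 fun Λ hΛ => hord 4 Λ (by norm_num) hΛ
  have hUL := ul_of hθ hL
  have hz : ∀ n : ℕ, 1 ≤ n → m n = 0 := by
    rcases h with ⟨k, c, hk, rfl, -⟩ | ⟨p, ε, hp, hε, rfl, h⟩ | ⟨N, ε, hN, hε, rfl, h⟩
    · exact (hr k c hk hUL).elim
    · exact (no_half h0 hm2 hm4 ⟨p, hp, ε, hε, h⟩).elim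
    · rcases hε with rfl | hε
      · exact conclude h0 hm2 (Or.inl fun n hn => by rw [h n hn]; simp)
      · exact conclude h0 hm2 (Or.inr ⟨N, hN, ε, hε, h⟩)
  intro n hn
  have := hm n hn
  rw [hz n hn] at this
  simpa using this

/-- **The criterion without poles.** -/
theorem main_all {θ : HeightOneSpectrum (𝓞 F) → ℝ} (hθ : ∀ v, θ v ∈ Set.Icc 0 Real.pi)
    (hc : ∀ n : ℕ, 1 ≤ n → ∃ Λ, Con θ n 0 Λ ∧
      0 ≤ meromorphicOrderAt Λ (1 + (0 : ℝ) * Complex.I)) :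
    ∀ n : ℕ, 1 ≤ n → Tendsto (qt (nm F) fun v => us n (θ v)) (𝓝[>] 0) (𝓝 0) := by
  have hne : (𝓝[>] (0 : ℝ)).NeBot := inferInstance
  set U₀ : Ultrafilter ℝ := Ultrafilter.of (𝓝[>] (0 : ℝ)) with hUd
  have hU₀ : (U₀ : Filter ℝ) ≤ 𝓝[>] 0 := Ultrafilter.of_le _
  obtain ⟨m, h0, hm, hord⟩ := ex_orders fun n hn => by
    obtain ⟨Λ, hΛ, _⟩ := hc n hn
    exact ⟨Λ, hΛ⟩
  obtain ⟨L, hL, h⟩ := tri_law h0 (sysF F) hθ fun U hU n hn => M_of_tendsto hU (hm n hn)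
  have hle : ∀ n : ℕ, 1 ≤ n → m n ≤ 0 := fun n hn =>
    le_of_nopole (hc n hn) fun Λ hΛ => hord n Λ hn hΛ
  have hz : ∀ n : ℕ, 1 ≤ n → m n = 0 := by
    rcases h with ⟨k, c, hk, -, -, h⟩ | ⟨p, ε, hp, hε, rfl, h⟩ | ⟨N, ε, hN, hε, rfl, h⟩
    · exact (no_root (sysF F) hU₀ h0 (fun n hn => M_of_tendsto hU₀ (hm n hn)) hle hk h).elim
    · exact (no_half h0 (hle 2 (by norm_num)) (hle 4 (by norm_num)) ⟨p, hp, ε, hε, h⟩).elim
    · rcases hε with rfl | hε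
      · exact conclude h0 (hle 2 (by norm_num)) (Or.inl fun n hn => by rw [h n hn]; simp)
      · exact conclude h0 (hle 2 (by norm_num)) (Or.inr ⟨N, hN, ε, hε, h⟩)
  intro n hn
  have := hm n hn
  rw [hz n hn] at this
  simpa using this

end

section

variable {K : Type} [Field K] [NumberField K] {F : Type} [Field F] [NumberField F] [Algebra K F]

/-- **The base change.** -/
theorem main_bc {θ : HeightOneSpectrum (𝓞 K) → ℝ} {φ : HeightOneSpectrum (𝓞 F) → ℝ}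
    (hφ : ∀ v, φ v ∈ Set.Icc 0 Real.pi)
    (hθ : ∀ n : ℕ, 1 ≤ n → Tendsto (qt (nm K) fun v => us n (θ v)) (𝓝[>] 0) (𝓝 0))
    (hb : BCa θ φ) (hc : ∀ n : ℕ, 1 ≤ n → ∃ Λ, Con φ n 0 Λ) :
    ∃ k : ℕ, (k + 1) ^ 2 ≤ Module.finrank K F ∧ UL φ (cosI (2 * (k + 1)) (-1)) ∧
      (∀ n : ℕ, 1 ≤ n → Tendsto (qt (nm F) fun v => us n (φ v)) (𝓝[>] 0) (𝓝 (stp k n : ℝ))) ∧
      ∀ (n : ℕ) (Λ : ℂ → ℂ), 1 ≤ n → Con φ n 0 Λ →
        meromorphicOrderAt Λ (1 + (0 : ℝ) * Complex.I) = ((-(stp k n) : ℤ) : WithTop ℤ) := by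
  have hne : (𝓝[>] (0 : ℝ)).NeBot := inferInstance
  set U₀ : Ultrafilter ℝ := Ultrafilter.of (𝓝[>] (0 : ℝ)) with hUd
  have hU₀ : (U₀ : Filter ℝ) ≤ 𝓝[>] 0 := Ultrafilter.of_le _
  obtain ⟨m, h0, hm, hord⟩ := ex_orders hc
  obtain ⟨k, hk, hmk⟩ := bc_step hb hU₀ (fun n hn => M_of_tendsto hU₀ (hθ n hn)) h0
    fun n hn => M_of_tendsto hU₀ (hm n hn)
  refine ⟨k, hk, ul_of hφ fun U hU f hf => ?_, fun n hn => ?_, fun n Λ hn hΛ => ?_⟩
  · refine law_fnl (sysF F) hU hφ (cosI_fnl (by omega) (by norm_num)) (fun n => ?_) hf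
    have h4 := M_cos (sysF F) hU (θ := φ) h0 (fun n hn => M_of_tendsto hU (hm n hn)) (n : ℤ)
    rw [M_const_mul (sysF F) hU (bd_cos' φ _)] at h4
    have h5 : (M (nm F) U fun w => Real.cos ((n : ℝ) * φ w)) = (cf m n : ℝ) / 2 := by
      push_cast at h4 ⊢
      linarith
    rw [h5, cosI_cos (by omega)]
    have h6 : (cf m (n : ℤ) : ℤ) = (if n = 0 then 2 else 0) + if n = 2 * (k + 1) then -1 else 0 := by
      unfold cf jump
      rw [Int.natAbs_natCast]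
      simp only [hmk]
      unfold stp
      by_cases hn0 : n = 0
      · subst hn0
        simp
      · rw [if_neg (by omega), if_neg hn0]
        by_cases hn1 : n = 1
        · subst hn1
          rw [if_pos rfl, if_neg (fun h => absurd h.1 (by decide)), if_neg (by omega)]
          norm_num
        · rw [if_neg hn1]
          have hev : Even (n - 2) ↔ Even n := by
            rw [Nat.even_sub (by omega)]
            simp
          simp only [hev]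
          by_cases he : Even n
          · obtain ⟨a, ha⟩ := he
            have he' : Even n := ⟨a, ha⟩
            simp only [he', true_and]
            split_ifs <;> omega
          · simp only [he, false_and, if_false]
            rw [if_neg]
            · norm_num
            · intro h3
              exact he ⟨k + 1, by omega⟩
    rw [h6]
    push_cast
    split_ifs <;> norm_num
  · have := hm n hn
    rw [hmk n] at this
    exact this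
  · rw [hord n Λ hn hΛ, hmk n]

end

end Pool.Agent.T2H24.SU
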