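import Pool.Agent.T2H24.SU.Tri

set_option autoImplicit false
set_option linter.unusedSectionVars false
set_option linter.unusedVariables false

/-!
# The trichotomy for the Fourier coefficients of a positive functional
-/

namespace Pool.Agent.T2H24.SU

open Filter Topology ComplexConjugate
open scoped InnerProductSpace ComplexOrder

/-- the coordinate -/
noncomputable def zc : C(Circle, ℂ) := ⟨fun z => (z : ℂ), by fun_prop⟩

theorem zc_mem : zc ∈ unitary C(Circle, ℂ) := by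
  rw [Unitary.mem_iff]
  constructor
  · ext z
    change conj (z : ℂ) * (z : ℂ) = 1
    rw [← Circle.coe_inv_eq_conj, ← Circle.coe_mul, inv_mul_cancel, Circle.coe_one]
  · ext z
    change (z : ℂ) * conj (z : ℂ) = 1
    rw [← Circle.coe_inv_eq_conj, ← Circle.coe_mul, mul_inv_cancel, Circle.coe_one]

noncomputable def zu : unitary C(Circle, ℂ) := ⟨zc, zc_mem⟩

/-- the powers of the coordinate -/
noncomputable def zp (j : ℤ) : C(Circle, ℂ) := ((zu ^ j : unitary C(Circle, ℂ)) : C(Circle, ℂ))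

theorem zp_apply (j : ℤ) (z : Circle) : zp j z = (z : ℂ) ^ j := by
  have hnat : ∀ n : ℕ, zp n z = (z : ℂ) ^ n := by
    intro n
    unfold zp
    rw [zpow_natCast, SubmonoidClass.coe_pow, ContinuousMap.pow_apply]
    rfl
  rcases Int.eq_nat_or_neg j with ⟨n, rfl | rfl⟩
  · rw [hnat, zpow_natCast]
  · have h1 : zp (-(n : ℤ)) = star (zp (n : ℤ)) := by
      unfold zp
      rw [zpow_neg]
      rfl
    rw [h1]
    change conj (zp (n : ℤ) z) = _
    rw [hnat, zpow_neg, zpow_natCast, map_pow, ← Circle.coe_inv_eq_conj, Circle.coe_inv, inv_pow]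

variable (F : C(Circle, ℂ) →ₚ[ℂ] ℂ)

noncomputable def ug : unitary C(Circle, ℂ) →* unitary (F.GNS →L[ℂ] F.GNS) where
  toFun u := ⟨F.gnsStarAlgHom u.1, Unitary.map_mem _ u.2⟩
  map_one' := Subtype.ext (map_one F.gnsStarAlgHom)
  map_mul' u v := Subtype.ext (map_mul F.gnsStarAlgHom _ _)

/-- the unitary operator -/
noncomputable def UF : F.GNS ≃ₗᵢ[ℂ] F.GNS := Unitary.linearIsometryEquiv (ug F zu)

/-- the cyclic vector -/
noncomputable def eF : F.GNS := ((F.toPreGNS 1 : F.PreGNS) : F.GNS)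

theorem UF_pow (j : ℤ) : (UF F ^ j) (eF F) = ((F.toPreGNS (zp j) : F.PreGNS) : F.GNS) := by
  unfold UF
  rw [← map_zpow, ← map_zpow]
  change F.gnsStarAlgHom (zp j) (eF F) = _
  change F.gnsNonUnitalStarAlgHom (zp j) ((F.toPreGNS 1 : F.PreGNS) : F.GNS) = _
  rw [PositiveLinearMap.gnsNonUnitalStarAlgHom_apply_coe, PositiveLinearMap.leftMulMapPreGNS_apply]
  simp

theorem inner_UF (j : ℤ) : ⟪eF F, (UF F ^ j) (eF F)⟫_ℂ = F (zp j) := by
  rw [UF_pow, eF, UniformSpace.Completion.inner_coe, PositiveLinearMap.preGNS_inner_def]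
  simp

/-- **The trichotomy for sequences.** -/
theorem tri_seq {c : ℤ → ℤ} (hc : ∀ j, F (zp j) = c j) (h0 : c 0 = 2) :
    (∃ m : ℤ, 0 < m ∧ ∀ q : ℤ, c (m * q) = 2) ∨
    (∃ p : ℕ, 0 < p ∧ ∃ ε : ℤ, (ε = 1 ∨ ε = -1) ∧ ∀ j : ℤ, j ≠ 0 →
      (∀ q : ℤ, j = p * q → c j = ε ^ q.natAbs) ∧ (¬ (p : ℤ) ∣ j → c j = 0)) ∨
    (∀ j : ℤ, j ≠ 0 → c j = 0) ∨ ∃ N : ℕ, 0 < N ∧ ∃ ε : ℤ, (ε = 1 ∨ ε = -1) ∧
      ∀ j : ℤ, j ≠ 0 → c j = if j.natAbs = N then ε else 0 := by
  have hi : IntU (UF F) (eF F) := fun j => ⟨c j, by rw [inner_UF, hc]⟩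
  have h2 : ‖eF F‖ ^ 2 = 2 := by
    have h1 := inner_UF F 0
    rw [zpow_zero, hc, h0] at h1
    change ⟪eF F, eF F⟫_ℂ = _ at h1
    rw [inner_self_real] at h1
    exact_mod_cast h1
  have key : ∀ (j k : ℤ), ⟪eF F, (UF F ^ j) (eF F)⟫_ℂ = (k : ℂ) → c j = k := by
    intro j k h
    rw [inner_UF, hc] at h
    exact_mod_cast h
  rcases tri h2 hi with ⟨m, hm, hme⟩ | ⟨p, hp, ε, hε, h⟩ | h | ⟨N, hN, ε, hε, h⟩
  · left
    refine ⟨m, hm, fun q => key _ 2 ?_⟩
    rw [fix_mul hme, inner_self_real, h2]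
    norm_num
  · right; left
    refine ⟨p, hp, ε, hε, fun j hj => ⟨fun q hq => key _ _ ((h j hj).1 q hq), fun hd => key _ 0 ?_⟩⟩
    rw [(h j hj).2 hd]
    simp
  · right; right; left
    exact fun j hj => key _ 0 (by rw [h j hj]; simp)
  · right; right; right
    refine ⟨N, hN, ε, hε, fun j hj => key _ _ ?_⟩
    rw [h j hj]
    split_ifs <;> simp

end Pool.Agent.T2H24.SU
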