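import Pool.Agent.T2H24.SU.Weak

set_option autoImplicit false
set_option linter.unusedSectionVars false
set_option linter.unusedVariables false

/-!
# Integer valued positive definite functions on the integers

`U` is a unitary operator of a Hilbert space and `e` a vector with `⟪e, U ^ j e⟫ ∈ ℤ` for all `j`.
-/

namespace Pool.Agent.T2H24.SU

open Filter Topology ComplexConjugate
open scoped InnerProductSpace

variable {H : Type*} [NormedAddCommGroup H] [InnerProductSpace ℂ H] [CompleteSpace H]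
variable (U : H ≃ₗᵢ[ℂ] H)

/-- `e` is orthogonal to all vectors fixed by a power of `U` -/
def NT (e : H) : Prop := ∀ m : ℤ, 0 < m → ∀ y, (U ^ m) y = y → ⟪e, y⟫_ℂ = 0

/-- the integrality -/
def IntU (e : H) : Prop := ∀ j : ℤ, IsInt ⟪e, (U ^ j) e⟫_ℂ

variable {U}

theorem IntU.shift {e : H} (h : IntU U e) (p : Ultrafilter ℤ) (j : ℤ) :
    IsInt ⟪(U ^ j) e, W U p e⟫_ℂ := by
  have h1 : ∀ n : ℤ, IsInt ⟪(U ^ n) e, (U ^ j) e⟫_ℂ := fun n => by
    rw [inner_pow_pow]
    exact h _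
  have h2 := (IsInt.eventually_eq h1 (W_spec U p e ((U ^ j) e))).1
  rw [← inner_conj_symm]
  exact h2.conj

theorem IntU.weak {e : H} (h : IntU U e) (p : Ultrafilter ℤ) : IntU U (W U p e) := by
  intro j
  have h1 : ∀ n : ℤ, IsInt ⟪(U ^ n) e, (U ^ j) (W U p e)⟫_ℂ := fun n => by
    rw [inner_pow_pow']
    exact h.shift p _
  exact (IsInt.eventually_eq h1 (W_spec U p e _)).1

theorem fix_pow {m : ℤ} {y : H} (h : (U ^ m) y = y) (n : ℤ) :
    (U ^ m) ((U ^ n) y) = (U ^ n) y := by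
  rw [pow_pow, add_comm, ← pow_pow, h]

theorem NT.weak {e : H} (h : NT U e) (p : Ultrafilter ℤ) : NT U (W U p e) := by
  intro m hm y hy
  refine tendsto_nhds_unique (W_spec U p e y) ?_
  refine tendsto_const_nhds.congr fun n => ?_
  rw [inner_pow, h m hm _ (fix_pow hy _)]

theorem inner_self_real (x : H) : ⟪x, x⟫_ℂ = ((‖x‖ ^ 2 : ℝ) : ℂ) := by
  rw [inner_self_eq_norm_sq_to_K]
  push_cast
  rfl

theorem IntU.norm_nat {e : H} (h : IntU U e) : ∃ M : ℕ, ‖e‖ ^ 2 = M := by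
  obtain ⟨k, hk⟩ := h 0
  rw [zpow_zero] at hk
  change ⟪e, e⟫_ℂ = k at hk
  rw [inner_self_real] at hk
  have h1 : ‖e‖ ^ 2 = (k : ℝ) := by exact_mod_cast hk
  have h2 : 0 ≤ k := by
    have : (0 : ℝ) ≤ (k : ℝ) := by rw [← h1]; positivity
    exact_mod_cast this
  exact ⟨k.toNat, by rw [h1]; exact_mod_cast (Int.toNat_of_nonneg h2).symm⟩

/-- the norm of a difference -/
theorem norm_sub_sq' (x y : H) : ‖x - y‖ ^ 2 = ‖x‖ ^ 2 - 2 * (⟪x, y⟫_ℂ).re + ‖y‖ ^ 2 := by
  have := @norm_sub_sq ℂ H _ _ _ x y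
  simpa using this

theorem eq_of_inner {x y : H} {r : ℝ} (hx : ‖x‖ ^ 2 = r) (hy : ‖y‖ ^ 2 = r)
    (h : (⟪x, y⟫_ℂ).re = r) : x = y := by
  have h1 := norm_sub_sq' x y
  rw [hx, hy, h] at h1
  have h2 : ‖x - y‖ ^ 2 = 0 := by rw [h1]; ring
  have h3 : ‖x - y‖ = 0 := by
    exact pow_eq_zero_iff (two_ne_zero) |>.1 h2
  exact sub_eq_zero.1 (norm_eq_zero.1 h3)

theorem norm_pow (n : ℤ) (x : H) : ‖(U ^ n) x‖ = ‖x‖ := LinearIsometryEquiv.norm_map _ _

/-- the vector is zero if the correlation of its weak limit has finite support -/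
theorem weak_zero {e : H} {p : Ultrafilter ℤ} (hp : (p : Filter ℤ) ≤ cofinite)
    (hs : {j : ℤ | ⟪W U p e, (U ^ j) (W U p e)⟫_ℂ ≠ 0}.Finite) : W U p e = 0 := by
  set a := W U p e with ha
  set b := W' U p a with hb
  have hba : ∀ y, ⟪b, y⟫_ℂ = ⟪a, W U p y⟫_ℂ := fun y => W'_adj U p a y
  -- `W b` is orthogonal to the orbit
  have h1 : ∀ j : ℤ, ⟪W U p b, (U ^ j) e⟫_ℂ = 0 := by
    intro j
    refine tendsto_nhds_unique (W_spec U p b ((U ^ j) e)) ?_
    refine tendsto_const_nhds.congr' ?_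
    have h2 : ∀ n : ℤ, ⟪(U ^ n) b, (U ^ j) e⟫_ℂ = ⟪a, (U ^ (j - n)) a⟫_ℂ := by
      intro n
      rw [inner_pow_pow, hba, W_comm]
    have h3 : {n : ℤ | ⟪a, (U ^ (j - n)) a⟫_ℂ ≠ 0}.Finite :=
      hs.preimage (f := fun n : ℤ => j - n) (fun x _ y _ h => by simpa using h)
    have h4 : {n : ℤ | ⟪a, (U ^ (j - n)) a⟫_ℂ ≠ 0}ᶜ ∈ (p : Filter ℤ) :=
      hp (h3.compl_mem_cofinite)
    filter_upwards [h4] with n hn
    rw [h2]
    simp only [Set.mem_compl_iff, Set.mem_ofPred_eq, not_not] at hn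
    exact hn.symm
  -- `b = 0`
  have h5 : ⟪b, b⟫_ℂ = 0 := by
    rw [hba b]
    refine tendsto_nhds_unique (W_spec U p e (W U p b)) ?_
    refine tendsto_const_nhds.congr fun n => ?_
    rw [← inner_conj_symm, h1, map_zero]
  have h6 : b = 0 := inner_self_eq_zero.1 h5
  have h7 : ⟪a, a⟫_ℂ = 0 := by
    have h8 := hba e
    rw [h6, inner_zero_left] at h8
    exact h8.symm
  exact inner_self_eq_zero.1 h7

/-- **Helson's theorem for positive definite functions**: the part without fixed vectors has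
finite support. -/
theorem fin_support : ∀ (M : ℕ) (e : H), ‖e‖ ^ 2 = M → IntU U e → NT U e →
    {j : ℤ | ⟪e, (U ^ j) e⟫_ℂ ≠ 0}.Finite := by
  intro M
  induction M using Nat.strong_induction_on with
  | _ M ih =>
  intro e hM hint hNT
  by_contra hinf
  set S : Set ℤ := {j : ℤ | ⟪e, (U ^ j) e⟫_ℂ ≠ 0} with hS
  have hinf' : S.Infinite := hinf
  have : (cofinite ⊓ 𝓟 S).NeBot := cofinite_inf_principal_neBot_iff.2 hinf'
  set p : Ultrafilter ℤ := Ultrafilter.of (cofinite ⊓ 𝓟 S) with hp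
  have hp1 : (p : Filter ℤ) ≤ cofinite := (Ultrafilter.of_le _).trans inf_le_left
  have hp2 : S ∈ (p : Filter ℤ) := (Ultrafilter.of_le _) (mem_inf_of_right (mem_principal_self S))
  set a := W U p e with ha
  -- `a ≠ 0`
  have h0 : a ≠ 0 := by
    intro h
    have h1 : ∀ n : ℤ, IsInt ⟪(U ^ n) e, e⟫_ℂ := fun n => by
      rw [← inner_conj_symm]
      exact (hint n).conj
    have h2 := (IsInt.eventually_eq h1 (W_spec U p e e)).2
    rw [← ha, h, inner_zero_left] at h2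
    obtain ⟨n, h3, h4⟩ := (h2.and hp2).exists
    apply h4
    rw [← inner_conj_symm, h3, map_zero]
  obtain ⟨M', hM'⟩ := (hint.weak p).norm_nat
  rw [← ha] at hM'
  have hle : ‖a‖ ≤ ‖e‖ := norm_W U p e
  have hle' : M' ≤ M := by
    have : (M' : ℝ) ≤ M := by
      rw [← hM', ← hM]
      exact pow_le_pow_left₀ (norm_nonneg _) hle 2
    exact_mod_cast this
  rcases hle'.lt_or_eq with hlt | heq
  · exact h0 (weak_zero hp1 (ih M' hlt a hM' (hint.weak p) (hNT.weak p)))
  · -- the limit is strong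
    rw [heq] at hM'
    have h1 : ∀ n : ℤ, IsInt ⟪(U ^ n) e, a⟫_ℂ := fun n => hint.shift p n
    have h2 := (IsInt.eventually_eq h1 (W_spec U p e a)).2
    have h3 : ∀ᶠ n in (p : Filter ℤ), (U ^ n) e = a := by
      filter_upwards [h2] with n hn
      refine eq_of_inner (r := (M : ℝ)) (by rw [norm_pow]; exact hM) hM' ?_
      rw [hn, ← ha, inner_self_real, Complex.ofReal_re, hM']
    obtain ⟨n, hn⟩ := h3.exists
    have h4 : ∀ᶠ k in (p : Filter ℤ), k ≠ n := by
      have : ({n}ᶜ : Set ℤ) ∈ (p : Filter ℤ) := hp1 (Set.finite_singleton n).compl_mem_cofinite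
      exact this
    obtain ⟨k, hk1, hk2⟩ := (h3.and h4).exists
    have key : ∀ k n : ℤ, n < k → (U ^ k) e = a → (U ^ n) e = a → False := by
      intro k n hnk h5 h6
      have h7 : (U ^ (k - n)) e = e := by
        have h8 : (U ^ n) ((U ^ (k - n)) e) = (U ^ n) e := by
          rw [pow_pow, h6, ← h5]
          congr 2
          ring
        exact (U ^ n).injective h8
      have h9 := hNT (k - n) (by omega) e h7
      have h10 : e = 0 := inner_self_eq_zero.1 h9
      apply h0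
      rw [← h5, h10, map_zero]
    rcases lt_or_gt_of_ne hk2 with h5 | h5
    · exact key n k h5 hn hk1
    · exact key k n h5 hk1 hn

end Pool.Agent.T2H24.SU
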