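import Pool.Agent.T2H24.SU.BC3

set_option autoImplicit false
set_option linter.unusedSectionVars false
set_option linter.unusedVariables false

/-!
# The limit laws
-/

namespace Pool.Agent.T2H24.SU

open Filter Topology ComplexConjugate NumberField IsDedekindDomain
  Pool.Agent.TH553.RS Pool.Agent.TH553.ST Pool.Agent.W540.BE Pool.Agent.H341R2 Pool.Agent.W353.TP

/-- the density of the trigonometric polynomials -/
theorem real_dense {Good : (ℝ → ℝ) → Prop}
    (hadd : ∀ f g, Continuous f → Continuous g → Good f → Good g → Good fun t => f t + g t)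
    (hmul : ∀ (c : ℝ) f, Continuous f → Good f → Good fun t => c * f t)
    (hcos : ∀ n : ℕ, Good fun t => Real.cos ((n : ℝ) * t))
    (hunif : ∀ f, Continuous f → (∀ ε : ℝ, 0 < ε → ∃ g, Continuous g ∧ Good g ∧
      ∀ t ∈ Set.Icc 0 Real.pi, |f t - g t| ≤ ε) → Good f) :
    ∀ f : ℝ → ℝ, Continuous f → Good f := by
  have hc0 : ∀ n : ℕ, Continuous fun t : ℝ => Real.cos ((n : ℝ) * t) := fun n => by fun_prop
  have h1 : ∀ k n : ℕ, Good fun t => Real.cos t ^ k * Real.cos ((n : ℝ) * t) := by
    intro k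
    induction k with
    | zero =>
      intro n
      simpa using hcos n
    | succ k ih =>
      have hc : ∀ n : ℕ, Continuous fun t => Real.cos t ^ k * Real.cos ((n : ℝ) * t) := fun n =>
        (Real.continuous_cos.pow k).mul (hc0 n)
      intro n
      rcases n with _ | n
      · refine (congrArg Good (funext fun t => ?_)).mp (ih 1)
        simp only [Nat.cast_one, one_mul, Nat.cast_zero, zero_mul, Real.cos_zero, mul_one]
        ring
      · have h2 := hmul (1 / 2) _ ((hc (n + 2)).add (hc n))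
          (hadd _ _ (hc _) (hc _) (ih (n + 2)) (ih n))
        refine (congrArg Good (funext fun t => ?_)).mp h2
        have h3 : Real.cos (((n + 2 : ℕ) : ℝ) * t) + Real.cos ((n : ℝ) * t) =
            2 * Real.cos t * Real.cos (((n + 1 : ℕ) : ℝ) * t) := by
          have e1 : ((n + 2 : ℕ) : ℝ) * t = ((n + 1 : ℕ) : ℝ) * t + t := by push_cast; ring
          have e2 : (n : ℝ) * t = ((n + 1 : ℕ) : ℝ) * t - t := by push_cast; ring
          rw [e1, e2, Real.cos_add, Real.cos_sub]
          ring
        have h4 : Real.cos (((n + 2 : ℕ) : ℝ) * t) =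
            2 * Real.cos t * Real.cos (((n + 1 : ℕ) : ℝ) * t) - Real.cos ((n : ℝ) * t) := by
          linarith
        simp only [Pi.add_apply, h4]
        ring
  have h2 : ∀ k : ℕ, Good fun t => Real.cos t ^ k := by
    intro k
    have h3 := h1 k 0
    simpa using h3
  have hcq : ∀ r : Polynomial ℝ, Continuous fun t => r.eval (Real.cos t) := fun r =>
    r.continuous.comp Real.continuous_cos
  have h3 : ∀ q : Polynomial ℝ, Good fun t => q.eval (Real.cos t) := by
    intro q
    induction q using Polynomial.induction_on' with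
    | add p q hp hq =>
      refine (congrArg Good (funext fun t => ?_)).mp (hadd _ _ (hcq p) (hcq q) hp hq)
      rw [Polynomial.eval_add]
    | monomial k a =>
      refine (congrArg Good (funext fun t => ?_)).mp (hmul a
        (fun t => Real.cos t ^ k) (Real.continuous_cos.pow k) (h2 k))
      rw [Polynomial.eval_monomial]
  intro f hf
  refine hunif f hf fun ε hε => ?_
  obtain ⟨q, hq⟩ := exists_polynomial_near_of_continuousOn (-1) 1 (fun x => f (Real.arccos x))
    (hf.comp Real.continuous_arccos).continuousOn ε hε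
  refine ⟨fun t => q.eval (Real.cos t), hcq q, h3 q, fun t ht => ?_⟩
  have h4 := hq (Real.cos t) ⟨Real.neg_one_le_cos t, Real.cos_le_one t⟩
  rw [Real.arccos_cos ht.1 ht.2, abs_sub_comm] at h4
  exact h4.le

/-- bounded linear functionals -/
structure Fnl (L : (ℝ → ℝ) → ℝ) (C : ℝ) : Prop where
  nonneg : 0 ≤ C
  add : ∀ f g, Continuous f → Continuous g → L (fun t => f t + g t) = L f + L g
  mul : ∀ (c : ℝ) f, Continuous f → L (fun t => c * f t) = c * L f
  bd : ∀ f g, Continuous f → Continuous g → ∀ ε : ℝ, 0 ≤ ε →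
    (∀ t ∈ Set.Icc 0 Real.pi, |f t - g t| ≤ ε) → |L f - L g| ≤ C * ε

section

variable {P : Type*} {N : P → ℕ}

theorem bd_comp {θ : P → ℝ} (hθ : ∀ p, θ p ∈ Set.Icc 0 Real.pi) {f : ℝ → ℝ} (hf : Continuous f) :
    Bd fun p => f (θ p) := by
  obtain ⟨C, hC⟩ := isCompact_Icc.exists_bound_of_continuousOn
    (hf.continuousOn (s := Set.Icc 0 Real.pi))
  exact ⟨C, fun p => hC _ (hθ p)⟩

theorem law_fnl (hN : Sys N) {U : Ultrafilter ℝ} (hU : (U : Filter ℝ) ≤ 𝓝[>] 0) {θ : P → ℝ}
    (hθ : ∀ p, θ p ∈ Set.Icc 0 Real.pi) {L : (ℝ → ℝ) → ℝ} {C : ℝ} (hL : Fnl L C)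
    (h : ∀ n : ℕ, (M N U fun p => Real.cos ((n : ℝ) * θ p)) = L fun t => Real.cos ((n : ℝ) * t))
    {f : ℝ → ℝ} (hf : Continuous f) : (M N U fun p => f (θ p)) = L f := by
  refine real_dense (Good := fun f => (M N U fun p => f (θ p)) = L f) ?_ ?_ h ?_ f hf
  · intro f g hf hg h1 h2
    rw [M_add hN hU (bd_comp hθ hf) (bd_comp hθ hg), hL.add f g hf hg, h1, h2]
  · intro c f hf h1
    rw [M_const_mul hN hU (bd_comp hθ hf), hL.mul c f hf, h1]
  · intro f hf happ
    by_contra hne
    have h1 : 0 < |(M N U fun p => f (θ p)) - L f| := abs_pos.2 (sub_ne_zero.2 hne)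
    set d := |(M N U fun p => f (θ p)) - L f| with hd
    have hC := hL.nonneg
    obtain ⟨g, hg, hg1, hg2⟩ := happ (d / (2 * (C + 1))) (by positivity)
    have h2 : |(M N U fun p => f (θ p)) - M N U fun p => g (θ p)| ≤ d / (2 * (C + 1)) := by
      rw [← M_sub hN hU (bd_comp hθ hf) (bd_comp hθ hg), abs_le]
      constructor
      · have h1 := M_mono hN hU (Bd.const (-(d / (2 * (C + 1))))) ((bd_comp hθ hf).sub (bd_comp hθ hg))
          fun p => (abs_le.1 (hg2 _ (hθ p))).1
        rw [M_const hN hU] at h1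
        exact h1
      · have h1 := M_mono hN hU ((bd_comp hθ hf).sub (bd_comp hθ hg)) (Bd.const (d / (2 * (C + 1))))
          fun p => (abs_le.1 (hg2 _ (hθ p))).2
        rw [M_const hN hU] at h1
        exact h1
    have h3 := hL.bd f g hf hg (d / (2 * (C + 1))) (by positivity) hg2
    have h7 : (C + 1) * (d / (2 * (C + 1))) = d / 2 := by
      have : C + 1 ≠ 0 := by positivity
      field_simp
    have h4 : (M N U fun p => f (θ p)) - L f = ((M N U fun p => f (θ p)) -
        (M N U fun p => g (θ p))) - (L f - L g) := by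
      rw [hg1]
      ring
    have h6 := abs_sub ((M N U fun p => f (θ p)) - (M N U fun p => g (θ p))) (L f - L g)
    rw [← h4, ← hd] at h6
    linarith

end

/-- the law with one Fourier coefficient -/
noncomputable def cosI (N : ℕ) (ε : ℝ) (f : ℝ → ℝ) : ℝ :=
  (1 / Real.pi) * ∫ t in (0 : ℝ)..Real.pi, f t * (1 + ε * Real.cos ((N : ℝ) * t))

/-- the sum over the points -/
noncomputable def ptI (p : ℕ) (α : ℝ) (f : ℝ → ℝ) : ℝ :=
  (∑ i ∈ Finset.range p, f (Real.arccos (Real.cos ((2 * Real.pi * i + α) / p)))) / p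

/-- the half uniform law -/
noncomputable def halfI (p : ℕ) (α : ℝ) (f : ℝ → ℝ) : ℝ :=
  (1 / 2) * ((1 / Real.pi) * ∫ t in (0 : ℝ)..Real.pi, f t) + (1 / 2) * ptI p α f

theorem int_cos_abs (N : ℕ) (t : ℝ) {ε : ℝ} (hε : |ε| ≤ 1) :
    0 ≤ 1 + ε * Real.cos ((N : ℝ) * t) := by
  have h1 : |ε * Real.cos ((N : ℝ) * t)| ≤ 1 := by
    rw [abs_mul]
    exact mul_le_one₀ hε (abs_nonneg _) (Real.abs_cos_le_one _)
  have := (abs_le.1 h1).1
  linarith

theorem cosI_fnl {N : ℕ} (hN : N ≠ 0) {ε : ℝ} (hε : |ε| ≤ 1) : Fnl (cosI N ε) 2 where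
  nonneg := by norm_num
  add f g hf hg := by
    unfold cosI
    rw [← mul_add, ← intervalIntegral.integral_add]
    · congr 2
      funext t
      ring
    · exact (Continuous.intervalIntegrable (by fun_prop) _ _)
    · exact (Continuous.intervalIntegrable (by fun_prop) _ _)
  mul c f hf := by
    unfold cosI
    have h : (fun t : ℝ => c * f t * (1 + ε * Real.cos ((N : ℝ) * t))) =
        fun t => c * (f t * (1 + ε * Real.cos ((N : ℝ) * t))) := by
      funext t
      ring
    rw [h, intervalIntegral.integral_const_mul]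
    ring
  bd f g hf hg δ hδ h := by
    unfold cosI
    rw [← mul_sub, ← intervalIntegral.integral_sub, abs_mul, abs_of_pos (by positivity)]
    · have h1 : |∫ t in (0 : ℝ)..Real.pi, (f t * (1 + ε * Real.cos ((N : ℝ) * t)) -
          g t * (1 + ε * Real.cos ((N : ℝ) * t)))| ≤
          ∫ t in (0 : ℝ)..Real.pi, δ * (1 + ε * Real.cos ((N : ℝ) * t)) := by
        rw [← Real.norm_eq_abs]
        refine intervalIntegral.norm_integral_le_of_norm_le Real.pi_pos.le ?_
          (Continuous.intervalIntegrable (by fun_prop) _ _)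
        refine Filter.Eventually.of_forall fun t ht => ?_
        rw [← sub_mul, norm_mul, Real.norm_eq_abs, Real.norm_of_nonneg (int_cos_abs N t hε)]
        exact mul_le_mul_of_nonneg_right (h t ⟨ht.1.le, ht.2⟩) (int_cos_abs N t hε)
      rw [intervalIntegral.integral_const_mul, intervalIntegral.integral_add,
        intervalIntegral.integral_const_mul, int_cos_nat hN, intervalIntegral.integral_const] at h1
      · have hpi := Real.pi_pos
        calc (1 / Real.pi) * _ ≤ (1 / Real.pi) * (δ * ((Real.pi - 0) • (1 : ℝ) + ε * 0)) :=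
              mul_le_mul_of_nonneg_left h1 (by positivity)
          _ = δ := by
              rw [smul_eq_mul]
              field_simp
              ring
          _ ≤ 2 * δ := by linarith
      · exact (Continuous.intervalIntegrable (by fun_prop) _ _)
      · exact (Continuous.intervalIntegrable (by fun_prop) _ _)
    · exact (Continuous.intervalIntegrable (by fun_prop) _ _)
    · exact (Continuous.intervalIntegrable (by fun_prop) _ _)

theorem int_cos_cos {n N : ℕ} (hN : N ≠ 0) :
    ∫ t in (0 : ℝ)..Real.pi, Real.cos ((n : ℝ) * t) * Real.cos ((N : ℝ) * t) =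
      if n = N then Real.pi / 2 else 0 := by
  have h1 : (fun t : ℝ => Real.cos ((n : ℝ) * t) * Real.cos ((N : ℝ) * t)) = fun t =>
      (1 / 2 : ℝ) * Real.cos (((n + N : ℕ) : ℝ) * t) +
      (1 / 2 : ℝ) * Real.cos (((((n : ℤ) - N).natAbs : ℕ) : ℝ) * t) := by
    funext t
    have e1 : Real.cos (((((n : ℤ) - N).natAbs : ℕ) : ℝ) * t) =
        Real.cos ((n : ℝ) * t - (N : ℝ) * t) := by
      have e2 : ((((n : ℤ) - N).natAbs : ℕ) : ℝ) = |(n : ℝ) - N| := by
        rw [Nat.cast_natAbs]
        push_cast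
        rfl
      rw [e2]
      rcases abs_choice ((n : ℝ) - N) with h | h
      · rw [h]
        congr 1
        ring
      · rw [h, neg_mul, Real.cos_neg]
        congr 1
        ring
    have e3 : ((n + N : ℕ) : ℝ) * t = (n : ℝ) * t + (N : ℝ) * t := by push_cast; ring
    rw [e1, e3, Real.cos_add, Real.cos_sub]
    ring
  rw [h1, intervalIntegral.integral_add, intervalIntegral.integral_const_mul,
    intervalIntegral.integral_const_mul, int_cos_nat (by omega)]
  · split_ifs with h
    · subst h
      simp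
      ring
    · rw [int_cos_nat (by omega)]
      simp
  · exact (Continuous.intervalIntegrable (by fun_prop) _ _)
  · exact (Continuous.intervalIntegrable (by fun_prop) _ _)

theorem cosI_cos {N : ℕ} (hN : N ≠ 0) (ε : ℝ) (n : ℕ) :
    cosI N ε (fun t => Real.cos ((n : ℝ) * t)) = (if n = 0 then 1 else 0) +
      if n = N then ε / 2 else 0 := by
  unfold cosI
  have h1 : (fun t : ℝ => Real.cos ((n : ℝ) * t) * (1 + ε * Real.cos ((N : ℝ) * t))) = fun t =>
      Real.cos ((n : ℝ) * t) + ε * (Real.cos ((n : ℝ) * t) * Real.cos ((N : ℝ) * t)) := by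
    funext t
    ring
  have hpi := Real.pi_pos
  rw [h1, intervalIntegral.integral_add, intervalIntegral.integral_const_mul, int_cos_cos hN,
    mul_add]
  · congr 1
    · split_ifs with h
      · subst h
        simp
      · rw [int_cos_nat h, mul_zero]
    · split_ifs with h
      · field_simp
      · simp
  · exact (Continuous.intervalIntegrable (by fun_prop) _ _)
  · exact (Continuous.intervalIntegrable (by fun_prop) _ _)

theorem ptI_le {p : ℕ} {α : ℝ} {f g : ℝ → ℝ} {δ : ℝ} (hδ : 0 ≤ δ)
    (h : ∀ t ∈ Set.Icc 0 Real.pi, |f t - g t| ≤ δ) : |ptI p α f - ptI p α g| ≤ δ := by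
  unfold ptI
  rw [← sub_div, ← Finset.sum_sub_distrib, abs_div, Nat.abs_cast]
  have h1 : |∑ i ∈ Finset.range p, (f (Real.arccos (Real.cos ((2 * Real.pi * i + α) / p))) -
      g (Real.arccos (Real.cos ((2 * Real.pi * i + α) / p))))| ≤ p * δ := by
    refine (Finset.abs_sum_le_sum_abs _ _).trans ?_
    refine (Finset.sum_le_sum fun i _ => h _ ⟨Real.arccos_nonneg _, Real.arccos_le_pi _⟩).trans ?_
    rw [Finset.sum_const, Finset.card_range, nsmul_eq_mul]
  rcases Nat.eq_zero_or_pos p with h0 | h0
  · subst h0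
    simpa using hδ
  · have h0' : (0 : ℝ) < p := by exact_mod_cast h0
    rw [div_le_iff₀ h0']
    linarith

theorem halfI_fnl {p : ℕ} {α : ℝ} : Fnl (halfI p α) 2 where
  nonneg := by norm_num
  add f g hf hg := by
    unfold halfI ptI
    rw [intervalIntegral.integral_add (Continuous.intervalIntegrable (by fun_prop) _ _)
      (Continuous.intervalIntegrable (by fun_prop) _ _), Finset.sum_add_distrib]
    ring
  mul c f hf := by
    unfold halfI ptI
    rw [intervalIntegral.integral_const_mul, ← Finset.mul_sum]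
    ring
  bd f g hf hg δ hδ h := by
    have h1 : |(1 / Real.pi) * (∫ t in (0 : ℝ)..Real.pi, f t) -
        (1 / Real.pi) * ∫ t in (0 : ℝ)..Real.pi, g t| ≤ δ := by
      rw [← mul_sub, ← intervalIntegral.integral_sub, abs_mul, abs_of_pos (by positivity)]
      · have h1 : |∫ t in (0 : ℝ)..Real.pi, (f t - g t)| ≤ ∫ t in (0 : ℝ)..Real.pi, δ := by
          rw [← Real.norm_eq_abs]
          refine intervalIntegral.norm_integral_le_of_norm_le Real.pi_pos.le ?_
            (Continuous.intervalIntegrable (by fun_prop) _ _)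
          exact Filter.Eventually.of_forall fun t ht => h t ⟨ht.1.le, ht.2⟩
        rw [intervalIntegral.integral_const] at h1
        have hpi := Real.pi_pos
        calc (1 / Real.pi) * _ ≤ (1 / Real.pi) * ((Real.pi - 0) • δ) :=
              mul_le_mul_of_nonneg_left h1 (by positivity)
          _ = δ := by
              rw [smul_eq_mul]
              field_simp
              ring
      · exact (Continuous.intervalIntegrable (by fun_prop) _ _)
      · exact (Continuous.intervalIntegrable (by fun_prop) _ _)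
    have h2 := ptI_le (p := p) (α := α) hδ h
    unfold halfI
    rw [abs_le] at *
    constructor <;> linarith [h1.1, h1.2, h2.1, h2.2]

theorem ptI_cos {p : ℕ} (hp : 0 < p) (α : ℝ) (n : ℕ) :
    (∀ q : ℕ, n = p * q → ptI p α (fun t => Real.cos ((n : ℝ) * t)) = Real.cos ((q : ℝ) * α)) ∧
    (¬ p ∣ n → ptI p α (fun t => Real.cos ((n : ℝ) * t)) = 0) := by
  have hp' : (p : ℝ) ≠ 0 := by exact_mod_cast hp.ne'
  have h0 : ∀ x : ℝ, Real.cos ((n : ℝ) * Real.arccos (Real.cos x)) = Real.cos ((n : ℝ) * x) := by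
    intro x
    have h1 := Polynomial.Chebyshev.T_real_cos (Real.arccos (Real.cos x)) (n : ℤ)
    have h2 := Polynomial.Chebyshev.T_real_cos x (n : ℤ)
    rw [Real.cos_arccos (Real.neg_one_le_cos x) (Real.cos_le_one x)] at h1
    rw [h1] at h2
    push_cast at h2
    exact h2
  have e : ptI p α (fun t => Real.cos ((n : ℝ) * t)) =
      (∑ i ∈ Finset.range p, Real.cos ((n : ℝ) * ((2 * Real.pi * i + α) / p))) / p := by
    unfold ptI
    simp only [h0]
  rw [e]
  constructor
  · intro q hq
    have h1 : ∀ i ∈ Finset.range p, Real.cos ((n : ℝ) * ((2 * Real.pi * i + α) / p)) =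
        Real.cos ((q : ℝ) * α) := by
      intro i _
      have e2 : (n : ℝ) * ((2 * Real.pi * i + α) / p) =
          (q : ℝ) * α + ((q * i : ℕ) : ℝ) * (2 * Real.pi) := by
        rw [hq]
        push_cast
        field_simp
        ring
      rw [e2, Real.cos_add_nat_mul_two_pi]
    rw [Finset.sum_congr rfl h1, Finset.sum_const, Finset.card_range, nsmul_eq_mul]
    field_simp
  · intro hn
    have hpc : (p : ℂ) ≠ 0 := by exact_mod_cast hp.ne'
    set ζ : ℂ := Complex.exp (2 * Real.pi * Complex.I / p) with hζ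
    have hprim : IsPrimitiveRoot ζ p := Complex.isPrimitiveRoot_exp p hp.ne'
    have hne : ζ ^ n ≠ 1 := fun h => hn ((hprim.pow_eq_one_iff_dvd n).1 h)
    have hsum : ∑ i ∈ Finset.range p, (ζ ^ n) ^ i = 0 := by
      have h1 := mul_geom_sum (ζ ^ n) p
      rw [← pow_mul, mul_comm n p, pow_mul, hprim.pow_eq_one, one_pow, sub_self] at h1
      exact (mul_eq_zero.1 h1).resolve_left (sub_ne_zero.2 hne)
    have h1 : ∀ i : ℕ, Real.cos ((n : ℝ) * ((2 * Real.pi * i + α) / p)) =
        (Complex.exp (((n * α / p : ℝ) : ℂ) * Complex.I) * (ζ ^ n) ^ i).re := by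
      intro i
      rw [hζ, ← Complex.exp_nat_mul, ← Complex.exp_nat_mul, ← Complex.exp_add]
      have e2 : ((n * α / p : ℝ) : ℂ) * Complex.I + (i : ℂ) * ((n : ℂ) *
          (2 * Real.pi * Complex.I / p)) =
          (((n : ℝ) * ((2 * Real.pi * i + α) / p) : ℝ) : ℂ) * Complex.I := by
        push_cast
        field_simp
        ring
      rw [e2, Complex.exp_ofReal_mul_I_re]
    simp only [h1]
    rw [← Complex.re_sum, ← Finset.mul_sum, hsum, mul_zero, Complex.zero_re, zero_div]

theorem halfI_cos {p : ℕ} (hp : 0 < p) (α : ℝ) (n : ℕ) (hn : 1 ≤ n) :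
    (∀ q : ℕ, n = p * q →
      halfI p α (fun t => Real.cos ((n : ℝ) * t)) = Real.cos ((q : ℝ) * α) / 2) ∧
    (¬ p ∣ n → halfI p α (fun t => Real.cos ((n : ℝ) * t)) = 0) := by
  have h := ptI_cos hp α n
  unfold halfI
  rw [int_cos_nat (by omega)]
  constructor
  · intro q hq
    rw [h.1 q hq]
    ring
  · intro h1
    rw [h.2 h1]
    ring

theorem halfI_one {p : ℕ} (hp : 0 < p) (α : ℝ) :
    halfI p α (fun t => Real.cos (((0 : ℕ) : ℝ) * t)) = 1 := by
  have hpi := Real.pi_pos
  have hp' : (p : ℝ) ≠ 0 := by exact_mod_cast hp.ne'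
  unfold halfI ptI
  simp
  field_simp
  norm_num

end Pool.Agent.T2H24.SU
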