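import Pool.Agent.T2H24.SU.Limits

set_option autoImplicit false
set_option linter.unusedSectionVars false
set_option linter.unusedVariables false

/-!
# The trichotomy for the orders at one point, and the base change
-/

namespace Pool.Agent.T2H24.SU

open Filter Topology ComplexConjugate NumberField IsDedekindDomain
  Pool.Agent.TH553.RS Pool.Agent.TH553.ST Pool.Agent.W540.BE Pool.Agent.H341R2 Pool.Agent.W353.TP

/-- the differences of the orders -/
def jump (m : ℕ → ℤ) (n : ℕ) : ℤ := if n = 1 then m 1 else m n - m (n - 2)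

/-- the Fourier coefficients -/
def cf (m : ℕ → ℤ) (j : ℤ) : ℤ := if j = 0 then 2 else jump m j.natAbs

section

variable {P : Type*} {N : P → ℕ}

theorem bd_us (θ : P → ℝ) (n : ℕ) : Bd fun p => us n (θ p) := ⟨n + 1, fun p => abs_us_le n _⟩

theorem bd_cos (θ : P → ℝ) (a : ℝ) : Bd fun p => 2 * Real.cos (a * θ p) :=
  ⟨2, fun p => by
    rw [abs_mul, abs_two]
    have := Real.abs_cos_le_one (a * θ p)
    linarith⟩

theorem cos_us {n : ℕ} (hn : 1 ≤ n) (t : ℝ) :
    2 * Real.cos ((n : ℝ) * t) = if n = 1 then us 1 t else us n t - us (n - 2) t := by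
  split_ifs with h
  · rw [h, us_one]
    simp
  · obtain ⟨k, rfl⟩ : ∃ k, n = k + 2 := ⟨n - 2, by omega⟩
    have h1 := us_diff k t
    rw [Nat.add_sub_cancel, h1]
    ring

/-- the means of the cosines -/
theorem M_cos (hN : Sys N) {U : Ultrafilter ℝ} (hU : (U : Filter ℝ) ≤ 𝓝[>] 0) {θ : P → ℝ}
    {m : ℕ → ℤ} (h0 : m 0 = 1)
    (h : ∀ n : ℕ, 1 ≤ n → (M N U fun p => us n (θ p)) = m n) (j : ℤ) :
    (M N U fun p => 2 * Real.cos ((j : ℝ) * θ p)) = cf m j := by
  have h' : ∀ n : ℕ, (M N U fun p => us n (θ p)) = m n := by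
    intro n
    rcases Nat.eq_zero_or_pos n with rfl | hn
    · simp only [us_zero]
      rw [M_one hN hU, h0]
      simp
    · exact h n hn
  unfold cf
  split_ifs with hj
  · rw [hj]
    simp only [Int.cast_zero, zero_mul, Real.cos_zero, mul_one]
    rw [M_const hN hU]
    norm_num
  · have hn : 1 ≤ j.natAbs := Int.natAbs_pos.2 hj
    have e : (fun p => 2 * Real.cos ((j : ℝ) * θ p)) =
        fun p => 2 * Real.cos (((j.natAbs : ℕ) : ℝ) * θ p) := by
      funext p
      have h1 : (((j.natAbs : ℕ) : ℝ)) = |(j : ℝ)| := by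
        rw [Nat.cast_natAbs]
        push_cast
        rfl
      rw [h1]
      rcases abs_choice (j : ℝ) with h2 | h2 <;> rw [h2]
      rw [neg_mul, Real.cos_neg]
    rw [e]
    simp only [cos_us hn]
    unfold jump
    split_ifs with h1
    · rw [← h' 1]
    · rw [M_sub hN hU (bd_us θ _) (bd_us θ _), h', h']
      push_cast
      rfl

/-- the trichotomy in terms of the orders -/
theorem tri_orders (hN : Sys N) {U : Ultrafilter ℝ} (hU : (U : Filter ℝ) ≤ 𝓝[>] 0) {θ : P → ℝ}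
    {m : ℕ → ℤ} (h0 : m 0 = 1)
    (h : ∀ n : ℕ, 1 ≤ n → (M N U fun p => us n (θ p)) = m n) :
    (∃ k : ℕ, 0 < k ∧ ∀ q : ℕ, 0 < q → jump m (k * q) = 2) ∨
    (∃ p : ℕ, 0 < p ∧ ∃ ε : ℤ, (ε = 1 ∨ ε = -1) ∧ ∀ n : ℕ, 1 ≤ n →
      (∀ q : ℕ, n = p * q → jump m n = ε ^ q) ∧ (¬ p ∣ n → jump m n = 0)) ∨
    (∀ n : ℕ, 1 ≤ n → jump m n = 0) ∨ ∃ N : ℕ, 0 < N ∧ ∃ ε : ℤ, (ε = 1 ∨ ε = -1) ∧
      ∀ n : ℕ, 1 ≤ n → jump m n = if n = N then ε else 0 := by
  have hc : ∀ n : ℕ, 1 ≤ n → cf m (n : ℤ) = jump m n := by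
    intro n hn
    unfold cf
    rw [if_neg (by omega), Int.natAbs_natCast]
  rcases tri_mean hN hU θ (M_cos hN hU h0 h) with ⟨k, hk, h1⟩ | ⟨p, hp, ε, hε, h1⟩ | h1 |
    ⟨K, hK, ε, hε, h1⟩
  · left
    refine ⟨k.toNat, by omega, fun q hq => ?_⟩
    have hk' : ((k.toNat : ℕ) : ℤ) = k := Int.toNat_of_nonneg hk.le
    have hkp : 0 < k.toNat := by omega
    have hpos : 1 ≤ k.toNat * q := Nat.mul_pos hkp hq
    rw [← hc _ hpos]
    push_cast
    rw [hk']
    exact h1 q
  · right; left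
    refine ⟨p, hp, ε, hε, fun n hn => ⟨fun q hq => ?_, fun hd => ?_⟩⟩
    · have h2 := (h1 (n : ℤ) (by omega)).1 q (by rw [hq]; push_cast; rfl)
      rw [hc n hn, Int.natAbs_natCast] at h2
      exact h2
    · have h2 := (h1 (n : ℤ) (by omega)).2 (fun h3 => hd (by exact_mod_cast h3))
      rw [hc n hn] at h2
      exact h2
  · right; right; left
    intro n hn
    rw [← hc n hn]
    exact h1 _ (by omega)
  · right; right; right
    refine ⟨K, hK, ε, hε, fun n hn => ?_⟩
    have h2 := h1 (n : ℤ) (by omega)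
    rw [hc n hn, Int.natAbs_natCast] at h2
    exact h2

end

/-- the orders are zero in the good case -/
theorem orders_zero {m : ℕ → ℤ} (h0 : m 0 = 1)
    (h : ∀ n : ℕ, 1 ≤ n → jump m n = if n = 2 then -1 else 0) : ∀ n : ℕ, 1 ≤ n → m n = 0 := by
  have key : ∀ n : ℕ, m (n + 1) = 0 ∧ m (n + 2) = 0 := by
    intro n
    induction n with
    | zero =>
      have h1 := h 1 le_rfl
      have h2 := h 2 (by norm_num)
      unfold jump at h1 h2
      norm_num at h1 h2
      rw [h0] at h2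
      refine ⟨h1, ?_⟩
      change m 2 = 0
      omega
    | succ n ih =>
      refine ⟨ih.2, ?_⟩
      have h1 := h (n + 3) (by omega)
      unfold jump at h1
      rw [if_neg (by omega), if_neg (by omega)] at h1
      have e : n + 3 - 2 = n + 1 := by omega
      rw [e, ih.1] at h1
      change m (n + 3) = 0
      omega
  intro n hn
  obtain ⟨k, rfl⟩ : ∃ k, n = k + 1 := ⟨n - 1, by omega⟩
  exact (key k).1

/-- the conclusion without torsion, from the second order -/
theorem conclude {m : ℕ → ℤ} (h0 : m 0 = 1) (h2 : m 2 ≤ 0)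
    (h : (∀ n : ℕ, 1 ≤ n → jump m n = 0) ∨ ∃ N : ℕ, 0 < N ∧ ∃ ε : ℤ, (ε = 1 ∨ ε = -1) ∧
      ∀ n : ℕ, 1 ≤ n → jump m n = if n = N then ε else 0) : ∀ n : ℕ, 1 ≤ n → m n = 0 := by
  have hj2 : jump m 2 ≤ -1 := by
    unfold jump
    norm_num
    omega
  rcases h with h | ⟨N, hN, ε, hε, h⟩
  · have := h 2 (by norm_num)
    omega
  · have h3 := h 2 (by norm_num)
    by_cases h4 : (2 : ℕ) = N
    · rw [if_pos h4] at h3
      have h5 : ε = -1 := by omega
      refine orders_zero h0 fun n hn => ?_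
      rw [h n hn, h5, ← h4]
    · rw [if_neg h4] at h3
      omega

/-- the half torsion case has a pole at the fourth power -/
theorem no_half {m : ℕ → ℤ} (h0 : m 0 = 1) (h2 : m 2 ≤ 0) (h4 : m 4 ≤ 0)
    (h : ∃ p : ℕ, 0 < p ∧ ∃ ε : ℤ, (ε = 1 ∨ ε = -1) ∧ ∀ n : ℕ, 1 ≤ n →
      (∀ q : ℕ, n = p * q → jump m n = ε ^ q) ∧ (¬ p ∣ n → jump m n = 0)) : False := by
  obtain ⟨p, hp, ε, hε, h⟩ := h
  have hj2 : jump m 2 = m 2 - 1 := by
    unfold jump
    norm_num
    omega
  have hj4 : jump m 4 = m 4 - m 2 := by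
    unfold jump
    norm_num
  have h5 : p ∣ 2 := by
    by_contra hd
    have := (h 2 (by norm_num)).2 hd
    omega
  have h6 : p = 1 ∨ p = 2 := by
    have := Nat.le_of_dvd (by norm_num) h5
    omega
  rcases h6 with rfl | rfl
  · have h7 := (h 2 (by norm_num)).1 2 (by norm_num)
    have h8 : ε ^ 2 = 1 := by rcases hε with h | h <;> rw [h] <;> norm_num
    omega
  · have h7 := (h 2 (by norm_num)).1 1 (by norm_num)
    have h8 := (h 4 (by norm_num)).1 2 (by norm_num)
    have h9 : ε ^ 2 = 1 := by rcases hε with h | h <;> rw [h] <;> norm_num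
    rw [pow_one] at h7
    rcases hε with h | h <;> omega

section

variable {K : Type} [Field K] [NumberField K] {F : Type} [Field F] [NumberField F] [Algebra K F]

/-- base change of angles -/
def BCa (θ : HeightOneSpectrum (𝓞 K) → ℝ) (φ : HeightOneSpectrum (𝓞 F) → ℝ) : Prop :=
  ∃ S : Finset (HeightOneSpectrum (𝓞 F)), ∀ w, w ∉ S → ∀ v : HeightOneSpectrum (𝓞 K),
    w.asIdeal.comap (algebraMap (𝓞 K) (𝓞 F)) = v.asIdeal →
    Ideal.absNorm w.asIdeal = Ideal.absNorm v.asIdeal → φ w = θ v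

theorem M_bca {θ : HeightOneSpectrum (𝓞 K) → ℝ} {φ : HeightOneSpectrum (𝓞 F) → ℝ} (h : BCa θ φ)
    {U : Ultrafilter ℝ} (hU : (U : Filter ℝ) ≤ 𝓝[>] 0) (j : ℤ) :
    (M (nm F) U fun w => Real.cos ((j : ℝ) * φ w)) =
      M (NH K) U fun u => Real.cos ((j : ℝ) * θ (kr u)) * cnt K F u := by
  let _ : MeasurableSpace Circle := borel Circle
  have : BorelSpace Circle := ⟨rfl⟩
  have hbc : BC (fun v => Circle.exp (θ v)) (fun w => Circle.exp (φ w)) := by
    obtain ⟨S, hS⟩ := h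
    refine ⟨S, fun w hw v h1 h2 => ⟨1, ?_⟩⟩
    change Circle.exp (φ w) = 1 * Circle.exp (θ v) * 1⁻¹
    rw [hS w hw v h1 h2]
    simp
  have hHer : Her (fun z : Circle => (z : ℂ) ^ j) := by
    refine ⟨?_, fun g h => ?_, fun g => ?_⟩
    · exact Continuous.zpow₀ (by fun_prop) _ fun z => Or.inl (Circle.coe_ne_zero z)
    · have : h * g * h⁻¹ = g := by
        rw [mul_comm h g, mul_assoc, mul_inv_cancel, mul_one]
      rw [this]
    · rw [map_zpow₀, ← Circle.coe_inv_eq_conj]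
  have h1 := M_bc hU hbc hHer 0
  have e1 : ∀ t : ℝ, ((Circle.exp t : ℂ) ^ j).re = Real.cos ((j : ℝ) * t) := by
    intro t
    rw [Circle.coe_exp, ← Complex.exp_int_mul]
    have : (j : ℂ) * ((t : ℂ) * Complex.I) = (((j : ℝ) * t : ℝ) : ℂ) * Complex.I := by
      push_cast
      ring
    rw [this, Complex.exp_ofReal_mul_I_re]
  simp only [Complex.ofReal_zero, zero_mul, neg_zero, Complex.cpow_zero, mul_one, e1] at h1
  exact h1

/-- the Fejer kernel -/
noncomputable def fk (R : ℕ) (k : ℤ) (t : ℝ) : ℝ :=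
  ∑ i ∈ Finset.range R, ∑ l ∈ Finset.range R, Real.cos (((k * ((l : ℤ) - i) : ℤ) : ℝ) * t)

theorem fk_nonneg (R : ℕ) (k : ℤ) (t : ℝ) : 0 ≤ fk R k t := by
  have h : fk R k t = (∑ i ∈ Finset.range R, Real.cos ((k : ℝ) * i * t)) ^ 2 +
      (∑ i ∈ Finset.range R, Real.sin ((k : ℝ) * i * t)) ^ 2 := by
    unfold fk
    rw [sq, sq, Finset.sum_mul_sum, Finset.sum_mul_sum, ← Finset.sum_add_distrib]
    refine Finset.sum_congr rfl fun i _ => ?_
    rw [← Finset.sum_add_distrib]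
    refine Finset.sum_congr rfl fun l _ => ?_
    have e : ((k * ((l : ℤ) - i) : ℤ) : ℝ) * t = (k : ℝ) * l * t - (k : ℝ) * i * t := by
      push_cast
      ring
    rw [e, Real.cos_sub]
    ring
  rw [h]
  positivity

theorem bd_cos' {P : Type*} (θ : P → ℝ) (a : ℝ) : Bd fun p => Real.cos (a * θ p) :=
  ⟨1, fun p => Real.abs_cos_le_one _⟩

theorem M_fk {P : Type*} {N : P → ℕ} (hN : Sys N) {U : Ultrafilter ℝ}
    (hU : (U : Filter ℝ) ≤ 𝓝[>] 0) (θ : P → ℝ) (w : P → ℝ) (hw : Bd w) (R : ℕ) (k : ℤ) :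
    (M N U fun p => fk R k (θ p) * w p) = ∑ i ∈ Finset.range R, ∑ l ∈ Finset.range R,
      M N U fun p => Real.cos (((k * ((l : ℤ) - i) : ℤ) : ℝ) * θ p) * w p := by
  unfold fk
  have e : (fun p => (∑ i ∈ Finset.range R, ∑ l ∈ Finset.range R,
      Real.cos (((k * ((l : ℤ) - i) : ℤ) : ℝ) * θ p)) * w p) = fun p =>
      ∑ i ∈ Finset.range R, ∑ l ∈ Finset.range R,
        Real.cos (((k * ((l : ℤ) - i) : ℤ) : ℝ) * θ p) * w p := by
    funext p
    rw [Finset.sum_mul]
    exact Finset.sum_congr rfl fun i _ => by rw [Finset.sum_mul]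
  rw [e, M_sum hN hU _ fun i _ => Bd.sum _ fun l _ => (bd_cos' θ _).mul hw]
  exact Finset.sum_congr rfl fun i _ => M_sum hN hU _ fun l _ => (bd_cos' θ _).mul hw

/-- **The base change has bounded density.** -/
theorem bc_bound {θ : HeightOneSpectrum (𝓞 K) → ℝ} {φ : HeightOneSpectrum (𝓞 F) → ℝ}
    (h : BCa θ φ) {U : Ultrafilter ℝ} (hU : (U : Filter ℝ) ≤ 𝓝[>] 0)
    (hθ : ∀ n : ℕ, 1 ≤ n → (M (nm K) U fun v => us n (θ v)) = 0) {k : ℤ} (hk : k ≠ 0) (R : ℕ) :
    ∑ i ∈ Finset.range R, ∑ l ∈ Finset.range R,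
      (M (nm F) U fun w => Real.cos (((k * ((l : ℤ) - i) : ℤ) : ℝ) * φ w)) ≤
      Module.finrank ℚ F * R := by
  have hK := sysHS K
  have h1 : ∑ i ∈ Finset.range R, ∑ l ∈ Finset.range R,
      (M (nm F) U fun w => Real.cos (((k * ((l : ℤ) - i) : ℤ) : ℝ) * φ w)) =
      M (NH K) U fun u => fk R k (θ (kr u)) * cnt K F u := by
    rw [M_fk hK hU (fun u => θ (kr u)) (cnt K F) bd_cnt]
    exact Finset.sum_congr rfl fun i _ => Finset.sum_congr rfl fun l _ => M_bca h hU _
  have hbfk : Bd fun u : HX K => fk R k (θ (kr u)) := by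
    unfold fk
    exact Bd.sum _ fun i _ => Bd.sum _ fun l _ => bd_cos' (fun u : HX K => θ (kr u)) _
  have h2 : (M (NH K) U fun u => fk R k (θ (kr u)) * cnt K F u) ≤
      M (NH K) U fun u => (Module.finrank ℚ F : ℝ) * fk R k (θ (kr u)) := by
    refine M_mono hK hU (hbfk.mul bd_cnt) (hbfk.const_mul _) fun u => ?_
    obtain ⟨a, ha1, ha2⟩ := cnt_nat (K := K) (F := F) u
    rw [ha2, mul_comm]
    refine mul_le_mul_of_nonneg_right ?_ (fk_nonneg _ _ _)
    exact_mod_cast Nat.lt_succ_iff.1 ha1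
  rw [M_const_mul hK hU hbfk] at h2
  have h3 : (M (NH K) U fun u => fk R k (θ (kr u))) ≤ R := by
    have e1 : (M (NH K) U fun u => fk R k (θ (kr u))) = M (nm K) U fun v => fk R k (θ v) := by
      refine M_kr hU (g := fun v => fk R k (θ v)) ?_
      unfold fk
      exact Bd.sum _ fun i _ => Bd.sum _ fun l _ => bd_cos' θ _
    have e2 : (M (nm K) U fun v => fk R k (θ v)) = ∑ i ∈ Finset.range R, ∑ l ∈ Finset.range R,
        M (nm K) U fun v => Real.cos (((k * ((l : ℤ) - i) : ℤ) : ℝ) * θ v) := by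
      have := M_fk (sysF K) hU θ (fun _ => 1) (Bd.const 1) R k
      simpa only [mul_one] using this
    rw [e1, e2]
    have hm : ∀ j : ℤ, (M (nm K) U fun v => Real.cos ((j : ℝ) * θ v)) ≤ if j = 0 then 1 else 0 := by
      intro j
      have h4 := M_cos (sysF K) hU (θ := θ) (m := fun n => if n = 0 then 1 else 0) rfl
        (fun n hn => by rw [hθ n hn, if_neg (by omega)]; simp) j
      rw [M_const_mul (sysF K) hU (bd_cos' θ _)] at h4
      split_ifs with hj
      · subst hj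
        simp only [Int.cast_zero, zero_mul, Real.cos_zero]
        rw [M_one (sysF K) hU]
      · have h5 : cf (fun n => if n = 0 then 1 else 0) j ≤ 0 := by
          unfold cf jump
          rw [if_neg hj]
          have h6 : j.natAbs ≠ 0 := by simpa using hj
          dsimp only
          rw [if_neg h6]
          by_cases h7 : j.natAbs = 1
          · rw [if_pos h7]
            norm_num
          · rw [if_neg h7]
            split_ifs <;> norm_num
        have h6 : ((cf (fun n => if n = 0 then 1 else 0) j : ℤ) : ℝ) ≤ 0 := by exact_mod_cast h5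
        linarith
    have h4 : ∀ i ∈ Finset.range R, ∑ l ∈ Finset.range R,
        (M (nm K) U fun v => Real.cos (((k * ((l : ℤ) - i) : ℤ) : ℝ) * θ v)) ≤ 1 := by
      intro i hi
      have h5 : ∑ l ∈ Finset.range R,
          (M (nm K) U fun v => Real.cos (((k * ((l : ℤ) - i) : ℤ) : ℝ) * θ v)) ≤
          ∑ l ∈ Finset.range R, if l = i then (1 : ℝ) else 0 := by
        refine Finset.sum_le_sum fun l _ => (hm _).trans (le_of_eq ?_)
        by_cases hli : l = i
        · subst hli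
          simp
        · rw [if_neg hli, if_neg]
          intro h6
          rcases mul_eq_zero.1 h6 with h7 | h7
          · exact hk h7
          · exact hli (by omega)
      refine h5.trans ?_
      rw [Finset.sum_ite_eq' (Finset.range R) i (fun _ => (1 : ℝ)), if_pos hi]
    calc _ ≤ ∑ i ∈ Finset.range R, (1 : ℝ) := Finset.sum_le_sum h4
      _ = R := by simp
  rw [h1]
  refine h2.trans ?_
  exact mul_le_mul_of_nonneg_left h3 (Nat.cast_nonneg _)

/-- **The base change: the orders.** -/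
theorem bc_orders {θ : HeightOneSpectrum (𝓞 K) → ℝ} {φ : HeightOneSpectrum (𝓞 F) → ℝ}
    (h : BCa θ φ) {U : Ultrafilter ℝ} (hU : (U : Filter ℝ) ≤ 𝓝[>] 0)
    (hθ : ∀ n : ℕ, 1 ≤ n → (M (nm K) U fun v => us n (θ v)) = 0)
    {m : ℕ → ℤ} (h0 : m 0 = 1)
    (hm : ∀ n : ℕ, 1 ≤ n → (M (nm F) U fun w => us n (φ w)) = m n) :
    (∀ n : ℕ, 1 ≤ n → jump m n = 0) ∨ ∃ N : ℕ, 0 < N ∧ ∃ ε : ℤ, (ε = 1 ∨ ε = -1) ∧
      ∀ n : ℕ, 1 ≤ n → jump m n = if n = N then ε else 0 := by
  have hF := sysF F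
  have hcos : ∀ j : ℤ, (M (nm F) U fun w => Real.cos ((j : ℝ) * φ w)) = (cf m j : ℝ) / 2 := by
    intro j
    have h4 := M_cos hF hU (θ := φ) h0 hm j
    rw [M_const_mul hF hU (bd_cos' φ _)] at h4
    linarith
  have hcf : ∀ j : ℤ, j ≠ 0 → cf m j = jump m j.natAbs := fun j hj => by
    unfold cf
    rw [if_neg hj]
  -- a lower bound for the coefficients along multiples is impossible
  have key : ∀ k : ℕ, 0 < k → (∀ q : ℕ, 0 < q → 1 ≤ jump m (k * q)) → False := by
    intro k hk hq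
    have h5 : ∀ R : ℕ, (1 / 2 : ℝ) * R * R ≤ Module.finrank ℚ F * R := by
      intro R
      refine le_trans ?_ (bc_bound h hU hθ (k := (k : ℤ)) (by omega) R)
      have h6 : ∀ i ∈ Finset.range R, ∀ l ∈ Finset.range R, (1 / 2 : ℝ) ≤
          (M (nm F) U fun w => Real.cos (((k * ((l : ℤ) - i) : ℤ) : ℝ) * φ w)) := by
        intro i _ l _
        rw [hcos]
        by_cases hli : (l : ℤ) - i = 0
        · rw [hli, mul_zero]
          unfold cf
          rw [if_pos rfl]
          norm_num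
        · have h7 : (k : ℤ) * ((l : ℤ) - i) ≠ 0 := mul_ne_zero (by omega) hli
          rw [hcf _ h7, Int.natAbs_mul, Int.natAbs_natCast]
          have h8 := hq ((l : ℤ) - i).natAbs (Int.natAbs_pos.2 hli)
          have h9 : (1 : ℝ) ≤ (jump m (k * ((l : ℤ) - i).natAbs) : ℝ) := by exact_mod_cast h8
          linarith
      calc (1 / 2 : ℝ) * R * R = ∑ i ∈ Finset.range R, ∑ l ∈ Finset.range R, (1 / 2 : ℝ) := by
            simp
            ring
        _ ≤ _ := Finset.sum_le_sum fun i hi => Finset.sum_le_sum fun l hl => h6 i hi l hl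
    have h6 := h5 (2 * Module.finrank ℚ F + 2)
    have h7 : (0 : ℝ) ≤ Module.finrank ℚ F := Nat.cast_nonneg _
    push_cast at h6
    nlinarith
  rcases tri_orders hF hU h0 hm with ⟨k, hk, h1⟩ | ⟨p, hp, ε, hε, h1⟩ | h1 | h1
  · exact (key k hk fun q hq => by rw [h1 q hq]; norm_num).elim
  · refine (key (2 * p) (by omega) fun q hq => ?_).elim
    have h2 := (h1 (2 * p * q) (Nat.mul_pos (by omega) hq)).1 (2 * q) (by ring)
    rw [h2, pow_mul]
    rcases hε with h | h <;> rw [h] <;> norm_num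
  · exact Or.inl h1
  · exact Or.inr h1

end

end Pool.Agent.T2H24.SU
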