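import Pool.Agent.T2H24.SU.Fin

set_option autoImplicit false
set_option linter.unusedSectionVars false
set_option linter.unusedVariables false

/-!
# The masses are nonnegative
-/

namespace Pool.Agent.T2H24.SU

open Filter Topology ComplexConjugate NumberField IsDedekindDomain
  Pool.Agent.TH553.RS Pool.Agent.TH553.ST Pool.Agent.W540.BE Pool.Agent.H341R2 Pool.Agent.W353.TP

theorem shift_sum {k : ℕ} {G : ℤ → ℝ} (hG : ∀ j, G (j + k) = G j) (i : ℕ) :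
    ∑ l ∈ Finset.range k, G ((l : ℤ) - i) = ∑ l ∈ Finset.range k, G (l : ℤ) := by
  induction i with
  | zero => simp
  | succ i ih =>
    rw [← ih]
    have h1 := Finset.sum_range_succ (fun l : ℕ => G ((l : ℤ) - ((i + 1 : ℕ) : ℤ))) k
    have h2 := Finset.sum_range_succ' (fun l : ℕ => G ((l : ℤ) - ((i + 1 : ℕ) : ℤ))) k
    have h3 : G ((k : ℤ) - ((i + 1 : ℕ) : ℤ)) = G (((0 : ℕ) : ℤ) - ((i + 1 : ℕ) : ℤ)) := by
      have e : (k : ℤ) - ((i + 1 : ℕ) : ℤ) = ((0 : ℕ) : ℤ) - ((i + 1 : ℕ) : ℤ) + k := by omega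
      rw [e, hG]
    have h4 : ∀ l : ℕ, G (((l + 1 : ℕ) : ℤ) - ((i + 1 : ℕ) : ℤ)) = G ((l : ℤ) - i) := by
      intro l
      congr 1
      push_cast
      ring
    simp only [h4] at h2
    linarith

theorem mass_nonneg {k : ℕ} (hk : 0 < k) {g : ℤ → ℝ} (hg : ∀ j, g (j + k) = g j)
    (hpos : ∀ w : ℕ → ℝ, 0 ≤ ∑ i ∈ Finset.range k, ∑ l ∈ Finset.range k,
      (w i * w l) * g ((l : ℤ) - i)) (i : ℕ) : 0 ≤ mass k g i := by
  have hk' : (0 : ℝ) < k := by exact_mod_cast hk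
  set x : ℝ := 2 * Real.pi * i / k with hx
  have h1 := hpos fun j => Real.cos ((j : ℝ) * x)
  have h2 := hpos fun j => Real.sin ((j : ℝ) * x)
  have hG : ∀ j : ℤ, g (j + k) * Real.cos (((j + k : ℤ) : ℝ) * x) = g j * Real.cos ((j : ℝ) * x) := by
    intro j
    rw [hg]
    have e : ((j + k : ℤ) : ℝ) * x = (j : ℝ) * x + (i : ℝ) * (2 * Real.pi) := by
      rw [hx]
      push_cast
      field_simp
    rw [e, Real.cos_add_nat_mul_two_pi]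
  have h3 : ∑ a ∈ Finset.range k, ∑ l ∈ Finset.range k,
      (Real.cos ((a : ℝ) * x) * Real.cos ((l : ℝ) * x)) * g ((l : ℤ) - a) +
      ∑ a ∈ Finset.range k, ∑ l ∈ Finset.range k,
      (Real.sin ((a : ℝ) * x) * Real.sin ((l : ℝ) * x)) * g ((l : ℤ) - a) =
      k * ∑ l ∈ Finset.range k, g l * Real.cos (((l : ℤ) : ℝ) * x) := by
    rw [← Finset.sum_add_distrib]
    have h4 : ∀ a ∈ Finset.range k, (∑ l ∈ Finset.range k,
        (Real.cos ((a : ℝ) * x) * Real.cos ((l : ℝ) * x)) * g ((l : ℤ) - a) +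
        ∑ l ∈ Finset.range k, (Real.sin ((a : ℝ) * x) * Real.sin ((l : ℝ) * x)) *
          g ((l : ℤ) - a)) = ∑ l ∈ Finset.range k, g l * Real.cos (((l : ℤ) : ℝ) * x) := by
      intro a _
      rw [← shift_sum (G := fun j : ℤ => g j * Real.cos ((j : ℝ) * x)) hG a,
        ← Finset.sum_add_distrib]
      refine Finset.sum_congr rfl fun l _ => ?_
      have e : (((l : ℤ) - a : ℤ) : ℝ) * x = (l : ℝ) * x - (a : ℝ) * x := by
        push_cast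
        ring
      rw [e, Real.cos_sub]
      ring
    rw [Finset.sum_congr rfl h4, Finset.sum_const, Finset.card_range, nsmul_eq_mul]
  unfold mass
  have h5 : 0 ≤ (k : ℝ) * ∑ l ∈ Finset.range k, g l * Real.cos (((l : ℤ) : ℝ) * x) := by
    rw [← h3]
    exact add_nonneg h1 h2
  exact mul_nonneg (by positivity) (nonneg_of_mul_nonneg_right h5 hk')

theorem mass_sum {k : ℕ} (hk : 0 < k) {g : ℤ → ℝ} (hg : ∀ j, g (j + k) = g j)
    (hg' : ∀ j, g (-j) = g j) : ∑ i ∈ Finset.range k, mass k g i = g 0 := by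
  have h := rootI_mass hk hg hg' 0
  unfold rootI at h
  simpa using h

/-- positivity of the forms -/
theorem pos_form {P : Type*} {N : P → ℕ} (hN : Sys N) {U : Ultrafilter ℝ}
    (hU : (U : Filter ℝ) ≤ 𝓝[>] 0) {θ : P → ℝ}
    {m : ℕ → ℤ} (h0 : m 0 = 1)
    (h : ∀ n : ℕ, 1 ≤ n → (M N U fun p => us n (θ p)) = m n) (R : ℕ) (w : ℕ → ℝ) :
    0 ≤ ∑ i ∈ Finset.range R, ∑ l ∈ Finset.range R, (w i * w l) * ((cf m ((l : ℤ) - i) : ℝ) / 2) := by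
  have hcos : ∀ j : ℤ, (M N U fun p => Real.cos ((j : ℝ) * θ p)) = (cf m j : ℝ) / 2 := by
    intro j
    have h4 := M_cos hN hU (θ := θ) h0 h j
    rw [M_const_mul hN hU (bd_cos' θ _)] at h4
    linarith
  have e2 := M_tq hN hU θ (fun _ => 1) (Bd.const 1) R w
  simp only [mul_one, hcos] at e2
  rw [← e2]
  have := M_mono hN hU (Bd.const 0) (bd_tq θ R w) fun p => tq_nonneg R w (θ p)
  rwa [M_const hN hU] at this

section

variable {F : Type} [Field F] [NumberField F]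

/-- the case of the roots of unity -/
theorem root_case {θ : HeightOneSpectrum (𝓞 F) → ℝ} (hθ : ∀ v, θ v ∈ Set.Icc 0 Real.pi)
    {m : ℕ → ℤ} (h0 : m 0 = 1) (hm : ∀ n : ℕ, 1 ≤ n →
      Tendsto (qt (nm F) fun v => us n (θ v)) (𝓝[>] 0) (𝓝 (m n : ℝ))) {k : ℕ} (hk : 0 < k)
    (hk2 : jump m k = 2) :
    ∃ c : ℕ → ℝ, (∀ i, 0 ≤ c i) ∧ ∑ i ∈ Finset.range k, c i = 1 ∧ UL θ (rootI k c) := by
  have hne : (𝓝[>] (0 : ℝ)).NeBot := inferInstance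
  set U₀ : Ultrafilter ℝ := Ultrafilter.of (𝓝[>] (0 : ℝ)) with hUd
  have hU₀ : (U₀ : Filter ℝ) ≤ 𝓝[>] 0 := Ultrafilter.of_le _
  have h' : ∀ n : ℕ, 1 ≤ n → (M (nm F) U₀ fun p => us n (θ p)) = m n := fun n hn =>
    M_of_tendsto hU₀ (hm n hn)
  set g : ℤ → ℝ := fun j => (cf m j : ℝ) / 2 with hg
  have hgp : ∀ j, g (j + k) = g j := fun j => by
    rw [hg]
    simp only
    rw [cf_per (sysF F) hU₀ h0 h' hk hk2 j]
  have hgn : ∀ j, g (-j) = g j := fun j => by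
    rw [hg]
    simp only
    rw [cf_neg]
  have hcos : ∀ U : Ultrafilter ℝ, (U : Filter ℝ) ≤ 𝓝[>] 0 → ∀ n : ℕ,
      (M (nm F) U fun p => Real.cos ((n : ℝ) * θ p)) = (cf m n : ℝ) / 2 := by
    intro U hU n
    have h4 := M_cos (sysF F) hU (θ := θ) h0 (fun n hn => M_of_tendsto hU (hm n hn)) (n : ℤ)
    rw [M_const_mul (sysF F) hU (bd_cos' θ _)] at h4
    push_cast at h4 ⊢
    linarith
  refine ⟨mass k g, mass_nonneg hk hgp fun w => ?_, ?_, ul_of hθ fun U hU f hf => ?_⟩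
  · exact pos_form (sysF F) hU₀ h0 h' k w
  · rw [mass_sum hk hgp hgn, hg]
    simp only
    unfold cf
    rw [if_pos rfl]
    norm_num
  · exact law_fnl (sysF F) hU hθ (rootI_fnl k _) (fun n => by
      rw [hcos U hU, rootI_mass hk hgp hgn]) hf

/-- **The trichotomy with nonnegative masses.** -/
theorem main_tri' {θ : HeightOneSpectrum (𝓞 F) → ℝ} (hθ : ∀ v, θ v ∈ Set.Icc 0 Real.pi)
    (hc : ∀ n : ℕ, 1 ≤ n → ∃ Λ, Con θ n 0 Λ) :
    (∃ (k : ℕ) (c : ℕ → ℝ), 0 < k ∧ (∀ i, 0 ≤ c i) ∧ ∑ i ∈ Finset.range k, c i = 1 ∧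
        UL θ (rootI k c)) ∨
      (∃ (p : ℕ) (α : ℝ), 0 < p ∧ (α = 0 ∨ α = Real.pi) ∧ UL θ (halfI p α)) ∨
      ∃ (N : ℕ) (ε : ℤ), 0 < N ∧ (ε = 0 ∨ ε = 1 ∨ ε = -1) ∧ UL θ (cosI N ε) := by
  obtain ⟨m, h0, hm, -⟩ := ex_orders hc
  obtain ⟨L, hL, h⟩ := tri_law h0 (sysF F) hθ fun U hU n hn => M_of_tendsto hU (hm n hn)
  have hUL := ul_of hθ hL
  rcases h with ⟨k, c, hk, rfl, hk2, -⟩ | ⟨p, ε, hp, hε, rfl, -⟩ | ⟨N, ε, hN, hε, rfl, -⟩
  · obtain ⟨c', h1, h2, h3⟩ := root_case hθ h0 hm hk hk2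
    exact Or.inl ⟨k, c', hk, h1, h2, h3⟩
  · refine Or.inr (Or.inl ⟨p, _, hp, ?_, hUL⟩)
    split_ifs
    · exact Or.inl rfl
    · exact Or.inr rfl
  · exact Or.inr (Or.inr ⟨N, ε, hN, hε, hUL⟩)

/-- the criterion, the masses being nonnegative -/
theorem main_two' {θ : HeightOneSpectrum (𝓞 F) → ℝ} (hθ : ∀ v, θ v ∈ Set.Icc 0 Real.pi)
    (hc : ∀ n : ℕ, 1 ≤ n → ∃ Λ, Con θ n 0 Λ)
    (h2 : ∃ Λ, Con θ 2 0 Λ ∧ 0 ≤ meromorphicOrderAt Λ (1 + (0 : ℝ) * Complex.I))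
    (h4 : ∃ Λ, Con θ 4 0 Λ ∧ 0 ≤ meromorphicOrderAt Λ (1 + (0 : ℝ) * Complex.I))
    (hr : ∀ (k : ℕ) (c : ℕ → ℝ), 0 < k → (∀ i, 0 ≤ c i) → ∑ i ∈ Finset.range k, c i = 1 →
      ¬ UL θ (rootI k c)) :
    ∀ n : ℕ, 1 ≤ n → Tendsto (qt (nm F) fun v => us n (θ v)) (𝓝[>] 0) (𝓝 0) := by
  obtain ⟨m, h0, hm, hord⟩ := ex_orders hc
  obtain ⟨L, hL, h⟩ := tri_law h0 (sysF F) hθ fun U hU n hn => M_of_tendsto hU (hm n hn)
  have hm2 : m 2 ≤ 0 := le_of_nopole h2 fun Λ hΛ => hord 2 Λ (by norm_num) hΛ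
  have hm4 : m 4 ≤ 0 := le_of_nopole h4 fun Λ hΛ => hord 4 Λ (by norm_num) hΛ
  have hUL := ul_of hθ hL
  have hz : ∀ n : ℕ, 1 ≤ n → m n = 0 := by
    rcases h with ⟨k, c, hk, rfl, hk2, -⟩ | ⟨p, ε, hp, hε, rfl, h⟩ | ⟨N, ε, hN, hε, rfl, h⟩
    · obtain ⟨c', h1, h2, h3⟩ := root_case hθ h0 hm hk hk2
      exact (hr k c' hk h1 h2 h3).elim
    · exact (no_half h0 hm2 hm4 ⟨p, hp, ε, hε, h⟩).elim
    · rcases hε with rfl | hε
      · exact conclude h0 hm2 (Or.inl fun n hn => by rw [h n hn]; simp)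
      · exact conclude h0 hm2 (Or.inr ⟨N, hN, ε, hε, h⟩)
  intro n hn
  have := hm n hn
  rw [hz n hn] at this
  simpa using this

end

end Pool.Agent.T2H24.SU
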