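import Pool.Agent.T2H24.SU.Prime

set_option autoImplicit false
set_option linter.unusedSectionVars false
set_option linter.unusedVariables false

/-!
# The L-functions of the symmetric powers and the means
-/

namespace Pool.Agent.T2H24.SU

open Filter Topology ComplexConjugate NumberField IsDedekindDomain
  Pool.Agent.TH553.RS Pool.Agent.TH553.ST Pool.Agent.W540.BE Pool.Agent.H341R2

section

variable {F : Type} [Field F] [NumberField F]

/-- the eigenvalues -/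
noncomputable def al (θ : HeightOneSpectrum (𝓞 F) → ℝ) (n : ℕ) (v : HeightOneSpectrum (𝓞 F))
    (j : Fin (n + 1)) : ℂ :=
  Complex.exp (((((n : ℝ) - 2 * ((j : ℕ) : ℝ)) * θ v : ℝ) : ℂ) * Complex.I)

theorem norm_al (θ : HeightOneSpectrum (𝓞 F) → ℝ) (n : ℕ) (v : HeightOneSpectrum (𝓞 F))
    (j : Fin (n + 1)) : ‖al θ n v j‖ = 1 := Complex.norm_exp_ofReal_mul_I _

theorem sin_sum (n : ℕ) (t : ℝ) :
    ∑ j ∈ Finset.range (n + 1), Real.sin (((n : ℝ) - 2 * (j : ℝ)) * t) = 0 := by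
  have h1 := Finset.sum_range_reflect (fun j : ℕ => Real.sin (((n : ℝ) - 2 * (j : ℝ)) * t)) (n + 1)
  have h2 : ∑ j ∈ Finset.range (n + 1),
      (fun j : ℕ => Real.sin (((n : ℝ) - 2 * (j : ℝ)) * t)) (n + 1 - 1 - j) =
      -∑ j ∈ Finset.range (n + 1), Real.sin (((n : ℝ) - 2 * (j : ℝ)) * t) := by
    rw [← Finset.sum_neg_distrib]
    refine Finset.sum_congr rfl fun j hj => ?_
    have hj' : j ≤ n := Nat.lt_succ_iff.1 (Finset.mem_range.1 hj)
    simp only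
    rw [Nat.add_sub_cancel, Nat.cast_sub hj', ← Real.sin_neg]
    congr 1
    ring
  rw [h2] at h1
  linarith

theorem sum_al (θ : HeightOneSpectrum (𝓞 F) → ℝ) (n : ℕ) (v : HeightOneSpectrum (𝓞 F)) :
    ∑ j, al θ n v j = ((us n (θ v) : ℝ) : ℂ) := by
  unfold al us
  rw [Finset.sum_range (f := fun j : ℕ => Real.cos (((n : ℝ) - 2 * (j : ℝ)) * θ v))]
  have h1 := sin_sum n (θ v)
  rw [Finset.sum_range (f := fun j : ℕ => Real.sin (((n : ℝ) - 2 * (j : ℝ)) * θ v))] at h1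
  apply Complex.ext
  · rw [Complex.re_sum, Complex.ofReal_re]
    exact Finset.sum_congr rfl fun j _ => by rw [Complex.exp_ofReal_mul_I_re]
  · rw [Complex.im_sum, Complex.ofReal_im, ← h1]
    exact Finset.sum_congr rfl fun j _ => by rw [Complex.exp_ofReal_mul_I_im]

/-- the Euler product -/
noncomputable def LS (θ : HeightOneSpectrum (𝓞 F) → ℝ) (n : ℕ) (s : ℂ) : ℂ :=
  ∏' v, (∏ j, (1 - al θ n v j * ((nm F v : ℕ) : ℂ) ^ (-s)))⁻¹

/-- the coefficients -/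
noncomputable def us' (θ : HeightOneSpectrum (𝓞 F) → ℝ) (n : ℕ) (τ : ℝ)
    (v : HeightOneSpectrum (𝓞 F)) : ℝ :=
  (((us n (θ v) : ℝ) : ℂ) * ((nm F v : ℕ) : ℂ) ^ (-(τ * Complex.I))).re

theorem size_sym (θ : HeightOneSpectrum (𝓞 F) → ℝ) (n : ℕ) (τ : ℝ) :
    (∀ᶠ ε : ℝ in 𝓝[>] 0, LS θ n (1 + τ * Complex.I + ε) ≠ 0) ∧
    Tendsto (fun ε : ℝ => qt (nm F) (us' θ n τ) ε -
      Real.log ‖LS θ n (1 + τ * Complex.I + ε)‖ / Real.log (1 / ε)) (𝓝[>] 0) (𝓝 0) := by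
  set B : HeightOneSpectrum (𝓞 F) → Polynomial ℂ := fun v =>
    ∏ j, (1 - Polynomial.C (al θ n v j) * Polynomial.X) with hB
  have hBe : ∀ v z, (B v).eval z = ∏ j, (1 - al θ n v j * z) := by
    intro v z
    rw [hB]
    simp [Polynomial.eval_prod]
  exact size_unit (sysF F) (al θ n) (Filter.Eventually.of_forall (norm_al θ n))
    (t := fun v => ((us n (θ v) : ℝ) : ℂ)) (C := (n : ℝ) + 1)
    (fun v => by
      rw [Complex.norm_real]
      exact abs_us_le n _)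
    (Filter.Eventually.of_forall (sum_al θ n)) τ B (Filter.Eventually.of_forall hBe)
    (fun v => by
      rw [hBe, Finset.prod_ne_zero_iff]
      intro j _ h4
      have h5 : ‖al θ n v j * ((nm F v : ℕ) : ℂ) ^ (-(1 + τ * Complex.I : ℂ))‖ = 1 := by
        have : al θ n v j * ((nm F v : ℕ) : ℂ) ^ (-(1 + τ * Complex.I : ℂ)) = 1 := by
          linear_combination -h4
        rw [this, norm_one]
      rw [norm_mul, norm_al, one_mul] at h5
      have h6 := cpow_le_half normSys v (s := 1 + τ * Complex.I) (by simp)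
      linarith) (LS θ n)
    (fun s _ => by
      unfold LS
      refine tprod_congr fun v => ?_
      rw [hBe])

theorem order_sym {θ : HeightOneSpectrum (𝓞 F) → ℝ} {n : ℕ} {τ : ℝ} {Λ : ℂ → ℂ}
    (h1 : MeromorphicAt Λ (1 + τ * Complex.I))
    (h2 : ∀ᶠ s in 𝓝 ((1 : ℂ) + τ * Complex.I), (1 : ℝ) < s.re → Λ s = LS θ n s) :
    ∃ m : ℤ, meromorphicOrderAt Λ (1 + τ * Complex.I) = ((-m : ℤ) : WithTop ℤ) ∧
      Tendsto (qt (nm F) (us' θ n τ)) (𝓝[>] 0) (𝓝 (m : ℝ)) := by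
  obtain ⟨m, h3, h4⟩ := order_unit (size_sym θ n τ).1 h1 h2
  refine ⟨-m, by rw [h3, neg_neg], ?_⟩
  have h5 := (size_sym θ n τ).2.add h4
  rw [zero_add] at h5
  push_cast
  refine h5.congr fun ε => ?_
  ring

/-- the order is determined by the mean -/
theorem order_sym' {θ : HeightOneSpectrum (𝓞 F) → ℝ} {n : ℕ} {τ : ℝ} {Λ : ℂ → ℂ} {m : ℤ}
    (h1 : MeromorphicAt Λ (1 + τ * Complex.I))
    (h2 : ∀ᶠ s in 𝓝 ((1 : ℂ) + τ * Complex.I), (1 : ℝ) < s.re → Λ s = LS θ n s)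
    (h3 : meromorphicOrderAt Λ (1 + τ * Complex.I) = ((-m : ℤ) : WithTop ℤ)) :
      Tendsto (qt (nm F) (us' θ n τ)) (𝓝[>] 0) (𝓝 (m : ℝ)) := by
  obtain ⟨m', h4, h5⟩ := order_sym h1 h2
  rw [h3] at h4
  have h6 : -m = -m' := by exact_mod_cast h4
  have h7 : m = m' := by omega
  rw [h7]
  exact h5

theorem us'_zero (θ : HeightOneSpectrum (𝓞 F) → ℝ) (n : ℕ) (v : HeightOneSpectrum (𝓞 F)) :
    us' θ n 0 v = us n (θ v) := by
  unfold us'
  simp

/-- natural averages from orders -/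
theorem avg_sym {θ : HeightOneSpectrum (𝓞 F) → ℝ} {n : ℕ}
    (h : ∀ τ : ℝ, ∃ Λ : ℂ → ℂ, MeromorphicAt Λ (1 + τ * Complex.I) ∧
      (∀ᶠ s in 𝓝 ((1 : ℂ) + τ * Complex.I), (1 : ℝ) < s.re → Λ s = LS θ n s) ∧
      meromorphicOrderAt Λ (1 + τ * Complex.I) = ((0 : ℤ) : WithTop ℤ)) :
    Tendsto (mn fun v => ((us n (θ v) : ℝ) : ℂ)) atTop (𝓝 0) := by
  have h4 := taub (norm_al θ n) (L := LS θ n) (fun s _ => rfl) (fun τ => by
    obtain ⟨Λ, h5, h6, h7⟩ := h τ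
    obtain ⟨g, h10, h11, h12⟩ := (meromorphicOrderAt_eq_int_iff h5).1 h7
    refine ⟨g, h10, h11, ?_⟩
    rw [eventually_nhdsWithin_iff] at h12
    filter_upwards [h12, h6] with s h13 h14 h15
    have hne : s ≠ 1 + τ * Complex.I := by
      intro h
      rw [h] at h15
      simp at h15
    have h16 := h13 hne
    rw [zpow_zero, one_smul] at h16
    rw [← h16, h14 h15])
  refine h4.congr fun N => ?_
  congr 1
  funext v
  exact sum_al θ n v

end

end Pool.Agent.T2H24.SU
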