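import Mathlib

set_option autoImplicit false
set_option linter.unusedSectionVars false
set_option linter.unusedVariables false

/-!
# The characters of `SU(2)` and the Sato-Tate integral
-/

namespace Pool.Agent.T2H24.SU

open Filter Topology MeasureTheory intervalIntegral

/-- the characters -/
noncomputable def us (n : ℕ) (θ : ℝ) : ℝ :=
  ∑ j ∈ Finset.range (n + 1), Real.cos (((n : ℝ) - 2 * (j : ℝ)) * θ)

theorem us_zero (θ : ℝ) : us 0 θ = 1 := by
  unfold us
  simp

theorem us_one (θ : ℝ) : us 1 θ = 2 * Real.cos θ := by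
  unfold us
  rw [Finset.sum_range_succ, Finset.sum_range_one]
  have h1 : ((1 : ℕ) : ℝ) - 2 * ((0 : ℕ) : ℝ) = 1 := by norm_num
  have h2 : ((1 : ℕ) : ℝ) - 2 * ((1 : ℕ) : ℝ) = -1 := by norm_num
  rw [h1, h2, one_mul, neg_one_mul, Real.cos_neg]
  ring

theorem us_diff (n : ℕ) (θ : ℝ) : us (n + 2) θ = us n θ + 2 * Real.cos (((n + 2 : ℕ) : ℝ) * θ) := by
  unfold us
  rw [Finset.sum_range_succ, Finset.sum_range_succ']
  have h1 : ∀ j : ℕ, Real.cos ((((n + 2 : ℕ) : ℝ) - 2 * (((j + 1 : ℕ) : ℝ))) * θ) =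
      Real.cos (((n : ℝ) - 2 * (j : ℝ)) * θ) := by
    intro j
    congr 2
    push_cast
    ring
  simp only [h1]
  have h2 : (((n + 2 : ℕ) : ℝ) - 2 * (((0 : ℕ) : ℝ))) = ((n + 2 : ℕ) : ℝ) := by push_cast; ring
  have h3 : ((n : ℝ) - 2 * (((n + 1 : ℕ) : ℝ))) = -((n + 2 : ℕ) : ℝ) := by push_cast; ring
  rw [h2, h3, neg_mul, Real.cos_neg]
  ring

theorem us_mul_sin (n : ℕ) (θ : ℝ) : us n θ * Real.sin θ = Real.sin (((n : ℝ) + 1) * θ) := by
  have key : ∀ n : ℕ, us n θ * Real.sin θ = Real.sin (((n : ℝ) + 1) * θ) ∧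
      us (n + 1) θ * Real.sin θ = Real.sin ((((n + 1 : ℕ) : ℝ) + 1) * θ) := by
    intro n
    induction n with
    | zero =>
      constructor
      · rw [us_zero]
        simp
      · rw [us_one]
        have h1 : (((0 + 1 : ℕ) : ℝ) + 1) * θ = 2 * θ := by push_cast; ring
        rw [h1, Real.sin_two_mul]
        ring
    | succ n ih =>
      refine ⟨ih.2, ?_⟩
      rw [us_diff, add_mul, ih.1]
      have h1 : (((n + 1 + 1 : ℕ) : ℝ) + 1) * θ = ((n + 2 : ℕ) : ℝ) * θ + θ := by push_cast; ring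
      have h2 : ((n : ℝ) + 1) * θ = ((n + 2 : ℕ) : ℝ) * θ - θ := by push_cast; ring
      rw [h1, h2, Real.sin_add, Real.sin_sub]
      ring
  exact (key n).1

theorem us_rec (n : ℕ) (θ : ℝ) : 2 * Real.cos θ * us (n + 1) θ = us (n + 2) θ + us n θ := by
  have key : ∀ n : ℕ, 2 * Real.cos θ * us (n + 1) θ = us (n + 2) θ + us n θ ∧
      2 * Real.cos θ * us (n + 2) θ = us (n + 3) θ + us (n + 1) θ := by
    intro n
    induction n with
    | zero =>
      constructor
      · rw [us_diff 0, us_one, us_zero]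
        have h1 : ((0 + 2 : ℕ) : ℝ) * θ = 2 * θ := by push_cast; ring
        rw [h1, Real.cos_two_mul]
        ring
      · rw [us_diff 0, us_diff 1, us_one, us_zero]
        have h1 : ((0 + 2 : ℕ) : ℝ) * θ = 2 * θ := by push_cast; ring
        have h2 : ((1 + 2 : ℕ) : ℝ) * θ = 3 * θ := by push_cast; ring
        rw [h1, h2, Real.cos_two_mul, Real.cos_three_mul]
        ring
    | succ n ih =>
      refine ⟨ih.2, ?_⟩
      have e1 : n + 1 + 2 = (n + 1) + 2 := rfl
      rw [us_diff (n + 1), us_diff (n + 1 + 1), mul_add, ih.1, us_diff n]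
      have h1 : ((n + 1 + 1 + 2 : ℕ) : ℝ) * θ = ((n + 1 + 2 : ℕ) : ℝ) * θ + θ := by push_cast; ring
      have h2 : ((n + 2 : ℕ) : ℝ) * θ = ((n + 1 + 2 : ℕ) : ℝ) * θ - θ := by push_cast; ring
      rw [h1, h2, Real.cos_add, Real.cos_sub]
      ring
  exact (key n).1

theorem abs_us_le (n : ℕ) (θ : ℝ) : |us n θ| ≤ n + 1 := by
  unfold us
  refine (Finset.abs_sum_le_sum_abs _ _).trans ?_
  refine (Finset.sum_le_sum fun j _ => Real.abs_cos_le_one _).trans ?_
  rw [Finset.sum_const, Finset.card_range, nsmul_eq_mul, mul_one]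
  push_cast
  exact le_rfl

theorem cont_us (n : ℕ) : Continuous (us n) := by
  unfold us
  fun_prop

/-- the Sato-Tate integral -/
noncomputable def stI (f : ℝ → ℂ) : ℂ :=
  ((2 / Real.pi : ℝ) : ℂ) * ∫ t in (0 : ℝ)..Real.pi, f t * ((Real.sin t ^ 2 : ℝ) : ℂ)

theorem int_sinsq : (2 / Real.pi) * ∫ t in (0 : ℝ)..Real.pi, Real.sin t ^ 2 = 1 := by
  rw [integral_sin_sq]
  simp

theorem int_cos_nat {n : ℕ} (hn : n ≠ 0) : ∫ t in (0 : ℝ)..Real.pi, Real.cos ((n : ℝ) * t) = 0 := by
  have hn' : (n : ℝ) ≠ 0 := by exact_mod_cast hn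
  rw [intervalIntegral.integral_comp_mul_left _ hn', integral_cos, Real.sin_nat_mul_pi]
  simp

theorem stI_us (n : ℕ) : stI (fun t => ((us n t : ℝ) : ℂ)) = if n = 0 then 1 else 0 := by
  unfold stI
  have h1 : (fun t : ℝ => ((us n t : ℝ) : ℂ) * ((Real.sin t ^ 2 : ℝ) : ℂ)) =
      fun t => ((us n t * Real.sin t ^ 2 : ℝ) : ℂ) := by
    funext t
    push_cast
    rfl
  rw [h1, intervalIntegral.integral_ofReal, ← Complex.ofReal_mul]
  split_ifs with h
  · subst h
    simp only [us_zero, one_mul]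
    rw [int_sinsq, Complex.ofReal_one]
  · have h2 : (fun t : ℝ => us n t * Real.sin t ^ 2) =
        fun t => 1 / 2 * Real.cos ((n : ℝ) * t) - 1 / 2 * Real.cos (((n + 2 : ℕ) : ℝ) * t) := by
      funext t
      have h3 : us n t * Real.sin t ^ 2 = us n t * Real.sin t * Real.sin t := by ring
      rw [h3, us_mul_sin]
      have h4 : (n : ℝ) * t = ((n : ℝ) + 1) * t - t := by ring
      have h5 : ((n + 2 : ℕ) : ℝ) * t = ((n : ℝ) + 1) * t + t := by push_cast; ring
      rw [h4, h5, Real.cos_add, Real.cos_sub]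
      ring
    have h6 : ∫ t in (0 : ℝ)..Real.pi, us n t * Real.sin t ^ 2 = 0 := by
      rw [h2, intervalIntegral.integral_sub, intervalIntegral.integral_const_mul,
        intervalIntegral.integral_const_mul, int_cos_nat h, int_cos_nat (by omega)]
      · ring
      · exact (Continuous.intervalIntegrable (by fun_prop) _ _)
      · exact (Continuous.intervalIntegrable (by fun_prop) _ _)
    rw [h6, mul_zero, Complex.ofReal_zero]

theorem stI_add {f g : ℝ → ℂ} (hf : Continuous f) (hg : Continuous g) :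
    stI (fun t => f t + g t) = stI f + stI g := by
  unfold stI
  rw [← mul_add, ← intervalIntegral.integral_add]
  · congr 2
    funext t
    ring
  · exact (Continuous.intervalIntegrable (by fun_prop) _ _)
  · exact (Continuous.intervalIntegrable (by fun_prop) _ _)

theorem stI_mul (c : ℂ) (f : ℝ → ℂ) : stI (fun t => c * f t) = c * stI f := by
  unfold stI
  have h : (fun t : ℝ => c * f t * ((Real.sin t ^ 2 : ℝ) : ℂ)) =
      fun t => c * (f t * ((Real.sin t ^ 2 : ℝ) : ℂ)) := by
    funext t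
    ring
  rw [h, intervalIntegral.integral_const_mul]
  ring

theorem stI_sub_le {f g : ℝ → ℂ} (hf : Continuous f) (hg : Continuous g) {ε : ℝ} (hε : 0 ≤ ε)
    (h : ∀ t ∈ Set.Icc 0 Real.pi, ‖f t - g t‖ ≤ ε) : ‖stI f - stI g‖ ≤ ε := by
  unfold stI
  rw [← mul_sub, ← intervalIntegral.integral_sub, norm_mul, Complex.norm_real,
    Real.norm_of_nonneg (by positivity)]
  · have h1 : ‖∫ t in (0 : ℝ)..Real.pi, (f t * ((Real.sin t ^ 2 : ℝ) : ℂ) -
        g t * ((Real.sin t ^ 2 : ℝ) : ℂ))‖ ≤ ∫ t in (0 : ℝ)..Real.pi, ε * Real.sin t ^ 2 := by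
      refine intervalIntegral.norm_integral_le_of_norm_le Real.pi_pos.le ?_
        (Continuous.intervalIntegrable (by fun_prop) _ _)
      filter_upwards with t ht
      rw [← sub_mul, norm_mul, Complex.norm_real, Real.norm_of_nonneg (sq_nonneg _)]
      exact mul_le_mul_of_nonneg_right (h t ⟨ht.1.le, ht.2⟩) (sq_nonneg _)
    rw [intervalIntegral.integral_const_mul] at h1
    have h2 : 0 ≤ 2 / Real.pi := by positivity
    calc 2 / Real.pi * ‖_‖ ≤ 2 / Real.pi * (ε * ∫ t in (0 : ℝ)..Real.pi, Real.sin t ^ 2) :=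
          mul_le_mul_of_nonneg_left h1 h2
      _ = ε * (2 / Real.pi * ∫ t in (0 : ℝ)..Real.pi, Real.sin t ^ 2) := by ring
      _ = ε := by rw [int_sinsq, mul_one]
  · exact (Continuous.intervalIntegrable (by fun_prop) _ _)
  · exact (Continuous.intervalIntegrable (by fun_prop) _ _)

/-- the density of the span of the characters -/
theorem span_dense {Good : (ℝ → ℂ) → Prop}
    (hadd : ∀ f g, Continuous f → Continuous g → Good f → Good g → Good fun t => f t + g t)
    (hmul : ∀ (c : ℂ) f, Continuous f → Good f → Good fun t => c * f t)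
    (hus : ∀ n : ℕ, Good fun t => ((us n t : ℝ) : ℂ))
    (hunif : ∀ f, Continuous f → (∀ ε : ℝ, 0 < ε → ∃ g, Continuous g ∧ Good g ∧
      ∀ t ∈ Set.Icc 0 Real.pi, ‖f t - g t‖ ≤ ε) → Good f) :
    ∀ f : ℝ → ℂ, Continuous f → Good f := by
  have h1 : ∀ k n : ℕ, Good fun t => ((Real.cos t ^ k * us n t : ℝ) : ℂ) := by
    intro k
    induction k with
    | zero =>
      intro n
      simpa using hus n
    | succ k ih =>
      have hc : ∀ n : ℕ, Continuous fun t => ((Real.cos t ^ k * us n t : ℝ) : ℂ) := fun n =>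
        Complex.continuous_ofReal.comp ((Real.continuous_cos.pow k).mul (cont_us n))
      intro n
      rcases n with _ | n
      · have h2 := hmul (1 / 2) _ (hc 1) (ih 1)
        refine (congrArg Good (funext fun t => ?_)).mp h2
        rw [us_one, us_zero]
        push_cast
        ring
      · have h2 := hmul (1 / 2) _ ((hc (n + 2)).add (hc n))
          (hadd _ _ (hc _) (hc _) (ih (n + 2)) (ih n))
        refine (congrArg Good (funext fun t => ?_)).mp h2
        have h3 := us_rec n t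
        have h4 : us (n + 2) t = 2 * Real.cos t * us (n + 1) t - us n t := by linarith
        simp only [Pi.add_apply, h4]
        push_cast
        ring
  have h2 : ∀ k : ℕ, Good fun t => ((Real.cos t ^ k : ℝ) : ℂ) := by
    intro k
    have h3 := h1 k 0
    simpa only [us_zero, mul_one] using h3
  have h3 : ∀ q : Polynomial ℝ, Good fun t => ((q.eval (Real.cos t) : ℝ) : ℂ) := by
    intro q
    induction q using Polynomial.induction_on' with
    | add p q hp hq =>
      have hc : ∀ r : Polynomial ℝ, Continuous fun t => ((r.eval (Real.cos t) : ℝ) : ℂ) := fun r =>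
        Complex.continuous_ofReal.comp (r.continuous.comp Real.continuous_cos)
      refine (congrArg Good (funext fun t => ?_)).mp (hadd _ _ (hc p) (hc q) hp hq)
      rw [Polynomial.eval_add]
      push_cast
      rfl
    | monomial k a =>
      refine (congrArg Good (funext fun t => ?_)).mp (hmul (a : ℂ)
        (fun t => ((Real.cos t ^ k : ℝ) : ℂ))
        (Complex.continuous_ofReal.comp (Real.continuous_cos.pow k)) (h2 k))
      rw [Polynomial.eval_monomial]
      push_cast
      rfl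
  have happ : ∀ g : ℝ → ℝ, Continuous g → ∀ ε : ℝ, 0 < ε → ∃ q : Polynomial ℝ,
      ∀ t ∈ Set.Icc 0 Real.pi, |g t - q.eval (Real.cos t)| ≤ ε := by
    intro g hg ε hε
    obtain ⟨q, hq⟩ := exists_polynomial_near_of_continuousOn (-1) 1 (fun x => g (Real.arccos x))
      (hg.comp Real.continuous_arccos).continuousOn ε hε
    refine ⟨q, fun t ht => ?_⟩
    have h4 := hq (Real.cos t) ⟨Real.neg_one_le_cos t, Real.cos_le_one t⟩
    rw [Real.arccos_cos ht.1 ht.2, abs_sub_comm] at h4
    exact h4.le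
  have hcq : ∀ r : Polynomial ℝ, Continuous fun t => ((r.eval (Real.cos t) : ℝ) : ℂ) := fun r =>
    Complex.continuous_ofReal.comp (r.continuous.comp Real.continuous_cos)
  intro f hf
  refine hunif f hf fun ε hε => ?_
  obtain ⟨q1, hq1⟩ := happ (fun t => (f t).re) (Complex.continuous_re.comp hf) (ε / 2) (by positivity)
  obtain ⟨q2, hq2⟩ := happ (fun t => (f t).im) (Complex.continuous_im.comp hf) (ε / 2) (by positivity)
  refine ⟨fun t => ((q1.eval (Real.cos t) : ℝ) : ℂ) + Complex.I * ((q2.eval (Real.cos t) : ℝ) : ℂ),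
    (hcq q1).add (continuous_const.mul (hcq q2)),
    hadd _ _ (hcq q1) (continuous_const.mul (hcq q2)) (h3 q1) (hmul _ _ (hcq q2) (h3 q2)),
    fun t ht => ?_⟩
  have e : f t - (((q1.eval (Real.cos t) : ℝ) : ℂ) + Complex.I * ((q2.eval (Real.cos t) : ℝ) : ℂ)) =
      (((f t).re - q1.eval (Real.cos t) : ℝ) : ℂ) + Complex.I * (((f t).im - q2.eval (Real.cos t) : ℝ) : ℂ) := by
    conv_lhs => rw [← Complex.re_add_im (f t)]
    push_cast
    ring
  rw [e]
  refine (norm_add_le _ _).trans ?_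
  rw [norm_mul, Complex.norm_I, one_mul, Complex.norm_real, Complex.norm_real, Real.norm_eq_abs,
    Real.norm_eq_abs]
  have := hq1 t ht
  have := hq2 t ht
  linarith

end Pool.Agent.T2H24.SU
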