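import Pool.Agent.TH553.ST.Ext2
import Pool.Agent.T2H24.SU.GNS
import Pool.Agent.T2H24.SU.Sine

set_option autoImplicit false
set_option linter.unusedSectionVars false
set_option linter.unusedVariables false

/-!
# The means over the primes
-/

namespace Pool.Agent.T2H24.SU

open Filter Topology ComplexConjugate NumberField IsDedekindDomain
  Pool.Agent.TH553.RS Pool.Agent.TH553.ST Pool.Agent.W540.BE Pool.Agent.H341R2
open scoped ComplexOrder

section

variable {P : Type*} {N : P → ℕ} {U : Ultrafilter ℝ}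

theorem Bc_im {t : P → ℂ} (h : Bc t) : Bd fun p => (t p).im := by
  obtain ⟨C, hC⟩ := h
  exact ⟨C, fun p => (Complex.abs_im_le_norm _).trans (hC p)⟩

/-- the complex mean -/
noncomputable def Mc (N : P → ℕ) (U : Ultrafilter ℝ) (φ : P → ℂ) : ℂ :=
  ⟨M N U fun p => (φ p).re, M N U fun p => (φ p).im⟩

theorem Mc_add (hN : Sys N) (hU : (U : Filter ℝ) ≤ 𝓝[>] 0) {φ ψ : P → ℂ} (h : Bc φ) (h' : Bc ψ) :
    Mc N U (fun p => φ p + ψ p) = Mc N U φ + Mc N U ψ := by
  apply Complex.ext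
  · change (M N U fun p => (φ p + ψ p).re) = (M N U fun p => (φ p).re) + M N U fun p => (ψ p).re
    simp only [Complex.add_re]
    exact M_add hN hU h.re h'.re
  · change (M N U fun p => (φ p + ψ p).im) = (M N U fun p => (φ p).im) + M N U fun p => (ψ p).im
    simp only [Complex.add_im]
    exact M_add hN hU (Bc_im h) (Bc_im h')

theorem Mc_mul (hN : Sys N) (hU : (U : Filter ℝ) ≤ 𝓝[>] 0) {φ : P → ℂ} (h : Bc φ) (c : ℂ) :
    Mc N U (fun p => c * φ p) = c * Mc N U φ := by
  apply Complex.ext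
  · change (M N U fun p => (c * φ p).re) =
      c.re * (M N U fun p => (φ p).re) - c.im * M N U fun p => (φ p).im
    simp only [Complex.mul_re]
    rw [M_sub hN hU (h.re.const_mul _) ((Bc_im h).const_mul _), M_const_mul hN hU h.re,
      M_const_mul hN hU (Bc_im h)]
  · change (M N U fun p => (c * φ p).im) =
      c.re * (M N U fun p => (φ p).im) + c.im * M N U fun p => (φ p).re
    simp only [Complex.mul_im]
    rw [M_add hN hU ((Bc_im h).const_mul _) (h.re.const_mul _), M_const_mul hN hU h.re,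
      M_const_mul hN hU (Bc_im h)]

theorem bc_cont (h : C(Circle, ℂ)) (z : P → Circle) : Bc fun p => h (z p) :=
  ⟨‖h‖, fun p => h.norm_coe_le_norm _⟩

/-- the functional -/
noncomputable def FU (hN : Sys N) (hU : (U : Filter ℝ) ≤ 𝓝[>] 0) (z : P → Circle) :
    C(Circle, ℂ) →ₚ[ℂ] ℂ := PositiveLinearMap.mk₀
  { toFun := fun h => Mc N U fun p => h (z p) + h (z p)⁻¹
    map_add' := fun g h => by
      have e : (fun p => (g + h) (z p) + (g + h) (z p)⁻¹) =
          fun p => (g (z p) + g (z p)⁻¹) + (h (z p) + h (z p)⁻¹) := by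
        funext p
        simp only [ContinuousMap.add_apply]
        ring
      rw [e]
      exact Mc_add hN hU ((bc_cont g z).add (bc_cont g fun p => (z p)⁻¹))
        ((bc_cont h z).add (bc_cont h fun p => (z p)⁻¹))
    map_smul' := fun c h => by
      have e : (fun p => (c • h) (z p) + (c • h) (z p)⁻¹) =
          fun p => c * (h (z p) + h (z p)⁻¹) := by
        funext p
        simp only [ContinuousMap.smul_apply, smul_eq_mul]
        ring
      rw [e]
      exact Mc_mul hN hU ((bc_cont h z).add (bc_cont h fun p => (z p)⁻¹)) c }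
  (by
    intro h hh
    have h1 : ∀ w : Circle, 0 ≤ h w := fun w => hh w
    have h2 : ∀ w : Circle, 0 ≤ (h w).re ∧ (h w).im = 0 := fun w => by
      have := Complex.nonneg_iff.1 (h1 w)
      exact ⟨this.1, this.2.symm⟩
    change 0 ≤ Mc N U fun p => h (z p) + h (z p)⁻¹
    rw [Complex.nonneg_iff]
    constructor
    · refine M_nonneg hN hU ((bc_cont h z).add (bc_cont h fun p => (z p)⁻¹)).re fun p => ?_
      rw [Complex.add_re]
      exact add_nonneg (h2 _).1 (h2 _).1
    · change (0 : ℝ) = M N U fun p => (h (z p) + h (z p)⁻¹).im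
      have e : (fun p => (h (z p) + h (z p)⁻¹).im) = fun _ => (0 : ℝ) := by
        funext p
        rw [Complex.add_im, (h2 _).2, (h2 _).2, add_zero]
      rw [e, M_const hN hU])

theorem FU_zp (hN : Sys N) (hU : (U : Filter ℝ) ≤ 𝓝[>] 0) (θ : P → ℝ) (j : ℤ) :
    FU hN hU (fun p => Circle.exp (θ p)) (zp j) =
      ((M N U fun p => 2 * Real.cos ((j : ℝ) * θ p) : ℝ) : ℂ) := by
  change (Mc N U fun p => zp j (Circle.exp (θ p)) + zp j (Circle.exp (θ p))⁻¹) = _
  have e : (fun p => zp j (Circle.exp (θ p)) + zp j (Circle.exp (θ p))⁻¹) =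
      fun p => ((2 * Real.cos ((j : ℝ) * θ p) : ℝ) : ℂ) := by
    funext p
    rw [zp_apply, zp_apply, ← Circle.exp_neg, Circle.coe_exp, Circle.coe_exp, ← Complex.exp_int_mul,
      ← Complex.exp_int_mul]
    push_cast
    rw [Complex.cos]
    have e1 : (j : ℂ) * ((θ p : ℂ) * Complex.I) = (j : ℂ) * θ p * Complex.I := by ring
    have e2 : (j : ℂ) * (-(θ p : ℂ) * Complex.I) = -((j : ℂ) * θ p) * Complex.I := by ring
    rw [e1, e2]
    ring
  rw [e]
  apply Complex.ext
  · change (M N U fun p => (((2 * Real.cos ((j : ℝ) * θ p) : ℝ)) : ℂ).re) = _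
    simp only [Complex.ofReal_re]
  · change (M N U fun p => (((2 * Real.cos ((j : ℝ) * θ p) : ℝ)) : ℂ).im) = _
    simp only [Complex.ofReal_im]
    exact M_const hN hU 0

/-- **The trichotomy for angles.** -/
theorem tri_mean (hN : Sys N) (hU : (U : Filter ℝ) ≤ 𝓝[>] 0) (θ : P → ℝ) {c : ℤ → ℤ}
    (hc : ∀ j : ℤ, (M N U fun p => 2 * Real.cos ((j : ℝ) * θ p)) = c j) :
    (∃ m : ℤ, 0 < m ∧ ∀ q : ℤ, c (m * q) = 2) ∨
    (∃ p : ℕ, 0 < p ∧ ∃ ε : ℤ, (ε = 1 ∨ ε = -1) ∧ ∀ j : ℤ, j ≠ 0 →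
      (∀ q : ℤ, j = p * q → c j = ε ^ q.natAbs) ∧ (¬ (p : ℤ) ∣ j → c j = 0)) ∨
    (∀ j : ℤ, j ≠ 0 → c j = 0) ∨ ∃ N : ℕ, 0 < N ∧ ∃ ε : ℤ, (ε = 1 ∨ ε = -1) ∧
      ∀ j : ℤ, j ≠ 0 → c j = if j.natAbs = N then ε else 0 := by
  refine tri_seq (FU hN hU fun p => Circle.exp (θ p)) (c := c) (fun j => ?_) ?_
  · rw [FU_zp, hc]
    norm_cast
  · have h1 := hc 0
    simp only [Int.cast_zero, zero_mul, Real.cos_zero, mul_one] at h1
    rw [M_const hN hU] at h1
    exact_mod_cast h1.symm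

end

end Pool.Agent.T2H24.SU
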