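import Pool.Agent.T2H24.SU.Laws

set_option autoImplicit false
set_option linter.unusedSectionVars false
set_option linter.unusedVariables false

/-!
# The law on the roots of unity
-/

namespace Pool.Agent.T2H24.SU

open Filter Topology ComplexConjugate NumberField IsDedekindDomain
  Pool.Agent.TH553.RS Pool.Agent.TH553.ST Pool.Agent.W540.BE Pool.Agent.H341R2 Pool.Agent.W353.TP

/-- the law on the roots of unity -/
noncomputable def rootI (k : ℕ) (c : ℕ → ℝ) (f : ℝ → ℝ) : ℝ :=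
  ∑ i ∈ Finset.range k, c i * f (Real.arccos (Real.cos (2 * Real.pi * i / k)))

theorem rootI_fnl (k : ℕ) (c : ℕ → ℝ) : Fnl (rootI k c) (∑ i ∈ Finset.range k, |c i|) where
  nonneg := Finset.sum_nonneg fun i _ => abs_nonneg _
  add f g _ _ := by
    unfold rootI
    rw [← Finset.sum_add_distrib]
    exact Finset.sum_congr rfl fun i _ => by ring
  mul a f _ := by
    unfold rootI
    rw [Finset.mul_sum]
    exact Finset.sum_congr rfl fun i _ => by ring
  bd f g _ _ δ hδ h := by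
    unfold rootI
    rw [← Finset.sum_sub_distrib, Finset.sum_mul]
    refine (Finset.abs_sum_le_sum_abs _ _).trans (Finset.sum_le_sum fun i _ => ?_)
    rw [← mul_sub, abs_mul]
    exact mul_le_mul_of_nonneg_left (h _ ⟨Real.arccos_nonneg _, Real.arccos_le_pi _⟩)
      (abs_nonneg _)

theorem cos_arccos_cos (n : ℕ) (x : ℝ) :
    Real.cos ((n : ℝ) * Real.arccos (Real.cos x)) = Real.cos ((n : ℝ) * x) := by
  have h1 := Polynomial.Chebyshev.T_real_cos (Real.arccos (Real.cos x)) (n : ℤ)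
  have h2 := Polynomial.Chebyshev.T_real_cos x (n : ℤ)
  rw [Real.cos_arccos (Real.neg_one_le_cos x) (Real.cos_le_one x)] at h1
  rw [h1] at h2
  push_cast at h2
  exact h2

/-- the orthogonality -/
theorem root_orth {k : ℕ} (hk : 0 < k) (a : ℤ) :
    ∑ i ∈ Finset.range k, Real.cos ((a : ℝ) * (2 * Real.pi * i / k)) =
      if (k : ℤ) ∣ a then (k : ℝ) else 0 := by
  have hk' : (k : ℝ) ≠ 0 := by exact_mod_cast hk.ne'
  have h1 := ptI_cos hk 0 a.natAbs
  have h2 : ∀ i ∈ Finset.range k, Real.cos ((a : ℝ) * (2 * Real.pi * i / k)) =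
      Real.cos ((a.natAbs : ℝ) * Real.arccos (Real.cos ((2 * Real.pi * i + 0) / k))) := by
    intro i _
    rw [cos_arccos_cos, add_zero]
    have e : (a.natAbs : ℝ) = |(a : ℝ)| := by
      rw [Nat.cast_natAbs, Int.cast_abs]
    rw [e]
    rcases abs_choice (a : ℝ) with h | h
    · rw [h]
    · rw [h, neg_mul, Real.cos_neg]
  rw [Finset.sum_congr rfl h2]
  have h3 : ∑ i ∈ Finset.range k,
      Real.cos ((a.natAbs : ℝ) * Real.arccos (Real.cos ((2 * Real.pi * i + 0) / k))) =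
      ptI k 0 (fun t => Real.cos ((a.natAbs : ℝ) * t)) * k := by
    unfold ptI
    rw [div_mul_cancel₀ _ hk']
  rw [h3]
  split_ifs with h
  · obtain ⟨q, hq⟩ := h
    rw [h1.1 q.natAbs (by rw [hq, Int.natAbs_mul, Int.natAbs_natCast]), mul_zero, Real.cos_zero,
      one_mul]
  · rw [h1.2 (fun h4 => h (Int.natCast_dvd.2 h4)), zero_mul]

theorem per_sum {k : ℕ} (hk : 0 < k) {g : ℤ → ℝ} (hg : ∀ j, g (j + k) = g j) (a : ℤ) :
    ∑ r ∈ Finset.range k, g r * (if (k : ℤ) ∣ (r : ℤ) - a then (k : ℝ) else 0) = k * g a := by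
  have hk' : (k : ℤ) ≠ 0 := by exact_mod_cast hk.ne'
  have h0 : 0 ≤ a % (k : ℤ) := Int.emod_nonneg _ hk'
  have h1 : a % (k : ℤ) < k := Int.emod_lt_of_pos _ (by exact_mod_cast hk)
  obtain ⟨r, hr⟩ := Int.eq_ofNat_of_zero_le h0
  have hper : Function.Periodic g (k : ℤ) := hg
  have h2 : g (r : ℤ) = g a := by
    rw [← hr]
    have h3 : a % (k : ℤ) = a - (a / k) • (k : ℤ) := by
      rw [smul_eq_mul, mul_comm]
      exact Int.emod_def a k
    rw [h3, hper.sub_zsmul_eq]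
  rw [Finset.sum_eq_single r]
  · rw [if_pos, h2, mul_comm]
    rw [← hr]
    exact Int.dvd_sub_self_of_emod_eq rfl |> fun h => by
      have := dvd_neg.2 h
      rwa [neg_sub] at this
  · intro l hl hne
    rw [Finset.mem_range] at hl
    rw [if_neg, mul_zero]
    intro hd
    apply hne
    have h3 : (k : ℤ) ∣ (l : ℤ) - r := by
      have h4 : (k : ℤ) ∣ a - a % k := Int.dvd_self_sub_emod
      have h5 := dvd_add hd h4
      rw [hr] at h5
      have e : (l : ℤ) - a + (a - (r : ℤ)) = (l : ℤ) - r := by ring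
      have e2 : ((Nat.cast r : ℤ)) = (r : ℤ) := rfl
      simpa [e] using h5
    obtain ⟨q, hq⟩ := h3
    have hrk : (r : ℤ) < k := by rw [← hr]; exact h1
    have hq0 : q = 0 := by
      by_contra hq0
      rcases lt_or_gt_of_ne hq0 with h | h
      · have : (k : ℤ) * q ≤ k * (-1) := mul_le_mul_of_nonneg_left (by omega) (by omega)
        omega
      · have : (k : ℤ) * 1 ≤ k * q := mul_le_mul_of_nonneg_left (by omega) (by omega)
        omega
    rw [hq0, mul_zero] at hq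
    omega
  · intro h
    exfalso
    apply h
    rw [Finset.mem_range]
    have : (r : ℤ) < k := by rw [← hr]; exact h1
    exact_mod_cast this

/-- the masses -/
noncomputable def mass (k : ℕ) (g : ℤ → ℝ) (i : ℕ) : ℝ :=
  (1 / (k : ℝ)) * ∑ r ∈ Finset.range k, g r * Real.cos (((r : ℤ) : ℝ) * (2 * Real.pi * i / k))

theorem rootI_mass {k : ℕ} (hk : 0 < k) {g : ℤ → ℝ} (hg : ∀ j, g (j + k) = g j)
    (hg' : ∀ j, g (-j) = g j) (n : ℕ) :
    rootI k (mass k g) (fun t => Real.cos ((n : ℝ) * t)) = g n := by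
  have hk' : (k : ℝ) ≠ 0 := by exact_mod_cast hk.ne'
  unfold rootI
  simp only [cos_arccos_cos]
  have h1 : ∀ i ∈ Finset.range k, mass k g i * Real.cos ((n : ℝ) * (2 * Real.pi * i / k)) =
      (1 / (2 * (k : ℝ))) * (∑ r ∈ Finset.range k,
        (g r * Real.cos ((((r : ℤ) - (-n : ℤ) : ℤ) : ℝ) * (2 * Real.pi * i / k)) +
        g r * Real.cos ((((r : ℤ) - (n : ℤ) : ℤ) : ℝ) * (2 * Real.pi * i / k)))) := by
    intro i _
    unfold mass
    rw [mul_assoc, Finset.sum_mul, Finset.mul_sum, Finset.mul_sum]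
    refine Finset.sum_congr rfl fun r _ => ?_
    have e1 : (((r : ℤ) - (-n : ℤ) : ℤ) : ℝ) * (2 * Real.pi * i / k) =
        ((r : ℤ) : ℝ) * (2 * Real.pi * i / k) + (n : ℝ) * (2 * Real.pi * i / k) := by
      push_cast
      ring
    have e2 : (((r : ℤ) - (n : ℤ) : ℤ) : ℝ) * (2 * Real.pi * i / k) =
        ((r : ℤ) : ℝ) * (2 * Real.pi * i / k) - (n : ℝ) * (2 * Real.pi * i / k) := by
      push_cast
      ring
    rw [e1, e2, Real.cos_add, Real.cos_sub]
    field_simp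
    ring
  rw [Finset.sum_congr rfl h1, ← Finset.mul_sum, Finset.sum_comm]
  have h2 : ∀ r ∈ Finset.range k, ∑ i ∈ Finset.range k,
      (g r * Real.cos ((((r : ℤ) - (-n : ℤ) : ℤ) : ℝ) * (2 * Real.pi * i / k)) +
        g r * Real.cos ((((r : ℤ) - (n : ℤ) : ℤ) : ℝ) * (2 * Real.pi * i / k))) =
      g r * (if (k : ℤ) ∣ (r : ℤ) - (-n : ℤ) then (k : ℝ) else 0) +
      g r * (if (k : ℤ) ∣ (r : ℤ) - (n : ℤ) then (k : ℝ) else 0) := by
    intro r _
    rw [Finset.sum_add_distrib, ← Finset.mul_sum, ← Finset.mul_sum, root_orth hk, root_orth hk]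
  rw [Finset.sum_congr rfl h2, Finset.sum_add_distrib, per_sum hk hg, per_sum hk hg, hg']
  field_simp
  ring

section

variable {P : Type*} {N : P → ℕ}

theorem cos_shift_le (a b t : ℝ) : (Real.cos ((a + b) * t) - Real.cos (a * t)) ^ 2 ≤
    2 - 2 * Real.cos (b * t) := by
  have h1 : Real.cos ((a + b) * t) - Real.cos (a * t) =
      Real.cos (a * t) * (Real.cos (b * t) - 1) - Real.sin (a * t) * Real.sin (b * t) := by
    have e : (a + b) * t = a * t + b * t := by ring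
    rw [e, Real.cos_add]
    ring
  have h2 : (Real.cos (a * t) * (Real.cos (b * t) - 1) - Real.sin (a * t) * Real.sin (b * t)) ^ 2 +
      (Real.cos (a * t) * Real.sin (b * t) + Real.sin (a * t) * (Real.cos (b * t) - 1)) ^ 2 =
      2 - 2 * Real.cos (b * t) := by
    have e1 := Real.sin_sq_add_cos_sq (a * t)
    have e2 := Real.sin_sq_add_cos_sq (b * t)
    have : (Real.cos (a * t) * (Real.cos (b * t) - 1) - Real.sin (a * t) * Real.sin (b * t)) ^ 2 +
      (Real.cos (a * t) * Real.sin (b * t) + Real.sin (a * t) * (Real.cos (b * t) - 1)) ^ 2 =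
      (Real.sin (a * t) ^ 2 + Real.cos (a * t) ^ 2) *
        ((Real.sin (b * t) ^ 2 + Real.cos (b * t) ^ 2) + 1 - 2 * Real.cos (b * t)) := by ring
    rw [this, e1, e2]
    ring
  rw [h1]
  have := sq_nonneg (Real.cos (a * t) * Real.sin (b * t) + Real.sin (a * t) * (Real.cos (b * t) - 1))
  linarith

theorem cf_per (hN : Sys N) {U : Ultrafilter ℝ} (hU : (U : Filter ℝ) ≤ 𝓝[>] 0) {θ : P → ℝ}
    {m : ℕ → ℤ} (h0 : m 0 = 1)
    (h : ∀ n : ℕ, 1 ≤ n → (M N U fun p => us n (θ p)) = m n) {k : ℕ} (hk : 0 < k)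
    (h2 : jump m k = 2) (j : ℤ) : cf m (j + k) = cf m j := by
  have hcos : ∀ j : ℤ, (M N U fun p => Real.cos ((j : ℝ) * θ p)) = (cf m j : ℝ) / 2 := by
    intro j
    have h4 := M_cos hN hU (θ := θ) h0 h j
    rw [M_const_mul hN hU (bd_cos' θ _)] at h4
    linarith
  have hck : cf m (k : ℤ) = 2 := by
    unfold cf
    rw [if_neg (by omega), Int.natAbs_natCast, h2]
  set D : P → ℝ := fun p => Real.cos (((j + k : ℤ) : ℝ) * θ p) - Real.cos ((j : ℝ) * θ p) with hD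
  have hDb : Bd D := (bd_cos' θ _).sub (bd_cos' θ _)
  have h3 : M N U D = (cf m (j + k) : ℝ) / 2 - (cf m j : ℝ) / 2 := by
    rw [hD, M_sub hN hU (bd_cos' θ _) (bd_cos' θ _), hcos, hcos]
  have h4 : (M N U fun p => D p ^ 2) ≤ 0 := by
    have h5 : (M N U fun p => D p ^ 2) ≤ M N U fun p => 2 - 2 * Real.cos (((k : ℤ) : ℝ) * θ p) := by
      refine M_mono hN hU hDb.sq ((Bd.const 2).sub ((bd_cos' θ _).const_mul 2)) fun p => ?_
      have := cos_shift_le (j : ℝ) (k : ℝ) (θ p)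
      rw [hD]
      push_cast
      exact this
    rw [M_sub hN hU (Bd.const 2) ((bd_cos' θ _).const_mul 2), M_const hN hU,
      M_const_mul hN hU (bd_cos' θ _), hcos, hck] at h5
    norm_num at h5
    exact h5
  have h6 := M_cs hN hU (Bd.const 1) hDb
  simp only [one_mul, one_pow] at h6
  rw [M_one hN hU, one_mul] at h6
  have h7 : (M N U D) ^ 2 ≤ 0 := h6.trans h4
  have h8 : M N U D = 0 := by nlinarith [sq_nonneg (M N U D)]
  rw [h3] at h8
  have h9 : (cf m (j + k) : ℝ) = cf m j := by linarith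
  exact_mod_cast h9

theorem cf_neg (m : ℕ → ℤ) (j : ℤ) : cf m (-j) = cf m j := by
  unfold cf
  rw [Int.natAbs_neg]
  simp only [neg_eq_zero]

end

/-- **The limit law.** -/
theorem tri_law {m : ℕ → ℤ} (h0 : m 0 = 1) {P : Type*} {N : P → ℕ} (hN : Sys N) {θ : P → ℝ}
    (hθ : ∀ p, θ p ∈ Set.Icc 0 Real.pi)
    (h : ∀ U : Ultrafilter ℝ, (U : Filter ℝ) ≤ 𝓝[>] 0 → ∀ n : ℕ, 1 ≤ n →
      (M N U fun p => us n (θ p)) = m n) :
    ∃ L : (ℝ → ℝ) → ℝ, (∀ U : Ultrafilter ℝ, (U : Filter ℝ) ≤ 𝓝[>] 0 → ∀ f : ℝ → ℝ,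
      Continuous f → (M N U fun p => f (θ p)) = L f) ∧
      ((∃ (k : ℕ) (c : ℕ → ℝ), 0 < k ∧ L = rootI k c ∧ jump m k = 2 ∧
        ∀ q : ℕ, 0 < q → jump m (k * q) = 2) ∨
      (∃ (p : ℕ) (ε : ℤ), 0 < p ∧ (ε = 1 ∨ ε = -1) ∧
        L = halfI p (if ε = 1 then 0 else Real.pi) ∧ ∀ n : ℕ, 1 ≤ n →
        (∀ q : ℕ, n = p * q → jump m n = ε ^ q) ∧ (¬ p ∣ n → jump m n = 0)) ∨
      ∃ (N : ℕ) (ε : ℤ), 0 < N ∧ (ε = 0 ∨ ε = 1 ∨ ε = -1) ∧ L = cosI N ε ∧
        ∀ n : ℕ, 1 ≤ n → jump m n = if n = N then ε else 0) := by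
  have hne : (𝓝[>] (0 : ℝ)).NeBot := inferInstance
  set U₀ : Ultrafilter ℝ := Ultrafilter.of (𝓝[>] (0 : ℝ)) with hUd
  have hU₀ : (U₀ : Filter ℝ) ≤ 𝓝[>] 0 := Ultrafilter.of_le _
  have hcos : ∀ U : Ultrafilter ℝ, (U : Filter ℝ) ≤ 𝓝[>] 0 → ∀ n : ℕ,
      (M N U fun p => Real.cos ((n : ℝ) * θ p)) = (cf m n : ℝ) / 2 := by
    intro U hU n
    have h4 := M_cos hN hU (θ := θ) h0 (h U hU) (n : ℤ)
    rw [M_const_mul hN hU (bd_cos' θ _)] at h4
    push_cast at h4 ⊢
    linarith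
  have hcf : ∀ n : ℕ, n ≠ 0 → cf m n = jump m n := fun n hn => by
    unfold cf
    rw [if_neg (by omega), Int.natAbs_natCast]
  have hcf0 : cf m (0 : ℕ) = 2 := by
    unfold cf
    rw [if_pos (by norm_num)]
  rcases tri_orders hN hU₀ h0 (h U₀ hU₀) with ⟨k, hk, h1⟩ | ⟨p, hp, ε, hε, h1⟩ | h1 |
      ⟨N', hN', ε, hε, h1⟩
  · have hk2 : jump m k = 2 := by
      have := h1 1 one_pos
      rwa [mul_one] at this
    set g : ℤ → ℝ := fun j => (cf m j : ℝ) / 2 with hg
    have hgp : ∀ j, g (j + k) = g j := fun j => by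
      rw [hg]
      simp only
      rw [cf_per hN hU₀ h0 (h U₀ hU₀) hk hk2 j]
    have hgn : ∀ j, g (-j) = g j := fun j => by
      rw [hg]
      simp only
      rw [cf_neg]
    refine ⟨rootI k (mass k g), fun U hU f hf => ?_, Or.inl ⟨k, mass k g, hk, rfl, hk2, h1⟩⟩
    exact law_fnl hN hU hθ (rootI_fnl k _) (fun n => by
      rw [hcos U hU, rootI_mass hk hgp hgn]) hf
  · refine ⟨halfI p (if ε = 1 then 0 else Real.pi), fun U hU f hf => ?_,
      Or.inr (Or.inl ⟨p, ε, hp, hε, rfl, h1⟩)⟩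
    refine law_fnl hN hU hθ halfI_fnl (fun n => ?_) hf
    rcases Nat.eq_zero_or_pos n with rfl | hn
    · rw [hcos U hU, halfI_one hp, hcf0]
      norm_num
    · rw [hcos U hU, hcf n hn.ne']
      by_cases hd : p ∣ n
      · obtain ⟨q, hq⟩ := hd
        rw [(halfI_cos hp _ n hn).1 q hq, (h1 n hn).1 q hq]
        rcases hε with rfl | rfl
        · simp
        · rw [if_neg (by norm_num), Real.cos_nat_mul_pi]
          push_cast
          rfl
      · rw [(halfI_cos hp _ n hn).2 hd, (h1 n hn).2 hd]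
        simp
  · refine ⟨cosI 1 ((0 : ℤ) : ℝ), fun U hU f hf => ?_, Or.inr (Or.inr ⟨1, 0, one_pos, Or.inl rfl,
      rfl, fun n hn => by rw [h1 n hn]; simp⟩)⟩
    refine law_fnl hN hU hθ (cosI_fnl one_ne_zero (by simp)) (fun n => ?_) hf
    rw [hcos U hU, cosI_cos one_ne_zero]
    rcases Nat.eq_zero_or_pos n with rfl | hn
    · rw [hcf0]
      norm_num
    · rw [hcf n hn.ne', h1 n hn, if_neg hn.ne']
      simp
  · refine ⟨cosI N' (ε : ℝ), fun U hU f hf => ?_, Or.inr (Or.inr ⟨N', ε, hN', ?_, rfl, h1⟩)⟩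
    swap
    · tauto
    refine law_fnl hN hU hθ (cosI_fnl hN'.ne' ?_) (fun n => ?_) hf
    · rcases hε with rfl | rfl <;> norm_num
    rw [hcos U hU, cosI_cos hN'.ne']
    rcases Nat.eq_zero_or_pos n with rfl | hn
    · rw [hcf0, if_pos rfl, if_neg (by omega)]
      norm_num
    · rw [hcf n hn.ne', h1 n hn, if_neg hn.ne', zero_add]
      split_ifs
      · rfl
      · norm_num

end Pool.Agent.T2H24.SU
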