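import Pool.Agent.T2H24.SU.Helson

set_option autoImplicit false
set_option linter.unusedSectionVars false
set_option linter.unusedVariables false

/-!
# The splitting of integer valued positive definite functions
-/

namespace Pool.Agent.T2H24.SU

open Filter Topology ComplexConjugate
open scoped InnerProductSpace

theorem exists_idem0 : ∃ q : Ultrafilter ℕ+, ∀ P : ℕ+ → Prop,
    (∀ᶠ n in (q : Filter ℕ+), P n) ↔ ∀ᶠ m in (q : Filter ℕ+), ∀ᶠ m' in (q : Filter ℕ+), P (m + m') := by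
  let _ : AddSemigroup (Ultrafilter ℕ+) := Ultrafilter.addSemigroup
  obtain ⟨q, hq⟩ := exists_idempotent_of_compact_t2_of_continuous_add_left
    (M := Ultrafilter ℕ+) fun V => Ultrafilter.continuous_add_left V
  refine ⟨q, fun P => ?_⟩
  have h := Ultrafilter.eventually_add q q P
  conv_lhs => rw [← hq]
  exact h

/-- an idempotent ultrafilter -/
theorem exists_idem : ∃ p : Ultrafilter ℤ, (∀ᶠ n in (p : Filter ℤ), 0 < n) ∧ ∀ P : ℤ → Prop,
    (∀ᶠ n in (p : Filter ℤ), P n) ↔ ∀ᶠ m in (p : Filter ℤ), ∀ᶠ m' in (p : Filter ℤ), P (m + m') := by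
  obtain ⟨q, hq⟩ := exists_idem0
  refine ⟨q.map fun n : ℕ+ => ((n : ℕ) : ℤ), ?_, fun P => ?_⟩
  · rw [Ultrafilter.coe_map, eventually_map]
    filter_upwards with n
    exact_mod_cast n.pos
  · simp only [Ultrafilter.coe_map, eventually_map]
    rw [hq]
    refine eventually_congr (Eventually.of_forall fun m => eventually_congr
      (Eventually.of_forall fun m' => ?_))
    simp

variable {H : Type*} [NormedAddCommGroup H] [InnerProductSpace ℂ H] [CompleteSpace H]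
variable {U : H ≃ₗᵢ[ℂ] H}

/-- the residues along an idempotent ultrafilter -/
theorem idem_dvd {p : Ultrafilter ℤ} (hp : ∀ P : ℤ → Prop, (∀ᶠ n in (p : Filter ℤ), P n) ↔
    ∀ᶠ m in (p : Filter ℤ), ∀ᶠ m' in (p : Filter ℤ), P (m + m')) {k : ℤ} (hk : 0 < k) :
    ∀ᶠ n in (p : Filter ℤ), k ∣ n := by
  have h1 : ∃ r : ℤ, ∀ᶠ n in (p : Filter ℤ), n % k = r := by
    have h2 : (Set.Ico 0 k) ∈ (p.map fun n => n % k) := by
      rw [Ultrafilter.mem_map]
      filter_upwards with n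
      exact ⟨Int.emod_nonneg n hk.ne', Int.emod_lt_of_pos n hk⟩
    obtain ⟨r, -, hr⟩ := Ultrafilter.eq_pure_of_finite_mem (Set.finite_Ico 0 k) h2
    refine ⟨r, ?_⟩
    have h3 : ({r} : Set ℤ) ∈ (p.map fun n => n % k) := by
      rw [hr]
      simp
    rw [Ultrafilter.mem_map] at h3
    exact h3
  obtain ⟨r, hr⟩ := h1
  have h2 := (hp fun n => n % k = r).1 hr
  obtain ⟨m, hm1, hm2⟩ := (h2.and hr).exists
  obtain ⟨m', hm3, hm4⟩ := (hm1.and hr).exists
  have h3 : r % k = r := by rw [← hm2, Int.emod_emod_of_dvd _ dvd_rfl]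
  have h4 : (r + r) % k = r := by
    rw [Int.add_emod, hm2, hm4] at hm3
    exact hm3
  have h5 : k ∣ (r + r) - r := by
    have : (r + r) % k = r % k := by rw [h4, h3]
    exact Int.dvd_of_emod_eq_zero (Int.emod_eq_emod_iff_emod_sub_eq_zero.1 this)
  have h6 : r = 0 := by
    have h7 : k ∣ r := by simpa using h5
    rw [← h3]
    exact Int.emod_eq_zero_of_dvd h7
  filter_upwards [hr] with n hn
  rw [h6] at hn
  exact Int.dvd_of_emod_eq_zero hn

/-- the weak limit along an idempotent ultrafilter is idempotent -/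
theorem W_idem {p : Ultrafilter ℤ} (hp : ∀ P : ℤ → Prop, (∀ᶠ n in (p : Filter ℤ), P n) ↔
    ∀ᶠ m in (p : Filter ℤ), ∀ᶠ m' in (p : Filter ℤ), P (m + m')) (x : H) :
    W U p (W U p x) = W U p x := by
  refine ext_inner_right ℂ fun y => ?_
  refine tendsto_nhds_unique (W_spec U p (W U p x) y) ?_
  have h1 := W_spec U p x y
  rw [Metric.tendsto_nhds] at h1 ⊢
  intro η hη
  have h2 := (hp fun n => dist (⟪(U ^ n) x, y⟫_ℂ) (⟪W U p x, y⟫_ℂ) < η / 2).1
    (h1 (η / 2) (by positivity))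
  filter_upwards [h2] with m hm
  have h3 : Tendsto (fun m' : ℤ => ⟪(U ^ (m + m')) x, y⟫_ℂ) p (𝓝 ⟪(U ^ m) (W U p x), y⟫_ℂ) := by
    rw [inner_pow]
    refine (W_spec U p x _).congr fun m' => ?_
    rw [← inner_pow, pow_pow]
  have h4 := h3.dist (tendsto_const_nhds (x := ⟪W U p x, y⟫_ℂ))
  have h5 := le_of_tendsto h4 (hm.mono fun _ h => h.le)
  linarith

theorem fix_mul {k : ℤ} {y : H} (h : (U ^ k) y = y) (l : ℤ) : (U ^ (k * l)) y = y := by
  have h1 : ∀ n : ℕ, (U ^ (k * n)) y = y := by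
    intro n
    induction n with
    | zero => simp
    | succ n ih =>
      have : k * ((n + 1 : ℕ) : ℤ) = k * n + k := by push_cast; ring
      rw [this, ← pow_pow, h, ih]
  rcases Int.eq_nat_or_neg l with ⟨n, rfl | rfl⟩
  · exact h1 n
  · have h2 : (U ^ (k * n)) ((U ^ (k * -(n : ℤ))) y) = (U ^ (k * n)) y := by
      rw [pow_pow, h1]
      have : k * (n : ℤ) + k * -(n : ℤ) = 0 := by ring
      rw [this, zpow_zero]
      rfl
    exact (U ^ (k * n)).injective h2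

/-- **The splitting.** -/
theorem split {e : H} (h : IntU U e) : ∃ a b : H, e = a + b ∧ (∃ m : ℤ, 0 < m ∧ (U ^ m) a = a) ∧
    (∀ j : ℤ, ⟪a, (U ^ j) b⟫_ℂ = 0) ∧ (∀ j : ℤ, ⟪b, (U ^ j) a⟫_ℂ = 0) ∧ IntU U a ∧ IntU U b ∧
    {j : ℤ | ⟪b, (U ^ j) b⟫_ℂ ≠ 0}.Finite := by
  obtain ⟨p, hpos, hp⟩ := exists_idem
  set a := W U p e with ha
  have hWa : W U p a = a := W_idem hp e
  have hia : IntU U a := h.weak p
  -- a is fixed
  have hfix : ∃ m : ℤ, 0 < m ∧ (U ^ m) a = a := by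
    have h1 : ∀ n : ℤ, IsInt ⟪(U ^ n) a, a⟫_ℂ := fun n => by
      rw [← inner_conj_symm]
      exact (hia n).conj
    have h2 := (IsInt.eventually_eq h1 (W_spec U p a a)).2
    rw [hWa] at h2
    obtain ⟨n, hn1, hn2⟩ := (h2.and hpos).exists
    refine ⟨n, hn2, eq_of_inner (r := ‖a‖ ^ 2) (by rw [norm_pow]) rfl ?_⟩
    rw [hn1, inner_self_real, Complex.ofReal_re]
  -- the rest is orthogonal
  have horth : ∀ k : ℤ, 0 < k → ∀ y, (U ^ k) y = y → ⟪e - a, y⟫_ℂ = 0 := by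
    intro k hk y hy
    have h1 : ⟪a, y⟫_ℂ = ⟪e, y⟫_ℂ := by
      refine tendsto_nhds_unique (W_spec U p e y) ?_
      refine tendsto_const_nhds.congr' ?_
      filter_upwards [idem_dvd hp hk] with n hn
      obtain ⟨l, rfl⟩ := hn
      rw [inner_pow]
      have : (U ^ (-(k * l))) y = y := by
        rw [← mul_neg]
        exact fix_mul hy _
      rw [this]
    rw [inner_sub_left, h1, sub_self]
  set b := e - a with hb
  obtain ⟨m, hm, hma⟩ := hfix
  have hba : ∀ j : ℤ, ⟪b, (U ^ j) a⟫_ℂ = 0 := fun j => horth m hm _ (fix_pow hma j)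
  have hab : ∀ j : ℤ, ⟪a, (U ^ j) b⟫_ℂ = 0 := by
    intro j
    have h1 := hba (-j)
    rw [← inner_conj_symm, inner_pow, h1, map_zero]
  have hib : IntU U b := by
    intro j
    have h1 : ⟪e, (U ^ j) e⟫_ℂ = ⟪a, (U ^ j) a⟫_ℂ + ⟪b, (U ^ j) b⟫_ℂ := by
      have h2 : e = a + b := by rw [hb]; abel
      conv_lhs => rw [h2]
      rw [map_add, inner_add_left, inner_add_right, inner_add_right, hab, hba]
      ring
    have h3 : ⟪b, (U ^ j) b⟫_ℂ = ⟪e, (U ^ j) e⟫_ℂ - ⟪a, (U ^ j) a⟫_ℂ := by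
      rw [h1]
      ring
    rw [h3]
    exact (h j).sub (hia j)
  obtain ⟨M, hM⟩ := hib.norm_nat
  exact ⟨a, b, by rw [hb]; abel, ⟨m, hm, hma⟩, hab, hba, hia, hib, fin_support M b hM hib horth⟩

end Pool.Agent.T2H24.SU
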