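import Pool.Agent.T2H24.SU.Fejer2

set_option autoImplicit false
set_option linter.unusedSectionVars false
set_option linter.unusedVariables false

/-!
# The trichotomy for positive definite integer valued functions with the value `2` at `0`
-/

namespace Pool.Agent.T2H24.SU

open Filter Topology ComplexConjugate
open scoped InnerProductSpace

variable {H : Type*} [NormedAddCommGroup H] [InnerProductSpace ℂ H] [CompleteSpace H]
variable {U : H ≃ₗᵢ[ℂ] H}

/-- an integral vector of length one -/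
theorem unit_cases {a : H} (h1 : ‖a‖ ^ 2 = 1) (hi : IntU U a) (j : ℤ) :
    ⟪a, (U ^ j) a⟫_ℂ = 0 ∨ ∃ ε : ℤ, (ε = 1 ∨ ε = -1) ∧ ⟪a, (U ^ j) a⟫_ℂ = ε ∧ (U ^ j) a = (ε : ℂ) • a := by
  obtain ⟨k, hk⟩ := hi j
  have hn : ‖a‖ = 1 := by
    have := norm_nonneg a
    nlinarith
  have h2 : ‖⟪a, (U ^ j) a⟫_ℂ‖ ≤ 1 := by
    refine (norm_inner_le_norm _ _).trans ?_
    rw [norm_pow, hn, one_mul]
  rw [hk, Complex.norm_intCast] at h2
  have h3 : |k| ≤ 1 := by exact_mod_cast h2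
  rw [abs_le] at h3
  have h4 : k = 0 ∨ k = 1 ∨ k = -1 := by omega
  rcases h4 with h | h | h
  · left
    rw [hk, h]
    simp
  · right
    refine ⟨1, Or.inl rfl, by rw [hk, h], ?_⟩
    rw [Int.cast_one, one_smul]
    refine (eq_of_inner (r := 1) h1 (by rw [norm_pow]; exact h1) ?_).symm
    rw [hk, h]
    simp
  · right
    refine ⟨-1, Or.inr rfl, by rw [hk, h], ?_⟩
    rw [Int.cast_neg, Int.cast_one, neg_smul, one_smul]
    have h5 : -a = (U ^ j) a := by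
      refine eq_of_inner (r := 1) (by rw [norm_neg]; exact h1) (by rw [norm_pow]; exact h1) ?_
      rw [inner_neg_left, hk, h]
      simp
    exact h5.symm

theorem pow_eig {p : ℤ} {ε : ℤ} (hε : ε = 1 ∨ ε = -1) {a : H} (h : (U ^ p) a = (ε : ℂ) • a) (q : ℤ) :
    (U ^ (p * q)) a = ((ε ^ q.natAbs : ℤ) : ℂ) • a := by
  have hεε : (ε : ℂ) * ε = 1 := by
    rcases hε with h | h <;> rw [h] <;> norm_num
  have h1 : ∀ n : ℕ, (U ^ (p * n)) a = ((ε ^ n : ℤ) : ℂ) • a := by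
    intro n
    induction n with
    | zero => simp
    | succ n ih =>
      have e1 : p * ((n + 1 : ℕ) : ℤ) = p * n + p := by push_cast; ring
      rw [e1, ← pow_pow, h, map_smul, ih, smul_smul]
      congr 1
      push_cast
      ring
  rcases Int.eq_nat_or_neg q with ⟨n, rfl | rfl⟩
  · rw [Int.natAbs_natCast]
    exact h1 n
  · rw [Int.natAbs_neg, Int.natAbs_natCast]
    have h2 : (U ^ (p * n)) ((U ^ (p * -(n : ℤ))) a) =
        (U ^ (p * n)) (((ε ^ n : ℤ) : ℂ) • a) := by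
      rw [pow_pow, map_smul, h1, smul_smul]
      have e1 : p * (n : ℤ) + p * -(n : ℤ) = 0 := by ring
      have e2 : ((ε ^ n : ℤ) : ℂ) * ((ε ^ n : ℤ) : ℂ) = 1 := by
        push_cast
        rw [← mul_pow, hεε, one_pow]
      rw [e1, e2, zpow_zero, one_smul]
      rfl
    exact (U ^ (p * n)).injective h2

/-- **The trichotomy.** -/
theorem tri {e : H} (h2 : ‖e‖ ^ 2 = 2) (hi : IntU U e) :
    (∃ m : ℤ, 0 < m ∧ (U ^ m) e = e) ∨
    (∃ p : ℕ, 0 < p ∧ ∃ ε : ℤ, (ε = 1 ∨ ε = -1) ∧ ∀ j : ℤ, j ≠ 0 →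
      (∀ q : ℤ, j = p * q → ⟪e, (U ^ j) e⟫_ℂ = ((ε ^ q.natAbs : ℤ) : ℂ)) ∧
      (¬ (p : ℤ) ∣ j → ⟪e, (U ^ j) e⟫_ℂ = 0)) ∨
    (∀ j : ℤ, j ≠ 0 → ⟪e, (U ^ j) e⟫_ℂ = 0) ∨ ∃ N : ℕ, 0 < N ∧ ∃ ε : ℤ, (ε = 1 ∨ ε = -1) ∧
      ∀ j : ℤ, j ≠ 0 → ⟪e, (U ^ j) e⟫_ℂ = if j.natAbs = N then (ε : ℂ) else 0 := by
  classical
  obtain ⟨a, b, hab, ⟨m, hm, hma⟩, h3, h4, hia, hib, hfin⟩ := split hi
  obtain ⟨A, hA⟩ := hia.norm_nat
  obtain ⟨B, hB⟩ := hib.norm_nat
  have hsum : ∀ j : ℤ, ⟪e, (U ^ j) e⟫_ℂ = ⟪a, (U ^ j) a⟫_ℂ + ⟪b, (U ^ j) b⟫_ℂ := by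
    intro j
    rw [hab, map_add, inner_add_left, inner_add_right, inner_add_right, h3, h4]
    ring
  have hABr : ‖e‖ ^ 2 = ‖a‖ ^ 2 + ‖b‖ ^ 2 := by
    have h5 := hsum 0
    rw [zpow_zero] at h5
    change ⟪e, e⟫_ℂ = ⟪a, a⟫_ℂ + ⟪b, b⟫_ℂ at h5
    rw [inner_self_real, inner_self_real, inner_self_real] at h5
    exact_mod_cast h5
  rw [h2, hA, hB] at hABr
  have hABn : A + B = 2 := by
    have : (2 : ℝ) = ((A + B : ℕ) : ℝ) := by rw [hABr]; push_cast; ring
    exact_mod_cast this.symm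
  have hB3 : B = 0 ∨ B = 1 ∨ B = 2 := by omega
  rcases hB3 with hB0 | hB1 | hB2
  · left
    have h5 : b = 0 := by
      rw [hB0] at hB
      have h6 : ‖b‖ ^ 2 = 0 := by simpa using hB
      exact norm_eq_zero.1 (pow_eq_zero_iff (two_ne_zero) |>.1 h6)
    refine ⟨m, hm, ?_⟩
    rw [hab, h5, add_zero, hma]
  · right; left
    have hA1 : A = 1 := by omega
    rw [hA1, Nat.cast_one] at hA
    rw [hB1, Nat.cast_one] at hB
    have hb0 : ∀ j : ℤ, j ≠ 0 → ⟪b, (U ^ j) b⟫_ℂ = 0 := by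
      intro j hj
      rcases unit_cases hB hib j with h | ⟨ε, hε, h5, h6⟩
      · exact h
      · exfalso
        have h7 : ∀ q : ℤ, ⟪b, (U ^ (j * q)) b⟫_ℂ ≠ 0 := by
          intro q
          rw [pow_eig hε h6, inner_smul_right, inner_self_real, hB]
          rcases hε with h | h <;> rw [h] <;> simp
        have h8 : (Set.range fun q : ℤ => j * q).Infinite :=
          Set.infinite_range_of_injective fun x y h => mul_left_cancel₀ hj h
        exact h8 (hfin.subset (by rintro _ ⟨q, rfl⟩; exact h7 q))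
    -- the least period
    have hex : ∃ n : ℕ, 0 < n ∧ ⟪a, (U ^ (n : ℤ)) a⟫_ℂ ≠ 0 := by
      refine ⟨m.toNat, by omega, ?_⟩
      have e1 : ((m.toNat : ℕ) : ℤ) = m := Int.toNat_of_nonneg hm.le
      rw [e1, hma, inner_self_real, hA]
      simp
    set p := Nat.find hex with hp
    obtain ⟨hp0, hp1⟩ := Nat.find_spec hex
    rw [← hp] at hp0 hp1
    rcases unit_cases hA hia (p : ℤ) with h | ⟨ε, hε, h5, h6⟩
    · exact absurd h hp1
    refine ⟨p, hp0, ε, hε, fun j hj => ⟨?_, ?_⟩⟩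
    · rintro q rfl
      rw [hsum, hb0 _ hj, add_zero, pow_eig hε h6, inner_smul_right, inner_self_real, hA]
      simp
    · intro hdvd
      rw [hsum, hb0 _ hj, add_zero]
      have hp0' : (0 : ℤ) < p := by exact_mod_cast hp0
      have hr0 : 0 ≤ j % p := Int.emod_nonneg _ hp0'.ne'
      have hr1 : j % p < p := Int.emod_lt_of_pos _ hp0'
      have hr2 : j % p ≠ 0 := fun h => hdvd (Int.dvd_of_emod_eq_zero h)
      have e1 : j = j % p + p * (j / p) := (Int.emod_add_mul_ediv j p).symm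
      have h7 : ⟪a, (U ^ (j % p)) a⟫_ℂ = 0 := by
        have h8 := Nat.find_min hex (m := (j % p).toNat) (by rw [← hp]; omega)
        push Not at h8
        have h9 := h8 (by omega)
        have e2 : (((j % p).toNat : ℕ) : ℤ) = j % p := Int.toNat_of_nonneg hr0
        rw [e2] at h9
        exact h9
      rw [e1, ← pow_pow, pow_eig hε h6, map_smul, inner_smul_right, h7, mul_zero]
  · right; right
    have hA0 : A = 0 := by omega
    have h5 : a = 0 := by
      rw [hA0] at hA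
      have h6 : ‖a‖ ^ 2 = 0 := by simpa using hA
      exact norm_eq_zero.1 (pow_eq_zero_iff (two_ne_zero) |>.1 h6)
    have h6 : e = b := by rw [hab, h5, zero_add]
    rw [h6]
    rw [hB2] at hB
    exact fejer (by exact_mod_cast hB) hib hfin

end Pool.Agent.T2H24.SU
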