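import Mathlib

set_option autoImplicit false
set_option linter.unusedSectionVars false
set_option linter.unusedVariables false

/-!
# Weak limits of the powers of a unitary operator along ultrafilters
-/

namespace Pool.Agent.T2H24.SU

open Filter Topology ComplexConjugate
open scoped InnerProductSpace

/-- integers -/
def IsInt (z : ℂ) : Prop := ∃ k : ℤ, z = k

theorem IsInt.conj_eq {z : ℂ} (h : IsInt z) : conj z = z := by
  obtain ⟨k, rfl⟩ := h
  exact map_intCast (starRingEnd ℂ) k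

theorem IsInt.conj {z : ℂ} (h : IsInt z) : IsInt (conj z) := by
  rw [h.conj_eq]
  exact h

theorem IsInt.sub {z w : ℂ} (h : IsInt z) (h' : IsInt w) : IsInt (z - w) := by
  obtain ⟨k, rfl⟩ := h
  obtain ⟨l, rfl⟩ := h'
  exact ⟨k - l, by push_cast; rfl⟩

/-- two integers at a distance less than one are equal -/
theorem IsInt.eq_of_dist {z w : ℂ} (h : IsInt z) (h' : IsInt w) (hd : dist z w < 1) : z = w := by
  obtain ⟨k, rfl⟩ := h
  obtain ⟨l, rfl⟩ := h'
  rw [Complex.dist_eq, ← Int.cast_sub, Complex.norm_intCast] at hd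
  have h1 : |k - l| < 1 := by exact_mod_cast hd
  have h2 : k - l = 0 := Int.abs_lt_one_iff.1 h1
  rw [sub_eq_zero.1 h2]

/-- a convergent family of integers is eventually constant -/
theorem IsInt.eventually_eq {α : Type*} {p : Filter α} [p.NeBot] {f : α → ℂ} {l : ℂ}
    (hf : ∀ a, IsInt (f a)) (h : Tendsto f p (𝓝 l)) : IsInt l ∧ ∀ᶠ a in p, f a = l := by
  have h1 : ∀ᶠ a in p, dist (f a) l < 1 / 2 := h.eventually (Metric.ball_mem_nhds l (by norm_num))
  obtain ⟨a₀, ha₀⟩ := h1.exists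
  have h2 : ∀ᶠ a in p, f a = f a₀ := by
    filter_upwards [h1] with a ha
    refine (hf a).eq_of_dist (hf a₀) ?_
    calc dist (f a) (f a₀) ≤ dist (f a) l + dist (f a₀) l := dist_triangle_right _ _ _
      _ < 1 / 2 + 1 / 2 := add_lt_add ha ha₀
      _ = 1 := by norm_num
  have h3 : l = f a₀ := tendsto_nhds_unique h ((tendsto_const_nhds).congr' (h2.mono fun a h => h.symm))
  rw [h3]
  exact ⟨hf a₀, h2⟩

theorem exists_lim {α : Type*} (p : Ultrafilter α) {f : α → ℂ} {C : ℝ} (h : ∀ a, ‖f a‖ ≤ C) :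
    ∃ x, Tendsto f p (𝓝 x) := by
  have h1 : IsCompact (Metric.closedBall (0 : ℂ) C) := isCompact_closedBall _ _
  have h2 : ((p.map f : Ultrafilter ℂ) : Filter ℂ) ≤ 𝓟 (Metric.closedBall (0 : ℂ) C) := by
    rw [Ultrafilter.coe_map, Filter.le_principal_iff, Filter.mem_map]
    filter_upwards with a
    simpa using h a
  obtain ⟨x, -, hx⟩ := h1.ultrafilter_le_nhds (p.map f) h2
  exact ⟨x, by rw [Ultrafilter.coe_map] at hx; exact hx⟩

variable {H : Type*} [NormedAddCommGroup H] [InnerProductSpace ℂ H] [CompleteSpace H]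

/-- weak limits of bounded families of vectors -/
theorem exists_weak {α : Type*} (p : Ultrafilter α) {x : α → H} {C : ℝ} (hC : ∀ a, ‖x a‖ ≤ C) :
    ∃ w : H, ‖w‖ ≤ C ∧ ∀ y, Tendsto (fun a => ⟪x a, y⟫_ℂ) p (𝓝 ⟪w, y⟫_ℂ) := by
  have hb : ∀ y a, ‖⟪x a, y⟫_ℂ‖ ≤ C * ‖y‖ := fun y a => (norm_inner_le_norm _ _).trans
      (mul_le_mul_of_nonneg_right (hC a) (norm_nonneg _))
  have h1 : ∀ y : H, ∃ l : ℂ, Tendsto (fun a => ⟪x a, y⟫_ℂ) p (𝓝 l) := fun y =>
    exists_lim p (C := C * ‖y‖) (hb y)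
  choose l hl using h1
  have hC0 : 0 ≤ C := by
    obtain ⟨a⟩ := Filter.nonempty_of_neBot (p : Filter α)
    exact (norm_nonneg _).trans (hC a)
  let L : H →ₗ[ℂ] ℂ :=
    { toFun := l
      map_add' := fun y z => tendsto_nhds_unique (hl _)
        (((hl y).add (hl z)).congr fun a => (inner_add_right _ _ _).symm)
      map_smul' := fun c y => tendsto_nhds_unique (hl _)
        (((hl y).const_mul c).congr fun a => (inner_smul_right _ _ _).symm) }
  let L' : H →L[ℂ] ℂ := L.mkContinuous C fun y => le_of_tendsto (hl y).norm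
    (Filter.Eventually.of_forall fun a => hb y a)
  refine ⟨(InnerProductSpace.toDual ℂ H).symm L', ?_, fun y => ?_⟩
  · rw [LinearIsometryEquiv.norm_map]
    exact L.mkContinuous_norm_le hC0 _
  · rw [InnerProductSpace.toDual_symm_apply]
    exact hl y

variable (U : H ≃ₗᵢ[ℂ] H)

/-- the weak limit of `U ^ n x` along `p` -/
noncomputable def W (p : Ultrafilter ℤ) (x : H) : H :=
  (exists_weak p (x := fun n : ℤ => (U ^ n) x) (C := ‖x‖)
    fun n => (LinearIsometryEquiv.norm_map _ _).le).choose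

theorem norm_W (p : Ultrafilter ℤ) (x : H) : ‖W U p x‖ ≤ ‖x‖ :=
  (exists_weak p (x := fun n : ℤ => (U ^ n) x) (C := ‖x‖)
    fun n => (LinearIsometryEquiv.norm_map _ _).le).choose_spec.1

theorem W_spec (p : Ultrafilter ℤ) (x y : H) :
    Tendsto (fun n : ℤ => ⟪(U ^ n) x, y⟫_ℂ) p (𝓝 ⟪W U p x, y⟫_ℂ) :=
  (exists_weak p (x := fun n : ℤ => (U ^ n) x) (C := ‖x‖)
    fun n => (LinearIsometryEquiv.norm_map _ _).le).choose_spec.2 y

theorem pow_pow (n m : ℤ) (x : H) : (U ^ n) ((U ^ m) x) = (U ^ (n + m)) x := by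
  rw [zpow_add]
  rfl

/-- moving a power to the other side -/
theorem inner_pow (n : ℤ) (x y : H) : ⟪(U ^ n) x, y⟫_ℂ = ⟪x, (U ^ (-n)) y⟫_ℂ := by
  have h : y = (U ^ n) ((U ^ (-n)) y) := by
    rw [pow_pow, add_neg_cancel, zpow_zero]
    rfl
  conv_lhs => rw [h]
  exact LinearIsometryEquiv.inner_map_map _ _ _

theorem inner_pow_pow (n m : ℤ) (x y : H) :
    ⟪(U ^ n) x, (U ^ m) y⟫_ℂ = ⟪x, (U ^ (m - n)) y⟫_ℂ := by
  rw [inner_pow, pow_pow]
  congr 3
  ring

theorem inner_pow_pow' (n m : ℤ) (x y : H) :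
    ⟪(U ^ n) x, (U ^ m) y⟫_ℂ = ⟪(U ^ (n - m)) x, y⟫_ℂ := by
  rw [inner_pow_pow, inner_pow]
  congr 3
  ring

theorem W_comm (p : Ultrafilter ℤ) (k : ℤ) (x : H) : W U p ((U ^ k) x) = (U ^ k) (W U p x) := by
  refine ext_inner_right ℂ fun y => ?_
  refine tendsto_nhds_unique (W_spec U p ((U ^ k) x) y) ?_
  rw [inner_pow]
  refine (W_spec U p x _).congr fun n => ?_
  rw [pow_pow, add_comm, ← pow_pow, inner_pow U k]

/-- the adjoint: the weak limit of `U ^ (-n) x` -/
noncomputable def W' (p : Ultrafilter ℤ) (x : H) : H := W U (p.map Neg.neg) x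

theorem W'_spec (p : Ultrafilter ℤ) (x y : H) :
    Tendsto (fun n : ℤ => ⟪(U ^ (-n)) x, y⟫_ℂ) p (𝓝 ⟪W' U p x, y⟫_ℂ) := by
  have h := W_spec U (p.map Neg.neg) x y
  rw [Ultrafilter.coe_map, tendsto_map'_iff] at h
  exact h

theorem W'_adj (p : Ultrafilter ℤ) (x y : H) : ⟪W' U p x, y⟫_ℂ = ⟪x, W U p y⟫_ℂ := by
  refine tendsto_nhds_unique (W'_spec U p x y) ?_
  have h := (Complex.continuous_conj.tendsto _).comp (W_spec U p y x)
  rw [inner_conj_symm] at h
  refine h.congr fun n => ?_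
  simp only [Function.comp]
  rw [inner_conj_symm, inner_pow, neg_neg]

end Pool.Agent.T2H24.SU
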